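import Pool.Agent.MP_2a1f0e_nt.GM2.Defs

set_option autoImplicit false

open Finset

namespace Pool.Agent.MP_2a1f0e_nt.GM2

open GM

lemma far_BB (D : Finset ℤ) (a : ℤ → ℝ) (w : ℤ → ℤ → ℝ) (W : ℝ) (hW : 0 ≤ W)
    (h : ∑ r ∈ D, ∑ s ∈ D, w r s ^ 2 ≤ W ^ 2) :
    ∑ r ∈ D, ∑ s ∈ D, a r * a s * w r s ≤ (∑ r ∈ D, a r ^ 2) * W := by
  have h0 : 0 ≤ ∑ r ∈ D, a r ^ 2 := sum_nonneg fun _ _ => sq_nonneg _
  have h1 := sum_mul_sq_le_sq_mul_sq (D ×ˢ D) (fun p => a p.1 * a p.2) (fun p => w p.1 p.2)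
  rw [sum_product, sum_product, sum_product] at h1
  have h2 : ∑ r ∈ D, ∑ s ∈ D, (a r * a s) ^ 2 = (∑ r ∈ D, a r ^ 2) ^ 2 := by
    rw [sq (∑ r ∈ D, a r ^ 2), sum_mul_sum]
    exact sum_congr rfl fun r _ => sum_congr rfl fun s _ => by ring
  simp only at h1
  rw [h2] at h1
  refine (le_abs_self _).trans (abs_le_of_sq_le_sq ?_ (mul_nonneg h0 hW))
  rw [mul_pow]
  exact h1.trans (mul_le_mul_of_nonneg_left h (sq_nonneg _))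

lemma near_BB {ι : Type*} (I : Finset ι) (D : Finset ℤ) (a : ι → ℤ → ℝ) (s t : ℤ → ℝ)
    (P : ℤ → Prop) [DecidablePred P] (G : ℝ) (hs : ∀ r, 0 ≤ s r) (ht : ∀ r, 0 ≤ t r)
    (h : ∀ r, ∑ i ∈ I, a i r ^ 2 ≤ G) :
    ∑ i ∈ I, ∑ r ∈ D, ∑ q ∈ D, (if P r ∧ P q then a i r * a i q * (s r * t q) else 0) ≤
      G * ((∑ r ∈ D.filter P, s r) * ∑ q ∈ D.filter P, t q) := by
  rw [sum_comm, sum_filter, sum_filter, sum_mul_sum, mul_sum]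
  refine sum_le_sum fun r _ => ?_
  rw [sum_comm, mul_sum]
  refine sum_le_sum fun q _ => ?_
  by_cases h1 : P r
  · by_cases h2 : P q
    · simp only [h1, h2, and_self, if_true]
      rw [← sum_mul]
      refine mul_le_mul_of_nonneg_right ?_ (mul_nonneg (hs r) (ht q))
      have h3 : ∑ i ∈ I, a i r * a i q ≤ ∑ i ∈ I, (a i r ^ 2 + a i q ^ 2) / 2 :=
        sum_le_sum fun i _ => by nlinarith [sq_nonneg (a i r - a i q)]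
      rw [← sum_div, sum_add_distrib] at h3
      linarith [h r, h q]
    · simp [h2]
  · simp [h1]

lemma N2_conj_BB (D : Finset ℤ) (u : ℤ → ℂ) :
    N2 D (fun ρ => (starRingEnd ℂ) (u ρ)) = N2 D u := by
  simp [N2]

lemma pow_J_BB {y lam : ℝ} {X : ℕ} (hy : 1 ≤ y) (hX : 729 * y ^ 36 ≤ X) (hl : 1 ≤ lam) :
    (3 * y ^ 6) ^ 2 ≤ 2 ^ (Nat.log 2 X + 1) * lam := by
  have h1 : (X : ℝ) < 2 ^ (Nat.log 2 X + 1) := by
    exact_mod_cast Nat.lt_pow_succ_log_self (b := 2) (by norm_num) X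
  have h2 : y ^ 12 ≤ y ^ 36 := pow_le_pow_right₀ hy (by norm_num)
  have h3 : 0 ≤ y ^ 12 := by positivity
  have h4 : (3 * y ^ 6) ^ 2 = 9 * y ^ 12 := by ring
  have h5 : (2 : ℝ) ^ (Nat.log 2 X + 1) ≤ 2 ^ (Nat.log 2 X + 1) * lam :=
    le_mul_of_one_le_right (by positivity) hl
  linarith

lemma split_BB {a b t g lam c : ℝ} {P Q : Prop} [Decidable P] [Decidable Q] (ha : 0 ≤ a)
    (hb : 0 ≤ b) (ht : 0 ≤ t) (hg : 0 ≤ g) (hc : g ≤ c) (h : lam < t → P ∨ Q) :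
    (if lam < t then a * b * t * g else 0) ≤
      a * b * (if lam < t ∧ Q then t * g else 0) + c * (if P then a * b * t else 0) := by
  have h1 : 0 ≤ a * b * t := by positivity
  have h2 : 0 ≤ c := hg.trans hc
  have h3 : 0 ≤ a * b * (if lam < t ∧ Q then t * g else 0) := by
    split_ifs <;> positivity
  have h4 : 0 ≤ c * (if P then a * b * t else 0) := by
    split_ifs <;> positivity
  by_cases h5 : lam < t
  · rw [if_pos h5]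
    rcases h h5 with h6 | h6
    · rw [if_pos h6]
      have := mul_le_mul_of_nonneg_left hc h1
      linarith
    · rw [if_pos (And.intro h5 h6)] at h3 ⊢
      linarith
  · rw [if_neg h5]
    linarith

lemma wsq_BB {t g c m : ℝ} {P : Prop} [Decidable P] (hm : 0 < m) (h : g ^ 2 * m ≤ c) :
    (if P then t * g else 0) ^ 2 ≤ c * (if P then t ^ 2 / m else 0) := by
  split_ifs
  · have h1 : g ^ 2 ≤ c / m := (le_div_iff₀ hm).2 h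
    calc (t * g) ^ 2 = t ^ 2 * g ^ 2 := by ring
      _ ≤ t ^ 2 * (c / m) := mul_le_mul_of_nonneg_left h1 (sq_nonneg _)
      _ = c * (t ^ 2 / m) := by ring
  · simp

theorem bb_stmt (hB : BilStmt) (h2 : GL2Stmt) (hG : GamStmt) (hK : KKStmt) (hN : NearStmt)
    (hF : FarStmt) : BBStmt := by
  obtain ⟨C2, hC2, h2⟩ := h2
  obtain ⟨CG, hCG, hG⟩ := hG
  obtain ⟨CK, -, hK⟩ := hK
  obtain ⟨Cn, hCn, hN⟩ := hN
  obtain ⟨CF, hCF, hF⟩ := hF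
  have hCn0 : 0 < Cn := by linarith
  refine ⟨4 * Cn * C2 + √(CG * CF) * Cn + (CG + 1) * Cn ^ 2, by positivity, ?_⟩
  intro y Δ a b κ σ z₀ z₁ Y G M₁ M₂ R X I u hy hM₁ hM₁' hM₂ hM₂' hR hX hD hL hY hGG
  obtain ⟨hNa, hNb⟩ := hN y hy
  have hΔ : 1 ≤ Δ := hD.1
  have hy0 : 0 < y := by linarith
  have hy10 : 1 ≤ y ^ 10 := one_le_pow₀ hy
  have hlam : y ^ 10 ≤ Cn * y ^ 10 := le_mul_of_one_le_left (by positivity) hCn
  have hG0 : 0 ≤ G := (sum_nonneg fun _ _ => sq_nonneg _).trans (hGG 0)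
  have hY0 : 0 ≤ Y := (sum_nonneg fun _ _ => N2_nonneg _ _).trans hY
  have hJ : ((Nat.log 2 X + 1 : ℕ) : ℝ) + 1 ≤ 2 * Δ := by
    have := DivB_log hD le_rfl
    push_cast
    linarith
  have hΔ7 : Δ ≤ Δ ^ 7 := le_self_pow₀ hΔ (by norm_num)
  have hgam : ∀ r q : ℝ, ‖Gam κ σ z₀ z₁ r q‖ ≤ CG + 1 := fun r q => by
    have h1 := hG a b κ σ z₀ z₁ hL r q
    have h3 : ‖Gam κ σ z₀ z₁ r q‖ ^ 2 ≤ ‖Gam κ σ z₀ z₁ r q‖ ^ 2 * (1 + |r| + |q|) :=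
      le_mul_of_one_le_right (sq_nonneg _) (by linarith [abs_nonneg r, abs_nonneg q])
    nlinarith [sq_nonneg (‖Gam κ σ z₀ z₁ r q‖ - 1)]
  have hW : ∑ r ∈ Io R, ∑ q ∈ Io R,
      (if Cn * y ^ 10 < ‖KK M₁ (-(r : ℝ))‖ * ‖KK M₂ q‖ ∧ y ^ 4 ≤ max |(r : ℝ)| |(q : ℝ)| then
        ‖KK M₁ (-(r : ℝ))‖ * ‖KK M₂ q‖ * ‖Gam κ σ z₀ z₁ r q‖ else 0) ^ 2 ≤
      (√(CG * CF) * Δ ^ 7 * (Cn * y ^ 10)) ^ 2 := by
    have h1 := hF y (Cn * y ^ 10) Δ M₁ M₂ R X hy hM₁ hM₁' hM₂ hM₂' hR hX hD hlam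
    have h3 := mul_le_mul_of_nonneg_left h1 hCG.le
    rw [mul_sum] at h3
    refine le_trans (sum_le_sum fun r _ => ?_) (h3.trans ?_)
    · rw [mul_sum]
      exact sum_le_sum fun q _ => wsq_BB (by positivity) (hG a b κ σ z₀ z₁ hL r q)
    · have h4 : Δ ^ 13 ≤ Δ ^ 14 := pow_le_pow_right₀ hΔ (by norm_num)
      have h5 : √(CG * CF) ^ 2 = CG * CF := Real.sq_sqrt (by positivity)
      calc CG * (CF * Δ ^ 13 * (Cn * y ^ 10) ^ 2)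
          = CG * CF * (Cn * y ^ 10) ^ 2 * Δ ^ 13 := by ring
        _ ≤ CG * CF * (Cn * y ^ 10) ^ 2 * Δ ^ 14 :=
          mul_le_mul_of_nonneg_left h4 (by positivity)
        _ = √(CG * CF) ^ 2 * (Cn * y ^ 10) ^ 2 * Δ ^ 14 := by rw [h5]
        _ = _ := by ring
  have key : ∀ i ∈ I, ‖Bf R M₁ M₂ κ σ z₀ z₁ (u i)‖ ≤
      (4 * Cn * C2 + √(CG * CF) * Cn) * (Δ ^ 7 * y ^ 10) * N2 (Io R) (u i) +
      (CG + 1) * ∑ r ∈ Io R, ∑ q ∈ Io R, (if |(r : ℝ)| ≤ y ∧ |(q : ℝ)| ≤ y then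
        ‖u i r‖ * ‖u i q‖ * (‖KK M₁ (-(r : ℝ))‖ * ‖KK M₂ q‖) else 0) := by
    intro i _
    have h1 := hB (Io R) (u i) (fun ρ => (starRingEnd ℂ) (u i ρ)) (fun ρ => KK M₁ (-(ρ : ℝ)))
      (fun ρ => KK M₂ ρ) (fun ρ₁ ρ₂ => Gam κ σ z₀ z₁ ρ₁ ρ₂) C2 (Cn * y ^ 10) (3 * y ^ 6)
      (Nat.log 2 X + 1) hC2.le (by positivity) (by positivity)
      (h2 a b κ σ z₀ z₁ hL (Io R))
      (fun ρ _ => (hK M₁ hM₁ _).2.trans (by linarith))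
      (fun ρ _ => (hK M₂ hM₂ _).2.trans (by linarith))
      (pow_J_BB hy hX (hy10.trans hlam))
    have hn := N2_nonneg (Io R) (u i)
    rw [N2_conj_BB, mul_assoc _ (√(N2 (Io R) (u i))), Real.mul_self_sqrt hn] at h1
    simp only [Complex.norm_conj] at h1
    have h3 := far_BB (Io R) (fun r => ‖u i r‖) _ _ (by positivity) hW
    have h4 : ∑ r ∈ Io R, ∑ q ∈ Io R, (if Cn * y ^ 10 < ‖KK M₁ (-(r : ℝ))‖ * ‖KK M₂ q‖ then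
        ‖u i r‖ * ‖u i q‖ * (‖KK M₁ (-(r : ℝ))‖ * ‖KK M₂ q‖) * ‖Gam κ σ z₀ z₁ r q‖ else 0) ≤
        ∑ r ∈ Io R, ∑ q ∈ Io R, ‖u i r‖ * ‖u i q‖ *
          (if Cn * y ^ 10 < ‖KK M₁ (-(r : ℝ))‖ * ‖KK M₂ q‖ ∧ y ^ 4 ≤ max |(r : ℝ)| |(q : ℝ)| then
            ‖KK M₁ (-(r : ℝ))‖ * ‖KK M₂ q‖ * ‖Gam κ σ z₀ z₁ r q‖ else 0) +
        (CG + 1) * ∑ r ∈ Io R, ∑ q ∈ Io R, (if |(r : ℝ)| ≤ y ∧ |(q : ℝ)| ≤ y then
          ‖u i r‖ * ‖u i q‖ * (‖KK M₁ (-(r : ℝ))‖ * ‖KK M₂ q‖) else 0) := by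
      rw [mul_sum, ← sum_add_distrib]
      refine sum_le_sum fun r _ => ?_
      rw [mul_sum, ← sum_add_distrib]
      exact sum_le_sum fun q _ => split_BB (norm_nonneg _) (norm_nonneg _) (by positivity)
        (norm_nonneg _) (hgam r q) (hNb M₁ M₂ hM₁ hM₁' hM₂ hM₂' r q)
    have h5 : 2 * (Cn * y ^ 10) * (((Nat.log 2 X + 1 : ℕ) : ℝ) + 1) * C2 * N2 (Io R) (u i) ≤
        4 * Cn * C2 * (Δ ^ 7 * y ^ 10) * N2 (Io R) (u i) := by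
      refine mul_le_mul_of_nonneg_right ?_ hn
      have h6 : ((Nat.log 2 X + 1 : ℕ) : ℝ) + 1 ≤ 2 * Δ ^ 7 := by linarith
      calc 2 * (Cn * y ^ 10) * (((Nat.log 2 X + 1 : ℕ) : ℝ) + 1) * C2
          = 2 * (Cn * y ^ 10) * C2 * (((Nat.log 2 X + 1 : ℕ) : ℝ) + 1) := by ring
        _ ≤ 2 * (Cn * y ^ 10) * C2 * (2 * Δ ^ 7) := mul_le_mul_of_nonneg_left h6 (by positivity)
        _ = _ := by ring
    have h6 : (∑ r ∈ Io R, ‖u i r‖ ^ 2) * (√(CG * CF) * Δ ^ 7 * (Cn * y ^ 10)) =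
        √(CG * CF) * Cn * (Δ ^ 7 * y ^ 10) * N2 (Io R) (u i) := by
      unfold N2
      ring
    have h7 : ‖Bf R M₁ M₂ κ σ z₀ z₁ (u i)‖ ≤ _ := h1
    linarith
  have hnear := near_BB I (Io R) (fun i r => ‖u i r‖) (fun r => ‖KK M₁ (-(r : ℝ))‖)
    (fun q => ‖KK M₂ q‖) (fun r : ℤ => |(r : ℝ)| ≤ y) G (fun _ => norm_nonneg _)
    (fun _ => norm_nonneg _) hGG
  have h8 : (∑ r ∈ (Io R).filter (fun r : ℤ => |(r : ℝ)| ≤ y), ‖KK M₁ (-(r : ℝ))‖) *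
      ∑ q ∈ (Io R).filter (fun r : ℤ => |(r : ℝ)| ≤ y), ‖KK M₂ q‖ ≤ Cn * y ^ 6 * (Cn * y ^ 6) :=
    mul_le_mul (hNa M₁ hM₁ hM₁' _).2 (hNa M₂ hM₂ hM₂' _).1
      (sum_nonneg fun _ _ => norm_nonneg _) (by positivity)
  have h9 := hnear.trans (mul_le_mul_of_nonneg_left h8 hG0)
  refine (sum_le_sum key).trans ?_
  rw [sum_add_distrib, ← mul_sum, ← mul_sum]
  have h10 := mul_le_mul_of_nonneg_left h9 (show 0 ≤ CG + 1 by positivity)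
  have h11 := mul_le_mul_of_nonneg_left hY
    (show 0 ≤ (4 * Cn * C2 + √(CG * CF) * Cn) * (Δ ^ 7 * y ^ 10) by positivity)
  have h12 : 0 ≤ (4 * Cn * C2 + √(CG * CF) * Cn) * (y ^ 12 * G) := by positivity
  have h13 : 0 ≤ (CG + 1) * Cn ^ 2 * (Δ ^ 7 * y ^ 10 * Y) := by positivity
  refine (add_le_add h11 h10).trans ?_
  have h14 : (4 * Cn * C2 + √(CG * CF) * Cn + (CG + 1) * Cn ^ 2) *
      (Δ ^ 7 * y ^ 10 * Y + y ^ 12 * G) =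
      (4 * Cn * C2 + √(CG * CF) * Cn) * (Δ ^ 7 * y ^ 10) * Y +
      (CG + 1) * (G * (Cn * y ^ 6 * (Cn * y ^ 6))) +
      (4 * Cn * C2 + √(CG * CF) * Cn) * (y ^ 12 * G) +
      (CG + 1) * Cn ^ 2 * (Δ ^ 7 * y ^ 10 * Y) := by ring
  linarith

end Pool.Agent.MP_2a1f0e_nt.GM2
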