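import Pool.Agent.MP_2a1f0e_nt.GM2.Defs
import Pool.Agent.MP_2a1f0e_nt.GM.BOne

set_option autoImplicit false

open Finset

namespace Pool.Agent.MP_2a1f0e_nt.GM2

open GM

lemma div_BThree {δ C0 : ℝ} (hδ : 0 < δ) (h1 : δ ≤ 1) (c0 : 1 ≤ C0) : ∃ CD : ℝ, 1 ≤ CD ∧
    ∀ N T M : ℕ, 1 ≤ N → T ≤ N ^ 2 → (M : ℝ) ≤ C0 * (N : ℝ) ^ δ * (T / N) →
      DivB (N * M + 729 * M ^ 6) (CD * (N : ℝ) ^ δ) := by
  obtain ⟨Cd, cd, hd⟩ := divisor_bound (ε := δ / 12) (by positivity)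
  have c6 : 1 ≤ C0 ^ 6 := one_le_pow₀ c0
  have b1 : 1 ≤ 730 * C0 ^ 6 := by linarith
  refine ⟨Cd * (730 * C0 ^ 6), one_le_mul_of_one_le_of_one_le cd b1, fun N T M hN hT hM => ?_⟩
  have n1 : (1 : ℝ) ≤ N := by exact_mod_cast hN
  have n0 : (0 : ℝ) < N := by linarith
  have p1 : 1 ≤ (N : ℝ) ^ δ := Real.one_le_rpow n1 hδ.le
  have p2 : (N : ℝ) ^ δ ≤ N := (Real.rpow_le_rpow_of_exponent_le n1 h1).trans_eq (Real.rpow_one _)
  have t1 : (T : ℝ) / N ≤ N := by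
    rw [div_le_iff₀ n0, ← sq]
    exact_mod_cast hT
  have m1 : (M : ℝ) ≤ C0 * (N : ℝ) ^ 2 := by
    refine hM.trans ?_
    rw [sq, ← mul_assoc]
    gcongr
  have m2 : (M : ℝ) ^ 6 ≤ C0 ^ 6 * (N : ℝ) ^ 12 := by
    refine (pow_le_pow_left₀ (Nat.cast_nonneg _) m1 6).trans_eq ?_
    ring
  have m3 : (N : ℝ) * M ≤ C0 ^ 6 * (N : ℝ) ^ 12 := by
    calc (N : ℝ) * M ≤ N * (C0 * (N : ℝ) ^ 2) := by gcongr
      _ = C0 ^ 1 * (N : ℝ) ^ 3 := by ring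
      _ ≤ C0 ^ 6 * (N : ℝ) ^ 12 := by gcongr <;> first | assumption | norm_num
  refine ⟨one_le_mul_of_one_le_of_one_le (one_le_mul_of_one_le_of_one_le cd b1) p1,
    fun n hn => (hd n).trans ?_⟩
  have h2 : (n : ℝ) ≤ 730 * C0 ^ 6 * (N : ℝ) ^ 12 := by
    have : (n : ℝ) ≤ N * M + 729 * (M : ℝ) ^ 6 := by exact_mod_cast hn
    linarith
  have h3 := Real.rpow_le_rpow (Nat.cast_nonneg n) h2 (by positivity : 0 ≤ δ / 12)
  rw [Real.mul_rpow (by positivity) (by positivity), ← Real.rpow_natCast (N : ℝ) 12,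
    ← Real.rpow_mul n0.le, show ((12 : ℕ) : ℝ) * (δ / 12) = δ by push_cast; ring] at h3
  have h4 : (730 * C0 ^ 6) ^ (δ / 12) ≤ 730 * C0 ^ 6 :=
    (Real.rpow_le_rpow_of_exponent_le b1 (by linarith)).trans_eq (Real.rpow_one _)
  rw [mul_assoc]
  exact mul_le_mul_of_nonneg_left (h3.trans (by gcongr)) (by linarith)

lemma W2_nonneg_BThree (N M : ℕ) {Δ B X x : ℝ} (h1 : 0 ≤ Δ) (h2 : 0 ≤ B) (h3 : 0 ≤ X)
    (h4 : 0 ≤ x) : 0 ≤ W2 N M Δ B X x := by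
  have : 0 ≤ R2 N M Δ := by unfold R2; positivity
  unfold W2
  positivity

lemma root_BThree {N T M : ℕ} (hT : N ^ 6 < T ^ 5) (h : 8 * T ≤ N * M) :
    T ≤ M ^ 6 := by
  by_contra hc
  have h1 : T ^ 6 ≤ (N * M) ^ 6 := Nat.pow_le_pow_left (by omega) 6
  have h2 : N ^ 6 * M ^ 6 < T ^ 5 * T :=
    Nat.mul_lt_mul'' hT (not_le.1 hc)
  rw [mul_pow] at h1
  rw [← pow_succ] at h2
  exact absurd h1 (not_le.2 h2)

lemma core_BThree (hS : SetupStmt) (hH : HuxStmt) (hC : CubStmt) (hQ : Q2Stmt) (hP : PtStmt)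
    (hN : Num2Stmt) {δ : ℝ} (hδ : 0 < δ) (hδ1 : δ ≤ 1) : ∃ K : ℝ, 0 < K ∧ ∀ N T : ℕ, 1 ≤ N →
    N ≤ T → T ^ 44 ≤ N ^ 53 → N ^ 6 < T ^ 5 → ∀ b : ℕ → ℂ, (∀ n, ‖b n‖ ≤ 1) → ∀ V : ℝ, 0 < V →
    Mass N b (Icc 0 (T : ℤ)) V ≤
      K * (N : ℝ) ^ (6 * δ) * ((N : ℝ) ^ 2 + √T * (N : ℝ) ^ 3 / V ^ 2) := by
  obtain ⟨C0, c0, hS⟩ := hS _ hδ
  obtain ⟨CD, cd, hD⟩ := div_BThree hδ hδ1 c0
  obtain ⟨C1, c1, hP⟩ := hP
  obtain ⟨CQ, cq, hQ⟩ := hQ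
  have c0' : 0 < C0 := by linarith
  obtain ⟨C, a0, a1, a2, a3, a4⟩ : ∃ C : ℝ, C0 ≤ C ∧ C1 + 8 * C0 ≤ C ∧ 32 * CQ ≤ C ∧
      32 * C0 ^ 2 ≤ C ∧ CD ≤ C := by
    have := sq_nonneg C0
    exact ⟨32 * (CQ + C0 ^ 2) + C1 + 8 * C0 + CD, by linarith, by linarith, by linarith,
      by linarith, by linarith⟩
  obtain ⟨K0, k0, hN⟩ := hN _ C hδ (c0.trans a0)
  refine ⟨8 * C0 + 2 * (K0 + 4 * C0), by positivity, fun N T hN1 hNT hT hT' b hb V hV => ?_⟩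
  have hT2 : T ≤ N ^ 2 := by
    by_contra h
    have h1 : (N ^ 2) ^ 44 < T ^ 44 := Nat.pow_lt_pow_left (not_le.1 h) (by norm_num)
    have h2 : N ^ 53 ≤ (N ^ 2) ^ 44 := by
      rw [← pow_mul]
      exact Nat.pow_le_pow_right hN1 (by norm_num)
    omega
  obtain ⟨M, -, m1, m2, -, -, m5, m6⟩ := hS N T hN1 hNT hT2
  have m3 := hD N T M hN1 hT2 m2
  have m7 := m6 b hb
  have hM : 1 ≤ M := by
    rcases Nat.eq_zero_or_pos M with rfl | h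
    · omega
    · exact h
  have n1 : (1 : ℝ) ≤ N := by exact_mod_cast hN1
  have n0 : (0 : ℝ) < N := by linarith
  have t1 : (1 : ℝ) ≤ T := by exact_mod_cast hN1.trans hNT
  have t0 : (0 : ℝ) < T := by linarith
  have p1 : 1 ≤ (N : ℝ) ^ δ := Real.one_le_rpow n1 hδ.le
  have p2 : (N : ℝ) ^ δ ≤ (N : ℝ) ^ (6 * δ) := Real.rpow_le_rpow_of_exponent_le n1 (by linarith)
  obtain ⟨x, g1, g2⟩ : ∃ x : ℝ, 1 ≤ x ∧ x ^ 36 = M :=
    ⟨(M : ℝ) ^ (((36 : ℕ) : ℝ)⁻¹), Real.one_le_rpow (by exact_mod_cast hM) (by positivity),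
      Real.rpow_inv_natCast_pow (Nat.cast_nonneg _) (by norm_num)⟩
  have g0 : 0 < x := by linarith
  have g3 : x ^ 216 = (M : ℝ) ^ 6 := by rw [← g2, ← pow_mul]
  have g4 : (T : ℝ) ≤ x ^ 216 := by
    rw [g3]
    exact_mod_cast root_BThree hT' m1
  have g5 : 729 * x ^ 216 ≤ ((N * M + 729 * M ^ 6 : ℕ) : ℝ) := by
    rw [g3]
    push_cast
    exact le_add_of_nonneg_left (by positivity)
  have eI : Io (2 * T) = Ioo (-(2 * T : ℤ)) (2 * T) := by simp [Io]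
  have hQ' := fun B X ν => hQ N M T _ _ B X x ν hN1 hM (hN1.trans hNT) g1 g2.ge g4
    (Nat.le_add_right _ _) g5 m3
  rw [eI] at hQ'
  have m4 := m3.1
  clear m3 hD hQ
  have hP' := fun v hv => hP N M (2 * T) hN1 (by omega) (by omega) b hb 0 v hv
  simp only [Nat.cast_mul, Nat.cast_ofNat, zero_add] at hP'
  have hN' := fun B X => hN N T M (CD * (N : ℝ) ^ δ) B X x hN1 hNT hT g1 g2
  clear hN hS hP
  generalize (N : ℝ) ^ δ = P at *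
  generalize (N : ℝ) ^ (6 * δ) = R at *
  have s0 : 0 < √(T : ℝ) := Real.sqrt_pos.2 t0
  have u0 : 0 < √(T : ℝ) * N := by positivity
  have v0 : 0 < √(√(T : ℝ) * N) := Real.sqrt_pos.2 u0
  have v2 : √(√(T : ℝ) * N) ^ 2 = √(T : ℝ) * N := Real.sq_sqrt u0.le
  have v4 : √(√(T : ℝ) * N) ^ 4 = T * (N : ℝ) ^ 2 := by
    rw [show (4 : ℕ) = 2 * 2 from rfl, pow_mul, v2, mul_pow, Real.sq_sqrt t0.le]
  generalize √(√(T : ℝ) * N) = V1 at v0 v2 v4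
  have hY := hH N M b _ _ _ V1 hN1 hb (by positivity) (by positivity) v0 m5 m7
  have hY' : Mass N b (Ioo (-(2 * T : ℤ)) (2 * T)) V1 ≤ 8 * C0 * P * (N : ℝ) ^ 2 := by
    rw [v4, mul_div_assoc, mul_div_assoc, div_self (by positivity)] at hY
    nlinarith [mul_nonneg (mul_nonneg c0'.le (sq_nonneg (N : ℝ))) (sub_nonneg.2 p1)]
  have o0 : ∀ t ∈ Ioo (-(2 * T : ℤ)) (2 * T), 0 ≤ (2 * (T : ℝ) - |(t : ℝ)|) / (2 * T) := by
    intro t ht
    rw [mem_Ioo] at ht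
    have h1 : |t| ≤ 2 * T := abs_le.2 ⟨ht.1.le, ht.2.le⟩
    have h2 : |(t : ℝ)| ≤ 2 * T := by exact_mod_cast h1
    exact div_nonneg (sub_nonneg.2 h2) (by positivity)
  have o1 : ∀ t ∈ Ioo (-(2 * T : ℤ)) (2 * T), (2 * (T : ℝ) - |(t : ℝ)|) / (2 * T) ≤ 1 := by
    intro t _
    rw [div_le_one (by positivity)]
    linarith [abs_nonneg (t : ℝ)]
  have o2 : ∀ t ∈ Icc 0 (T : ℤ), 1 / 2 ≤ (2 * (T : ℝ) - |(t : ℝ)|) / (2 * T) := by
    intro t ht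
    rw [mem_Icc] at ht
    have h1 : |t| ≤ T := abs_le.2 ⟨by omega, ht.2⟩
    have h2 : |(t : ℝ)| ≤ T := by exact_mod_cast h1
    rw [le_div_iff₀ (by positivity)]
    linarith
  have hsub : Icc 0 (T : ℤ) ⊆ Ioo (-(2 * T : ℤ)) (2 * T) := by
    intro t ht
    rw [mem_Icc] at ht
    rw [mem_Ioo]
    omega
  have e1 := split_BOne hsub (fun t => ‖DP N b t‖)
    (fun t => (2 * (T : ℝ) - |(t : ℝ)|) / (2 * T)) V1 hV o0 o2
  have e2 := fun v => ft_BOne _ (fun t => ‖DP N b t‖)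
    (fun t => (2 * (T : ℝ) - |(t : ℝ)|) / (2 * T)) V1 v o0 o1
  set ν : ℤ → ℝ := fun t => if ‖DP N b t‖ < V1 then
    (2 * (T : ℝ) - |(t : ℝ)|) / (2 * T) * ‖DP N b t‖ ^ 2 else 0 with hν
  have hν' : ∀ t ∈ Ioo (-(2 * T : ℤ)) (2 * T),
      0 ≤ ν t ∧ ν t ≤ √(T : ℝ) * N ∧ ν t ≤ ‖DP N b t‖ ^ 2 := by
    intro t ht
    simp only [hν]
    split_ifs with h
    · have h1 := mul_le_of_le_one_left (sq_nonneg ‖DP N b t‖) (o1 t ht)
      refine ⟨mul_nonneg (o0 t ht) (sq_nonneg _), h1.trans ?_, h1⟩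
      rw [← v2]
      exact pow_le_pow_left₀ (norm_nonneg _) h.le 2
    · exact ⟨le_rfl, u0.le, sq_nonneg _⟩
  obtain ⟨X, hX⟩ : ∃ X, X = ∑ t ∈ Ioo (-(2 * T : ℤ)) (2 * T), ν t * ‖DP N b t‖ ^ 2 := ⟨_, rfl⟩
  have x0 : 0 ≤ X := hX ▸ sum_nonneg fun t ht => mul_nonneg (hν' t ht).1 (sq_nonneg _)
  have x1 : X ≤ (K0 + 4 * C0) * R * (√(T : ℝ) * (N : ℝ) ^ 3) := by
    have w0 : 0 < √(T : ℝ) * (N : ℝ) ^ 3 := by positivity
    have r1 : 1 ≤ R := p1.trans p2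
    by_cases h : 4 * (N : ℝ) * (C0 * N) * (√(T : ℝ) * N) ≤ X
    · have q1 := hC N M b _ _ _ _ X ν hN1 hb (by positivity) (by positivity) m5 m7 hν' hX h
      have b0 : 0 ≤ (C1 + 8 * C0) * P * (N : ℝ) ^ 2 := by positivity
      have q3 := hN' _ X (m2.trans (by gcongr)) m4 (by gcongr) b0 (by gcongr) x0 (by
        rw [or_iff_not_imp_left, not_le]
        intro hx
        have q2 := hQ' _ X ν b0 (fun v hv => by
            have h1 := e2 v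
            have h2 := hP' v hv
            have h3 := rho_nonneg N M v
            have h4 : 0 ≤ C1 * (N : ℝ) ^ 2 * (1 + rho N M v) * (P - 1) :=
              mul_nonneg (by positivity) (sub_nonneg.2 p1)
            have h5 : 0 ≤ 8 * C0 * P * (N : ℝ) ^ 2 * rho N M v := by positivity
            unfold Mass at hY'
            nlinarith)
          (le_of_le_of_eq (sum_le_sum fun t ht => (sq (ν t)).trans_le
            (mul_le_mul_of_nonneg_left (hν' t ht).2.2 (hν' t ht).1)) hX.symm) (fun t ht => by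
            rw [abs_of_nonneg (hν' t ht).1]
            refine (hν' t ht).2.1.trans ?_
            rw [le_div_iff₀ (by positivity)]
            refine Real.le_sqrt_of_sq_le (le_trans (le_of_eq ?_) hx.le)
            rw [mul_pow, mul_pow, Real.sq_sqrt t0.le]
            ring)
        refine q1.trans ?_
        have w1 := W2_nonneg_BThree N M (zero_le_one.trans m4) b0 x0 g0.le
        generalize W2 N M (CD * P) ((C1 + 8 * C0) * P * (N : ℝ) ^ 2) X x = W at q2 w1 ⊢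
        have w2 : 0 ≤ P * (T * (N : ℝ) ^ 3) * X := by positivity
        have w3 : 32 * (‖Q3 N M (Ioo (-(2 * T : ℤ)) (2 * T)) ν‖ +
            C0 * N * X * (C0 * P * (T * (N : ℝ) ^ 2))) ≤
            C * ((N : ℝ) ^ 2 * W + P * (T * (N : ℝ) ^ 3) * X) := by
          have y1 := mul_le_mul_of_nonneg_right a2 (mul_nonneg (sq_nonneg (N : ℝ)) w1)
          have y2 := mul_le_mul_of_nonneg_right a3 w2
          nlinarith
        have w4 := mul_le_mul_of_nonneg_left w3 (pow_nonneg n0.le 3)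
        nlinarith)
      have : 0 ≤ 4 * C0 * R * (√(T : ℝ) * (N : ℝ) ^ 3) := by positivity
      nlinarith
    · have y1 : 0 ≤ K0 * R * (√(T : ℝ) * (N : ℝ) ^ 3) := by positivity
      have y2 : 0 ≤ 4 * C0 * (√(T : ℝ) * (N : ℝ) ^ 3) * (R - 1) :=
        mul_nonneg (by positivity) (sub_nonneg.2 r1)
      nlinarith [not_le.1 h]
  unfold Mass at hY' ⊢
  refine e1.trans ?_
  simp only [hν] at hX
  rw [← hX]
  have z1 : 2 * X / V ^ 2 ≤ 2 * (K0 + 4 * C0) * R * (√(T : ℝ) * (N : ℝ) ^ 3 / V ^ 2) := by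
    rw [← mul_div_assoc]
    exact div_le_div_of_nonneg_right (by linarith) (by positivity)
  have z2 : 8 * C0 * P * (N : ℝ) ^ 2 ≤ 8 * C0 * R * (N : ℝ) ^ 2 := by gcongr
  have r0 : 0 < R := by linarith
  have z3 : 0 ≤ 8 * C0 * R * (√(T : ℝ) * (N : ℝ) ^ 3 / V ^ 2) := by positivity
  have z4 : 0 ≤ 2 * (K0 + 4 * C0) * R * (N : ℝ) ^ 2 := by positivity
  nlinarith

theorem b3_stmt (hS : SetupStmt) (hH : HuxStmt) (hC : CubStmt) (hQ : Q2Stmt) (hP : PtStmt)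
    (hN : Num2Stmt) (h1 : B1Stmt) : B3Stmt := by
  intro ε hε
  have hδ : 0 < min ε 6 / 6 := by positivity
  obtain ⟨K1, k1, h1⟩ := h1 ε hε
  obtain ⟨K2, k2, h2⟩ := core_BThree hS hH hC hQ hP hN hδ (by linarith [min_le_right ε 6])
  refine ⟨K1 + K2, by positivity, fun N T hN1 hNT hT b hb V hV => ?_⟩
  have n1 : (1 : ℝ) ≤ N := by exact_mod_cast hN1
  rcases le_or_gt (T ^ 5) (N ^ 6) with h | h
  · refine (h1 N T hN1 hNT h b hb V hV).trans ?_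
    gcongr
    linarith
  · refine (h2 N T hN1 hNT hT h b hb V hV).trans ?_
    gcongr
    · linarith
    · linarith [min_le_left ε 6]

end Pool.Agent.MP_2a1f0e_nt.GM2
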