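import Pool.Agent.MP_2a1f0e_nt.GM2.Defs

set_option autoImplicit false

open Finset

namespace Pool.Agent.MP_2a1f0e_nt.GM2

open GM

theorem n2_le_Bil (D : Finset ℤ) (u u' : ℤ → ℂ) {c : ℝ} (hc : 0 ≤ c)
    (h : ∀ ρ ∈ D, ‖u' ρ‖ ≤ c * ‖u ρ‖) : √(N2 D u') ≤ c * √(N2 D u) := by
  rw [← Real.sqrt_sq hc, ← Real.sqrt_mul (sq_nonneg c)]
  refine Real.sqrt_le_sqrt ?_
  rw [N2, N2, mul_sum]
  refine sum_le_sum fun ρ hρ => ?_
  rw [← mul_pow]
  exact pow_le_pow_left₀ (norm_nonneg _) (h ρ hρ) 2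

theorem lev_Bil {x a : ℝ} {J : ℕ} (h : x ≤ 2 ^ J * a) :
    ∃ i ≤ J, x ≤ 2 ^ i * a ∧ (i ≠ 0 → 2 ^ i * a < 2 * x) := by
  classical
  have hx : ∃ i : ℕ, x ≤ 2 ^ i * a := ⟨J, h⟩
  refine ⟨Nat.find hx, Nat.find_min' hx h, Nat.find_spec hx, fun h0 => ?_⟩
  obtain ⟨k, hk⟩ := Nat.exists_eq_succ_of_ne_zero h0
  have := not_le.1 (Nat.find_min hx (hk ▸ Nat.lt_succ_self k))
  rw [hk, pow_succ]
  linarith

theorem bil_stmt : BilStmt := by
  intro D u v s₁ s₂ Γ K lam S J hK hl hS hB h₁ h₂ hJ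
  classical
  have hJ' : S ≤ 2 ^ J * (lam / S) := by
    rw [← mul_div_assoc, le_div_iff₀ hS, ← sq]
    exact hJ
  choose! lev hle hup hlo using fun ρ (hρ : ρ ∈ D) => lev_Bil ((h₁ ρ hρ).trans hJ')
  let U : ℕ → ℤ → ℂ := fun i ρ => if lev ρ = i then u ρ * s₁ ρ else 0
  let V : ℕ → ℤ → ℂ := fun i ρ => if ‖s₂ ρ‖ ≤ 2 * S / 2 ^ i then v ρ * s₂ ρ else 0
  have e : Bil D (fun ρ => u ρ * s₁ ρ) (fun ρ => v ρ * s₂ ρ) Γ =
      ∑ i ∈ range (J + 1), Bil D (U i) (V i) Γ + ∑ ρ₁ ∈ D, ∑ ρ₂ ∈ D,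
        if ‖s₂ ρ₂‖ ≤ 2 * S / 2 ^ lev ρ₁ then 0 else u ρ₁ * s₁ ρ₁ * (v ρ₂ * s₂ ρ₂) * Γ ρ₁ ρ₂ := by
    simp only [Bil]
    rw [sum_comm (s := range (J + 1)), ← sum_add_distrib]
    refine sum_congr rfl fun ρ₁ hρ => ?_
    rw [sum_comm (s := range (J + 1)), ← sum_add_distrib]
    refine sum_congr rfl fun ρ₂ _ => ?_
    rw [sum_eq_single (lev ρ₁) (fun i _ hi => by simp [U, hi.symm])
      fun h => absurd (mem_range.2 (Nat.lt_succ_of_le (hle ρ₁ hρ))) h]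
    simp only [U, V, if_true]
    split_ifs <;> simp
  rw [e]
  refine norm_add_le_of_le ?_ ?_
  · refine (norm_sum_le_of_le _ (n := fun _ => 2 * lam * K * √(N2 D u) * √(N2 D v))
      fun i _ => (hB _ _).trans ?_).trans_eq ?_
    · have a₁ : √(N2 D (U i)) ≤ 2 ^ i * (lam / S) * √(N2 D u) :=
        n2_le_Bil D _ _ (by positivity) fun ρ hρ => by
          simp only [U]
          split_ifs with h
          · rw [norm_mul, mul_comm, ← h]
            exact mul_le_mul_of_nonneg_right (hup ρ hρ) (norm_nonneg _)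
          · rw [norm_zero]
            positivity
      have a₂ : √(N2 D (V i)) ≤ 2 * S / 2 ^ i * √(N2 D v) :=
        n2_le_Bil D _ _ (by positivity) fun ρ _ => by
          simp only [V]
          split_ifs with h
          · rw [norm_mul, mul_comm]
            exact mul_le_mul_of_nonneg_right h (norm_nonneg _)
          · rw [norm_zero]
            positivity
      refine (mul_le_mul (mul_le_mul_of_nonneg_left a₁ hK) a₂ (Real.sqrt_nonneg _)
        (by positivity)).trans_eq ?_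
      field_simp
    · rw [sum_const, card_range, nsmul_eq_mul]
      push_cast
      ring
  · refine norm_sum_le_of_le _ fun ρ₁ hρ₁ => norm_sum_le_of_le _ fun ρ₂ hρ₂ => ?_
    by_cases h : ‖s₂ ρ₂‖ ≤ 2 * S / 2 ^ lev ρ₁
    · rw [if_pos h, norm_zero]
      split_ifs <;> positivity
    · have h0 : lev ρ₁ ≠ 0 := fun h0 => h (by
        rw [h0, pow_zero, div_one]
        linarith [h₂ ρ₂ hρ₂])
      have h3 := mul_lt_mul'' (hlo ρ₁ hρ₁ h0) (not_le.1 h) (by positivity) (by positivity)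
      have h4 : 2 ^ lev ρ₁ * (lam / S) * (2 * S / 2 ^ lev ρ₁) = 2 * lam := by field_simp
      rw [if_neg h, if_pos (by linarith)]
      simp only [norm_mul]
      exact le_of_eq (by ring)

end Pool.Agent.MP_2a1f0e_nt.GM2
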