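import Pool.Agent.MP_2a1f0e_nt.GM2.Defs

set_option autoImplicit false

open Finset

namespace Pool.Agent.MP_2a1f0e_nt.GM2

open GM

lemma Hf_le_Blk2 (s : Finset ℤ) (g : ℤ → ℝ) {M₁ M₂ M₃ : ℕ} {S₁ S₂ S₃ : Finset ℕ} (h1 : Dy M₁ S₁)
    (h2 : Dy M₂ S₂) (h3 : Dy M₃ S₃) {γ : ℕ → ℂ} (hγ : ∀ n ∈ S₃, ‖γ n‖ ≤ 1) {A : ℝ}
    (hA : ∀ v, ‖FT s g v‖ ≤ A) (z w : ℝ) :
    Hf s g S₁ S₂ S₃ γ z w ≤ M₁ * (M₂ * (A * (M₃ * (A * A)))) := by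
  have A0 : 0 ≤ A := (norm_nonneg _).trans (hA 0)
  have key : ∀ {M : ℕ} {S : Finset ℕ}, Dy M S → ∀ (f : ℕ → ℝ) (Y : ℝ), 0 ≤ Y →
      (∀ n ∈ S, f n ≤ Y) → ∑ n ∈ S, f n ≤ M * Y := fun h f Y Y0 hf => by
    refine (sum_le_card_nsmul _ _ _ hf).trans ?_
    rw [nsmul_eq_mul]
    exact mul_le_mul_of_nonneg_right (by exact_mod_cast h.card_le) Y0
  refine key h1 _ _ (by positivity) fun n₁ _ => key h2 _ _ (by positivity) fun n₂ _ => ?_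
  refine mul_le_mul (hA _) ((norm_sum_le _ _).trans (key h3 _ _ (by positivity) fun n hn => ?_))
    (norm_nonneg _) A0
  rw [norm_mul, norm_mul]
  refine mul_le_mul ?_ (hA _) (norm_nonneg _) A0
  exact (mul_le_of_le_one_left (norm_nonneg _) (hγ n hn)).trans (hA _)

lemma num_Blk2 {x Δ Z K N a b c : ℝ} (hx : 1 ≤ x) (hΔ : 1 ≤ Δ) (hZ : 0 ≤ Z) (hN : 1 ≤ N)
    (ha : 1 ≤ a) (hb : 1 ≤ b) (hac : a ≤ c) (hbc : b ≤ c) (hc : c ≤ x ^ 36) :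
    c ^ 2 / (a * b) * (4 * (K * (a * b / c) * (Δ ^ 4 * x ^ 71 * Z)) / (N * c) +
      144 * (a / c * (b / c)) * (27 * (a * b * c) * (x ^ 18 * Z)) / (N * c) ^ 2) ≤
      (4 * K + 3888) * (Δ ^ 4 * x ^ 71 * Z / N) := by
  have a0 : 0 < a := by linarith
  have b0 : 0 < b := by linarith
  have c0 : 0 < c := by linarith
  have N0 : 0 < N := by linarith
  have e : c ^ 2 / (a * b) * (4 * (K * (a * b / c) * (Δ ^ 4 * x ^ 71 * Z)) / (N * c) +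
      144 * (a / c * (b / c)) * (27 * (a * b * c) * (x ^ 18 * Z)) / (N * c) ^ 2) =
      4 * K * (Δ ^ 4 * x ^ 71 * Z / N) + 3888 * ((a / c * b / N * x ^ 18) * Z / N) := by
    field_simp
    ring
  have h1 : a / c * b / N ≤ x ^ 36 :=
    (div_le_self (by positivity) hN).trans
      ((mul_le_of_le_one_left b0.le ((div_le_one c0).2 hac)).trans (hbc.trans hc))
  have h2 : a / c * b / N * x ^ 18 ≤ Δ ^ 4 * x ^ 71 :=
    calc a / c * b / N * x ^ 18 ≤ x ^ 36 * x ^ 18 := by gcongr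
      _ = x ^ 54 := by ring
      _ ≤ x ^ 71 := pow_le_pow_right₀ hx (by norm_num)
      _ ≤ Δ ^ 4 * x ^ 71 := le_mul_of_one_le_left (by positivity) (one_le_pow₀ hΔ)
  rw [e, add_mul]
  gcongr

theorem blk2_stmt (hR : RedStmt) (hS : ShearStmt) (hG : SegStmt) : Blk2Stmt := by
  obtain ⟨CR, CR0, hR⟩ := hR
  obtain ⟨CG, CG0, hG⟩ := hG
  refine ⟨CR * (4 * (CG + 1) + 3888), by positivity, ?_⟩
  intro x Δ X e₁ e₂ e₃ N L M₁ M₂ M₃ Xd S₁ S₂ S₃ g hx hN h1 h2 h3 h13 h23 hM s1 s2 s3 hL hXd hD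
    hsup hX hg hF
  have X0 : 0 ≤ X := (sum_nonneg fun _ _ => sq_nonneg _).trans hX
  have a1 : (1 : ℝ) ≤ M₁ := by exact_mod_cast h1.1
  have a2 : (1 : ℝ) ≤ M₂ := by exact_mod_cast h2.1
  have a3 : (1 : ℝ) ≤ M₃ := by exact_mod_cast h3.1
  have aN : (1 : ℝ) ≤ N := by exact_mod_cast hN
  have b1 : (M₁ : ℝ) ≤ M₃ := by exact_mod_cast h13
  have b2 : (M₂ : ℝ) ≤ M₃ := by exact_mod_cast h23
  have hΔ : 1 ≤ Δ := hD.1
  have sq : √X * √X = X := Real.mul_self_sqrt X0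
  have key := hR N M₁ M₂ M₃ S₁ S₂ S₃ e₁ e₂ e₃
    (4 * ((CG + 1) * ((M₁ : ℝ) * M₂ / M₃) * (Δ ^ 4 * x ^ 71 * (X * √X))) / (N * M₃) +
      144 * ((M₁ : ℝ) / M₃ * (M₂ / M₃)) * (27 * (M₁ * M₂ * M₃) * (x ^ 18 * (X * √X))) /
        (N * M₃) ^ 2) (Io L) g h1 h2 h3 fun γ hγ => by
    refine hS _ _ _ _ _ e₁ e₂ e₃ (Hf (Io L) g S₁ S₂ S₃ γ) (by positivity)
      (div_le_one_of_le₀ b1 (by positivity)) (by positivity)
      (div_le_one_of_le₀ b2 (by positivity)) (by positivity) s1 s2 s3 (by positivity)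
      (continuousOn_Hf _ g h1.one_le h2.one_le h3.one_le γ continuousOn_fst continuousOn_snd
        (fun p hp => hp.1) fun p hp => hp.2) (Hf_nonneg _ g _ _ _ γ) (fun z w => ?_)
      fun κ σ z₀ z₁ hl => ?_
    · refine (Hf_le_Blk2 _ g h1 h2 h3 hγ hF z w).trans_eq ?_
      linear_combination (27 * (M₁ * M₂ * M₃) * x ^ 18 * √X) * sq
    · refine (abs_le_of_sq_le_sq' ((hG x Δ X _ _ κ σ z₀ z₁ L M₁ M₂ M₃ Xd S₁ S₂ S₃ γ g hx h1 h2 h3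
        (b1.trans hM) (b2.trans hM) hM hL hXd hD hsup hX hg hF hγ hl).trans ?_)
        (by positivity)).2
      have e : ((CG + 1) * ((M₁ : ℝ) * M₂ / M₃) * (Δ ^ 4 * x ^ 71 * (X * √X))) ^ 2 =
          (CG + 1) ^ 2 * (M₁ * M₂ * ((M₁ : ℝ) / M₃ * (M₂ / M₃))) *
            (Δ ^ 8 * x ^ 142 * (X ^ 2 * (√X * √X))) := by ring
      rw [e, sq, ← pow_succ]
      gcongr
      nlinarith
  refine key.trans ?_
  rw [mul_assoc, mul_assoc CR]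
  exact mul_le_mul_of_nonneg_left
    (num_Blk2 hx hΔ (by positivity) aN a1 a2 b1 b2 hM) CR0.le

end Pool.Agent.MP_2a1f0e_nt.GM2
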