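import Pool.Agent.MP_2a1f0e_nt.GM2.Defs
import Pool.Agent.MP_2a1f0e_nt.GM.Par
import Pool.Agent.MP_2a1f0e_nt.GM.Bes
set_option autoImplicit false
open Finset
namespace Pool.Agent.MP_2a1f0e_nt.GM2
open GM

/-- the square of a trigonometric polynomial -/
noncomputable def P_CV (D : Finset ℤ) (c : ℤ → ℂ) (θ : ℝ) : ℝ :=
  ‖∑ t ∈ D, c t * Complex.exp (Complex.I * ((t : ℝ) : ℂ) * (θ : ℂ))‖ ^ 2

lemma cont_CV (D : Finset ℤ) (c : ℤ → ℂ) : Continuous (P_CV D c) := by
  unfold P_CV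
  fun_prop

lemma orth_CV (k : ℤ) (α : ℝ) :
    ∫ θ in α..(α + 4 * Real.pi), Complex.exp (Complex.I * (k : ℂ) * (θ : ℂ)) =
      if k = 0 then (4 * Real.pi : ℂ) else 0 := by
  split_ifs with h
  · subst h
    simp
  · rw [integral_exp_mul_complex (mul_ne_zero Complex.I_ne_zero (Int.cast_ne_zero.2 h))]
    have e : Complex.I * (k : ℂ) * ((α + 4 * Real.pi : ℝ) : ℂ) =
        Complex.I * (k : ℂ) * (α : ℂ) + (2 * k : ℤ) * (2 * Real.pi * Complex.I) := by
      push_cast
      ring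
    rw [e, Complex.exp_add, Complex.exp_int_mul_two_pi_mul_I, mul_one, sub_self, zero_div]

lemma sq_CV (D : Finset ℤ) (c : ℤ → ℂ) (θ : ℝ) : ((P_CV D c θ : ℝ) : ℂ) =
    ∑ t ∈ D, ∑ u ∈ D, (c t * (starRingEnd ℂ) (c u)) *
      Complex.exp (Complex.I * ((t - u : ℤ) : ℂ) * (θ : ℂ)) := by
  rw [P_CV, Complex.ofReal_pow, ← Complex.mul_conj', map_sum, sum_mul_sum]
  refine sum_congr rfl fun t _ => sum_congr rfl fun u _ => ?_
  rw [map_mul, ← Complex.exp_conj, map_mul, map_mul, Complex.conj_I,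
    Complex.conj_ofReal, Complex.conj_ofReal, mul_mul_mul_comm, ← Complex.exp_add]
  congr 2
  push_cast
  ring

lemma pars_CV (D : Finset ℤ) (c : ℤ → ℂ) (α : ℝ) :
    ∫ θ in α..(α + 4 * Real.pi), P_CV D c θ = 4 * Real.pi * N2 D c := by
  apply Complex.ofReal_injective
  rw [← intervalIntegral.integral_ofReal, N2]
  simp only [sq_CV]
  rw [intervalIntegral.integral_finsetSum fun t _ =>
    Continuous.intervalIntegrable (by fun_prop) _ _]
  push_cast
  rw [mul_sum]
  refine sum_congr rfl fun t ht => ?_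
  rw [intervalIntegral.integral_finsetSum fun u _ =>
    Continuous.intervalIntegrable (by fun_prop) _ _, sum_eq_single_of_mem t ht]
  · rw [intervalIntegral.integral_const_mul, ← Int.cast_sub, orth_CV, if_pos (sub_self t),
      Complex.mul_conj']
    ring
  · intro u _ hu
    rw [intervalIntegral.integral_const_mul, ← Int.cast_sub, orth_CV,
      if_neg (sub_ne_zero.2 hu.symm), mul_zero]

lemma abs_CV (D : Finset ℤ) (c : ℤ → ℂ) {α β : ℝ} (h : |β - α| ≤ 12) :
    |∫ θ in α..β, P_CV D c θ| ≤ 4 * Real.pi * N2 D c := by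
  wlog hab : α ≤ β generalizing α β
  · rw [intervalIntegral.integral_symm, abs_neg]
    exact this (abs_sub_comm α β ▸ h) (le_of_not_ge hab)
  rw [abs_of_nonneg (intervalIntegral.integral_nonneg (f := P_CV D c) hab fun _ _ => sq_nonneg _),
    ← pars_CV D c α]
  exact intervalIntegral.integral_mono_interval le_rfl hab
    (by linarith [(abs_le.1 h).2, Real.pi_gt_three])
    (Filter.Eventually.of_forall fun θ => sq_nonneg _) ((cont_CV D c).intervalIntegrable _ _)

lemma sub_CV (D : Finset ℤ) (c : ℤ → ℂ) {ψ ψ' : ℝ → ℝ} {z₀ z₁ ε m : ℝ} (hz : z₀ ≤ z₁)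
    (h1 : ∀ z ∈ Set.Icc z₀ z₁, HasDerivAt ψ (ψ' z) z) (h2 : ContinuousOn ψ' (Set.Icc z₀ z₁))
    (hε : |ε| ≤ 1) (hm : 0 ≤ m) (h3 : ∀ z ∈ Set.Icc z₀ z₁, 1 ≤ m * (ε * ψ' z))
    (h4 : |ψ z₁ - ψ z₀| ≤ 12) :
    ∫ z in z₀..z₁, P_CV D c (ψ z) ≤ 4 * Real.pi * m * N2 D c := by
  have hψ : ContinuousOn (P_CV D c ∘ ψ) (Set.Icc z₀ z₁) :=
    (cont_CV D c).comp_continuousOn fun z hz => (h1 z hz).continuousAt.continuousWithinAt
  have e := intervalIntegral.integral_comp_mul_deriv (Set.uIcc_of_le hz ▸ h1)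
    (Set.uIcc_of_le hz ▸ h2) (cont_CV D c)
  have h5 : ∫ z in z₀..z₁, P_CV D c (ψ z) ≤
      ∫ z in z₀..z₁, m * ε * ((P_CV D c ∘ ψ) z * ψ' z) := by
    refine intervalIntegral.integral_mono_on hz (hψ.intervalIntegrable_of_Icc hz)
      ((continuousOn_const.mul (hψ.mul h2)).intervalIntegrable_of_Icc hz) fun z hz => ?_
    have := le_mul_of_one_le_right (show 0 ≤ P_CV D c (ψ z) from sq_nonneg _) (h3 z hz)
    simp only [Function.comp_apply]
    linarith
  rw [intervalIntegral.integral_const_mul, e, mul_assoc] at h5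
  have h6 := (le_abs_self _).trans ((abs_mul _ _).le.trans
    (mul_le_mul hε (abs_CV D c h4) (abs_nonneg _) zero_le_one))
  have := mul_le_mul_of_nonneg_left h6 hm
  linarith

lemma log_CV {a x y : ℝ} (ha : 0 < a) (hx : x ∈ Set.Icc (a / 6) (6 * a))
    (hy : y ∈ Set.Icc (a / 6) (6 * a)) : Real.log x - Real.log y ≤ 6 := by
  have hx0 : 0 < x := by linarith [hx.1]
  have hy0 : 0 < y := by linarith [hy.1]
  have he : (36 : ℝ) ≤ Real.exp 6 := by
    have := Real.sum_le_exp_of_nonneg (x := 6) (by norm_num) 4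
    simp only [sum_range_succ, Nat.factorial] at this
    norm_num at this
    linarith
  rw [← Real.log_div hx0.ne' hy0.ne', Real.log_le_iff_le_exp (div_pos hx0 hy0)]
  refine le_trans ((div_le_iff₀ hy0).2 ?_) he
  linarith [hx.2, hy.1]

theorem cv_stmt : CVStmt := by
  refine ⟨4 * Real.pi * 72, by positivity, fun a b κ σ z₀ z₁ hL D c => ?_⟩
  have hp := fun z (hz : z ∈ Set.Icc z₀ z₁) => hL.pos hz
  obtain ⟨a0, a1, b0, b1, hσ, hκ, hz, hm⟩ := hL
  have m0 := hm z₀ ⟨le_rfl, hz⟩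
  have m1 := hm z₁ ⟨hz, le_rfl⟩
  have l1 := log_CV a0 m0.1 m1.1
  have l2 := log_CV a0 m1.1 m0.1
  have l3 := log_CV b0 m0.2 m1.2
  have l4 := log_CV b0 m1.2 m0.2
  have hw : ∀ z, HasDerivAt (fun z => κ + σ * z) σ z := fun z => by
    simpa using ((hasDerivAt_id z).const_mul σ).const_add κ
  have cw : ContinuousOn (fun z => κ + σ * z) (Set.Icc z₀ z₁) := by fun_prop
  refine ⟨?_, ?_, ?_⟩
  · refine sub_CV D c (ε := 1) hz (fun z h => Real.hasDerivAt_log (hp z h).1.ne')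
      (continuousOn_id.inv₀ fun z h => (hp z h).1.ne') abs_one.le (by norm_num) (fun z h => ?_)
      (abs_le.2 ⟨by linarith, by linarith⟩)
    rw [one_mul, ← div_eq_mul_inv, one_le_div (hp z h).1]
    linarith [(hm z h).1.2]
  · have := sub_CV D c (ε := -σ) (m := 72) hz (fun z h => ((hw z).log (hp z h).2.ne').fun_neg)
      (continuousOn_const.div cw fun z h => (hp z h).2.ne').neg
      (by rcases hσ with rfl | rfl <;> simp) (by norm_num) (fun z h => by
        have e : σ * σ = 1 := by rcases hσ with rfl | rfl <;> simp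
        rw [neg_mul_neg, ← mul_div_assoc, e, mul_one_div, one_le_div (hp z h).2]
        linarith [(hm z h).2.2]) (abs_le.2 ⟨by linarith, by linarith⟩)
    refine le_of_eq_of_le (intervalIntegral.integral_congr fun z _ => ?_) this
    simp only [P_CV, pw, Complex.ofReal_neg, mul_neg, neg_mul]
  · obtain ⟨ε, hs, he⟩ : ∃ ε : ℝ, |ε| ≤ 1 ∧ |κ| = -ε * κ := by
      rcases abs_cases κ with h | h
      · exact ⟨-1, by simp, by linarith [h.1]⟩
      · exact ⟨1, by simp, by linarith [h.1]⟩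
    have := sub_CV D c (ψ := fun z => Real.log (κ + σ * z) - Real.log z) (ε := ε)
      (m := 72 * (a * b)) hz
      (fun z h => ((hw z).log (hp z h).2.ne').fun_sub (Real.hasDerivAt_log (hp z h).1.ne'))
      ((continuousOn_const.div cw fun z h => (hp z h).2.ne').sub
        (continuousOn_id.inv₀ fun z h => (hp z h).1.ne'))
      hs (by positivity) (fun z h => by
        obtain ⟨p1, p2⟩ := hp z h
        have e : ε * (σ / (κ + σ * z) - z⁻¹) = |κ| / (z * (κ + σ * z)) := by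
          rw [he]
          field_simp
          ring
        rw [e, ← mul_div_assoc, one_le_div (mul_pos p1 p2)]
        have := mul_le_mul (hm z h).1.2 (hm z h).2.2 p2.le (by positivity)
        have := mul_le_mul_of_nonneg_left hκ (mul_pos a0 b0).le
        linarith) (abs_le.2 ⟨by linarith, by linarith⟩)
    refine le_of_eq_of_le (intervalIntegral.integral_congr fun z h => ?_) (this.trans_eq (by ring))
    rw [Set.uIcc_of_le hz] at h
    simp only [P_CV, pw, Real.log_div (hp z h).2.ne' (hp z h).1.ne']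

lemma cs_CV {f g : ℝ → ℝ} {z₀ z₁ A B : ℝ} (hz : z₀ ≤ z₁) (hf : ContinuousOn f (Set.Icc z₀ z₁))
    (hg : ContinuousOn g (Set.Icc z₀ z₁)) (hA : ∫ z in z₀..z₁, f z ^ 2 ≤ A)
    (hB : ∫ z in z₀..z₁, g z ^ 2 ≤ B) : ∫ z in z₀..z₁, f z * g z ≤ √A * √B := by
  have h0 : 0 ≤ A := (intervalIntegral.integral_nonneg hz fun _ _ => sq_nonneg _).trans hA
  have i1 : IntervalIntegrable (fun z => f z ^ 2) MeasureTheory.volume z₀ z₁ :=
    (hf.pow 2).intervalIntegrable_of_Icc hz
  have i2 : IntervalIntegrable (fun z => f z * g z) MeasureTheory.volume z₀ z₁ :=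
    (hf.mul hg).intervalIntegrable_of_Icc hz
  have i3 : IntervalIntegrable (fun z => g z ^ 2) MeasureTheory.volume z₀ z₁ :=
    (hg.pow 2).intervalIntegrable_of_Icc hz
  have h := discrim_le_zero (a := A) (b := 2 * ∫ z in z₀..z₁, f z * g z) (c := B) fun t => by
    have h1 : 0 ≤ ∫ z in z₀..z₁, (t ^ 2 * f z ^ 2 + 2 * t * (f z * g z) + g z ^ 2) :=
      intervalIntegral.integral_nonneg hz fun z _ => by nlinarith [sq_nonneg (t * f z + g z)]
    rw [intervalIntegral.integral_add ((i1.const_mul _).add (i2.const_mul _)) i3,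
      intervalIntegral.integral_add (i1.const_mul _) (i2.const_mul _),
      intervalIntegral.integral_const_mul, intervalIntegral.integral_const_mul] at h1
    nlinarith [mul_le_mul_of_nonneg_left hA (sq_nonneg t)]
  rw [← Real.sqrt_mul h0]
  refine Real.le_sqrt_of_sq_le ?_
  rw [discrim] at h
  linarith

theorem gl2_stmt (h : CVStmt) : GL2Stmt := by
  obtain ⟨C, hC, h⟩ := h
  refine ⟨C, hC, fun a b κ σ z₀ z₁ hL D u v => ?_⟩
  have hz := hL.2.2.2.2.2.2.1
  have c1 : ∀ ρ : ℝ, ContinuousOn (fun z => pw z ρ) (Set.Icc z₀ z₁) := fun ρ =>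
    (continuousOn_pw ρ).mono fun z hz => (hL.pos hz).1
  have c2 : ∀ ρ : ℝ, ContinuousOn (fun z => pw (κ + σ * z) ρ) (Set.Icc z₀ z₁) := fun ρ =>
    (continuousOn_pw ρ).comp (by fun_prop) fun z hz => (hL.pos hz).2
  have c3 : ∀ ρ₁ ρ₂ : ℤ, ContinuousOn
      (fun z => u ρ₁ * pw z ρ₁ * (v ρ₂ * pw (κ + σ * z) (-(ρ₂ : ℝ)))) (Set.Icc z₀ z₁) :=
    fun _ _ => (continuousOn_const.mul (c1 _)).mul (continuousOn_const.mul (c2 _))
  have e : Bil D u v (fun ρ₁ ρ₂ => Gam κ σ z₀ z₁ ρ₁ ρ₂) = ∫ z in z₀..z₁,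
      (∑ ρ ∈ D, u ρ * pw z ρ) * ∑ ρ ∈ D, v ρ * pw (κ + σ * z) (-(ρ : ℝ)) := by
    simp only [sum_mul_sum]
    rw [intervalIntegral.integral_finsetSum fun ρ _ =>
      (continuousOn_finsetSum _ fun _ _ => c3 _ _).intervalIntegrable_of_Icc hz]
    refine sum_congr rfl fun ρ₁ _ => ?_
    rw [intervalIntegral.integral_finsetSum fun ρ _ => (c3 _ _).intervalIntegrable_of_Icc hz]
    refine sum_congr rfl fun ρ₂ _ => ?_
    simp only [Gam]
    rw [← intervalIntegral.integral_const_mul]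
    exact intervalIntegral.integral_congr fun z _ => mul_mul_mul_comm _ _ _ _
  rw [e]
  refine (intervalIntegral.norm_integral_le_integral_norm hz).trans ?_
  simp only [norm_mul]
  refine (cs_CV hz (continuousOn_finsetSum _ fun _ _ => continuousOn_const.mul (c1 _)).norm
    (continuousOn_finsetSum _ fun _ _ => continuousOn_const.mul (c2 _)).norm
    (h a b κ σ z₀ z₁ hL D u).1 (h a b κ σ z₀ z₁ hL D v).2.1).trans_eq ?_
  rw [Real.sqrt_mul hC.le, Real.sqrt_mul hC.le, mul_mul_mul_comm, Real.mul_self_sqrt hC.le,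
    mul_assoc]

end Pool.Agent.MP_2a1f0e_nt.GM2
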