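import Pool.Agent.MP_2a1f0e_nt.GM2.Defs

set_option autoImplicit false

open Finset

namespace Pool.Agent.MP_2a1f0e_nt.GM2

open GM

lemma cs_Core {ι : Type} (I : Finset ι) (A B : ι → ℝ → ℝ) {z₀ z₁ : ℝ} (h : z₀ ≤ z₁)
    (hA : ∀ i ∈ I, ContinuousOn (A i) (Set.Icc z₀ z₁))
    (hB : ∀ i ∈ I, ContinuousOn (B i) (Set.Icc z₀ z₁)) :
    (∫ z in z₀..z₁, ∑ i ∈ I, A i z * B i z) ^ 2 ≤
      (∫ z in z₀..z₁, ∑ i ∈ I, A i z ^ 2) * ∫ z in z₀..z₁, ∑ i ∈ I, B i z ^ 2 := by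
  have i1 : IntervalIntegrable (fun z => ∑ i ∈ I, A i z ^ 2) MeasureTheory.volume z₀ z₁ :=
    (continuousOn_finsetSum _ fun i hi => (hA i hi).pow 2).intervalIntegrable_of_Icc h
  have i2 : IntervalIntegrable (fun z => ∑ i ∈ I, A i z * B i z) MeasureTheory.volume z₀ z₁ :=
    (continuousOn_finsetSum _ fun i hi => (hA i hi).mul (hB i hi)).intervalIntegrable_of_Icc h
  have i3 : IntervalIntegrable (fun z => ∑ i ∈ I, B i z ^ 2) MeasureTheory.volume z₀ z₁ :=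
    (continuousOn_finsetSum _ fun i hi => (hB i hi).pow 2).intervalIntegrable_of_Icc h
  have key := discrim_le_zero (a := ∫ z in z₀..z₁, ∑ i ∈ I, A i z ^ 2)
    (b := -2 * ∫ z in z₀..z₁, ∑ i ∈ I, A i z * B i z)
    (c := ∫ z in z₀..z₁, ∑ i ∈ I, B i z ^ 2) fun t => by
    have h1 : 0 ≤ ∫ z in z₀..z₁, ((t * t) * ∑ i ∈ I, A i z ^ 2 +
        (-2 * t) * ∑ i ∈ I, A i z * B i z + ∑ i ∈ I, B i z ^ 2) :=
      intervalIntegral.integral_nonneg h fun z _ => by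
        rw [mul_sum, mul_sum, ← sum_add_distrib, ← sum_add_distrib]
        exact sum_nonneg fun i _ => by nlinarith [sq_nonneg (t * A i z - B i z)]
    rw [intervalIntegral.integral_add ((i1.const_mul _).add (i2.const_mul _)) i3,
      intervalIntegral.integral_add (i1.const_mul _) (i2.const_mul _),
      intervalIntegral.integral_const_mul, intervalIntegral.integral_const_mul] at h1
    linarith
  rw [discrim] at key
  linarith

lemma sub_Core {M : ℕ} {S : Finset ℕ} (h : Dy M S) (f : ℕ → ℝ) (hf : ∀ n, 0 ≤ f n) :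
    ∑ n ∈ S, f n ≤ ∑ n ∈ Icc 1 (3 * M), Wt ((n : ℝ) / M) * f n := by
  have hM : (0 : ℝ) < M := by exact_mod_cast h.1
  refine le_of_eq_of_le (sum_congr rfl fun n hn => ?_) (sum_le_sum_of_subset_of_nonneg
    (fun n hn => ?_) fun n _ _ => mul_nonneg (Wt_nonneg _) (hf n))
  · obtain ⟨h1, h2⟩ := mem_Ico.1 (h.2 hn)
    rw [Wt_eq_one ((one_le_div hM).2 (by exact_mod_cast h1))
      ((div_le_iff₀ hM).2 (by exact_mod_cast h2.le)), one_mul]
  · obtain ⟨h1, h2⟩ := mem_Ico.1 (h.2 hn)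
    have := h.1
    rw [mem_Icc]
    omega

theorem core_stmt (h : CVStmt) : CoreStmt := by
  obtain ⟨C, hC, h⟩ := h
  refine ⟨C, hC, fun a b κ σ z₀ z₁ X M₁ M₂ S₁ S₂ S₃ γ s g hL h1 h2 h3 hX => ?_⟩
  have hz : z₀ ≤ z₁ := hL.2.2.2.2.2.2.1
  have ha : 0 < a := hL.1
  have hb : 0 < b := hL.2.2.1
  have cz : ContinuousOn (fun z : ℝ => z) (Set.Icc z₀ z₁) := continuousOn_id
  have cw : ContinuousOn (fun z : ℝ => κ + σ * z) (Set.Icc z₀ z₁) := by fun_prop
  have p1 : ∀ i ∈ S₁ ×ˢ S₂, (0 : ℝ) < i.1 ∧ (0 : ℝ) < i.2 := fun i hi =>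
    ⟨by exact_mod_cast h1.one_le _ (mem_product.1 hi).1,
      by exact_mod_cast h2.one_le _ (mem_product.1 hi).2⟩
  have cA : ∀ i ∈ S₁ ×ˢ S₂, ContinuousOn
      (fun z => ‖FT s g ((κ + σ * z) / z * i.1 / i.2)‖) (Set.Icc z₀ z₁) := fun i hi =>
    (continuousOn_FT_comp s g (((cw.div cz fun p hp => (hL.pos hp).1.ne').mul
      continuousOn_const).div_const _) fun p hp => div_pos (mul_pos
        (div_pos (hL.pos hp).2 (hL.pos hp).1) (p1 i hi).1) (p1 i hi).2).norm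
  have cB : ∀ n₁ n₂ : ℕ, 1 ≤ n₁ → 1 ≤ n₂ → ContinuousOn
      (fun z => ‖Inn s g S₃ γ z (κ + σ * z) n₁ n₂‖) (Set.Icc z₀ z₁) := fun n₁ n₂ a1 a2 =>
    (continuousOn_Inn s g h3 γ cz cw (fun p hp => (hL.pos hp).1) (fun p hp => (hL.pos hp).2)
      a1 a2).norm
  have cB' : ∀ i ∈ S₁ ×ˢ S₂, ContinuousOn
      (fun z => ‖Inn s g S₃ γ z (κ + σ * z) i.1 i.2‖) (Set.Icc z₀ z₁) := fun i hi =>
    cB _ _ (h1.one_le _ (mem_product.1 hi).1) (h2.one_le _ (mem_product.1 hi).2)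
  have cs := cs_Core (S₁ ×ˢ S₂) _ _ hz cA cB'
  have hX0 : 0 ≤ X := (sum_nonneg fun _ _ => sq_nonneg _).trans hX
  have e1 : ∫ z in z₀..z₁, ∑ i ∈ S₁ ×ˢ S₂, ‖FT s g ((κ + σ * z) / z * i.1 / i.2)‖ ^ 2 ≤
      C * (M₁ * M₂ * (a * b) * X) := by
    refine le_of_eq_of_le (intervalIntegral.integral_finsetSum fun i hi =>
      ((cA i hi).pow 2).intervalIntegrable_of_Icc hz)
      ((sum_le_card_nsmul _ _ (C * (a * b) * X) fun i hi => ?_).trans ?_)
    · refine le_of_eq_of_le ?_ ((h a b κ σ z₀ z₁ hL s fun t =>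
        (g t : ℂ) * pw ((i.1 : ℝ) / i.2) t).2.2.trans (mul_le_mul_of_nonneg_left
          (le_of_eq_of_le ?_ hX) (by positivity)))
      · refine intervalIntegral.integral_congr fun z hz' => ?_
        rw [Set.uIcc_of_le hz] at hz'
        simp only [FT]
        congr 2
        refine sum_congr rfl fun t _ => ?_
        rw [mul_div_assoc _ (i.1 : ℝ), pw_mul (div_pos (hL.pos hz').2 (hL.pos hz').1).ne'
          (div_pos (p1 i hi).1 (p1 i hi).2).ne']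
        ring
      · exact sum_congr rfl fun t _ => by
          rw [norm_mul, norm_pw, mul_one, Complex.norm_real, Real.norm_eq_abs, sq_abs]
    · have c1 : ((S₁ ×ˢ S₂).card : ℝ) ≤ M₁ * M₂ := by
        rw [card_product]
        exact_mod_cast Nat.mul_le_mul h1.card_le h2.card_le
      rw [nsmul_eq_mul]
      refine (mul_le_mul_of_nonneg_right c1 (by positivity)).trans (le_of_eq (by ring))
  have e2 : ∫ z in z₀..z₁, ∑ i ∈ S₁ ×ˢ S₂, ‖Inn s g S₃ γ z (κ + σ * z) i.1 i.2‖ ^ 2 ≤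
      I2 s g M₁ M₂ S₃ γ κ σ z₀ z₁ := by
    refine intervalIntegral.integral_mono_on hz ((continuousOn_finsetSum _ fun i hi =>
      (cB' i hi).pow 2).intervalIntegrable_of_Icc hz) ((continuousOn_finsetSum _ fun n₁ a1 =>
      continuousOn_finsetSum _ fun n₂ a2 => continuousOn_const.mul
        ((cB _ _ (mem_Icc.1 a1).1 (mem_Icc.1 a2).1).pow 2)).intervalIntegrable_of_Icc hz)
      fun z _ => ?_
    rw [sum_product]
    refine (sum_le_sum fun n₁ _ => sub_Core h2 _ fun _ => sq_nonneg _).trans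
      ((sub_Core h1 _ fun _ => sum_nonneg fun _ _ => mul_nonneg (Wt_nonneg _) (sq_nonneg _)).trans
        (le_of_eq ?_))
    simp only [mul_sum, mul_assoc]
  simp only [Hf, ← sum_product']
  exact cs.trans (mul_le_mul e1 e2 (intervalIntegral.integral_nonneg hz fun _ _ =>
    sum_nonneg fun _ _ => sq_nonneg _) (by positivity))

end Pool.Agent.MP_2a1f0e_nt.GM2
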