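import Pool.Agent.MP_2a1f0e_nt.GM2.Defs
import Pool.Agent.MP_2a1f0e_nt.GM.Par
import Pool.Agent.MP_2a1f0e_nt.GM.PhExp
set_option autoImplicit false
open Finset
namespace Pool.Agent.MP_2a1f0e_nt.GM2
open GM

/-- trigonometric polynomial with complex coefficients -/
noncomputable def Pf_Dec (s : Finset ℤ) (c : ℤ → ℂ) (y : ℝ) : ℂ :=
  ∑ a ∈ s, c a * ex ((a : ℝ) * y)

/-- discrete Fourier coefficient -/
noncomputable def Tr_Dec (Q : ℕ) (τ : ℕ → ℂ) (a : ℤ) : ℂ :=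
  (1 / (Q : ℂ)) * ∑ j ∈ range Q, τ j * ex (-((a : ℝ) * ((j : ℝ) / Q)))

lemma orth_Dec {Q : ℕ} {k : ℤ} (hk : |k| < Q) :
    ∑ j ∈ range Q, ex ((k : ℝ) * ((j : ℝ) / Q)) = if k = 0 then (Q : ℂ) else 0 := by
  split_ifs with h
  · subst h
    simp [ex_zero]
  have hQ : (0 : ℝ) < Q := by
    have : (0 : ℤ) < Q := (abs_nonneg k).trans_lt hk
    exact_mod_cast this
  have h1 := gs_mul Q ((k : ℝ) / Q)
  rw [mul_div_cancel₀ _ hQ.ne', ex_int, sub_self] at h1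
  have h2 : ex ((k : ℝ) / Q) - 1 ≠ 0 := by
    intro h3
    rw [sub_eq_zero, ex, Complex.exp_eq_one_iff] at h3
    obtain ⟨n, hn⟩ := h3
    have h4 : ((2 * Real.pi * ((k : ℝ) / Q) : ℝ) : ℂ) = ((2 * Real.pi * n : ℝ) : ℂ) := by
      apply mul_left_cancel₀ Complex.I_ne_zero
      rw [hn]
      push_cast
      ring
    have h5 := mul_left_cancel₀ (by positivity) (Complex.ofReal_injective h4)
    rw [div_eq_iff hQ.ne'] at h5
    have h6 : k = n * Q := by exact_mod_cast h5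
    exact h (Int.eq_zero_of_abs_lt_dvd ⟨n, by rw [h6, mul_comm]⟩ hk)
  have h7 := (mul_eq_zero.1 h1).resolve_right h2
  rw [← h7, gs]
  refine sum_congr rfl fun j _ => ?_
  congr 1
  ring

lemma pars_Dec {Q : ℕ} {s : Finset ℤ} (hs : ∀ a ∈ s, ∀ b ∈ s, |a - b| < Q) (c : ℤ → ℂ) :
    ∑ j ∈ range Q, ‖Pf_Dec s c ((j : ℝ) / Q)‖ ^ 2 = Q * ∑ a ∈ s, ‖c a‖ ^ 2 := by
  apply Complex.ofReal_injective
  rw [Complex.ofReal_sum]
  simp only [Pf_Dec, normsq_sum]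
  rw [sum_comm]
  push_cast
  rw [mul_sum]
  refine sum_congr rfl fun a ha => ?_
  rw [sum_comm]
  have e : ∀ b ∈ s, ∑ j ∈ range Q, c a * (starRingEnd ℂ) (c b) *
      ex ((a : ℝ) * ((j : ℝ) / Q) - (b : ℝ) * ((j : ℝ) / Q)) =
      if b = a then (Q : ℂ) * (‖c a‖ : ℂ) ^ 2 else 0 := by
    intro b hb
    have h1 := orth_Dec (hs a ha b hb)
    push_cast at h1
    simp only [sub_mul] at h1
    rw [← mul_sum, h1]
    by_cases h : b = a
    · subst h
      rw [if_pos (sub_self b), if_pos rfl, Complex.mul_conj', mul_comm]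
    · rw [if_neg (sub_ne_zero.2 (Ne.symm h)), if_neg h, mul_zero]
  rw [sum_congr rfl e, sum_ite_eq' s a, if_pos ha]

lemma inv_Dec {Q : ℕ} {s : Finset ℤ} (hs : ∀ a ∈ s, ∀ b ∈ s, |a - b| < Q) (c : ℤ → ℂ)
    {a : ℤ} (ha : a ∈ s) : Tr_Dec Q (fun j => Pf_Dec s c ((j : ℝ) / Q)) a = c a := by
  have hQ : (Q : ℂ) ≠ 0 := by
    have := hs a ha a ha
    rw [sub_self, abs_zero] at this
    exact_mod_cast this.ne'
  simp only [Tr_Dec, Pf_Dec, sum_mul]
  rw [sum_comm]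
  have e : ∀ b ∈ s, ∑ j ∈ range Q, c b * ex ((b : ℝ) * ((j : ℝ) / Q)) *
      ex (-((a : ℝ) * ((j : ℝ) / Q))) = if b = a then (Q : ℂ) * c a else 0 := by
    intro b hb
    have h1 := orth_Dec (hs b hb a ha)
    push_cast at h1
    simp only [sub_eq_add_neg, add_mul, neg_mul, ex_add] at h1
    simp only [mul_assoc]
    rw [← mul_sum, h1]
    by_cases h : b = a
    · subst h
      rw [if_pos (add_neg_cancel b), if_pos rfl, mul_comm]
    · rw [if_neg (by omega), if_neg h, mul_zero]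
  rw [sum_congr rfl e, sum_ite_eq' s a, if_pos ha]
  field_simp

lemma bes_Dec {Q : ℕ} (hQ : 0 < Q) {s : Finset ℤ} (hs : ∀ a ∈ s, ∀ b ∈ s, |a - b| < Q)
    (τ : ℕ → ℂ) : ∑ a ∈ s, ‖Tr_Dec Q τ a‖ ^ 2 ≤ (1 / (Q : ℝ)) * ∑ j ∈ range Q, ‖τ j‖ ^ 2 := by
  have hQ' : (0 : ℝ) < Q := by exact_mod_cast hQ
  have h1 : ((∑ a ∈ s, ‖Tr_Dec Q τ a‖ ^ 2 : ℝ) : ℂ) = (1 / (Q : ℂ)) * ∑ j ∈ range Q,
      τ j * (starRingEnd ℂ) (Pf_Dec s (Tr_Dec Q τ) ((j : ℝ) / Q)) := by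
    push_cast
    simp only [Pf_Dec, map_sum, map_mul, conj_ex, mul_sum]
    rw [sum_comm]
    refine sum_congr rfl fun a _ => ?_
    rw [← Complex.mul_conj']
    conv_lhs => lhs; rw [Tr_Dec]
    rw [mul_sum, sum_mul]
    refine sum_congr rfl fun j _ => ?_
    ring
  have h2 := pars_Dec hs (Tr_Dec Q τ)
  have h3 : ∑ a ∈ s, ‖Tr_Dec Q τ a‖ ^ 2 ≤ (1 / (Q : ℝ)) * ∑ j ∈ range Q,
      (‖τ j‖ ^ 2 / 2 + ‖Pf_Dec s (Tr_Dec Q τ) ((j : ℝ) / Q)‖ ^ 2 / 2) := by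
    refine (le_abs_self _).trans ?_
    rw [← Real.norm_eq_abs, ← Complex.norm_real, h1, norm_mul, norm_div, norm_one,
      Complex.norm_natCast]
    refine mul_le_mul_of_nonneg_left ((norm_sum_le _ _).trans (sum_le_sum fun j _ => ?_))
      (by positivity)
    rw [norm_mul, Complex.norm_conj]
    nlinarith [sq_nonneg (‖τ j‖ - ‖Pf_Dec s (Tr_Dec Q τ) ((j : ℝ) / Q)‖)]
  rw [sum_add_distrib, ← sum_div, ← sum_div, h2, mul_add] at h3
  have h4 : 1 / (Q : ℝ) * (Q * (∑ a ∈ s, ‖Tr_Dec Q τ a‖ ^ 2) / 2) =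
      (∑ a ∈ s, ‖Tr_Dec Q τ a‖ ^ 2) / 2 := by field_simp
  rw [h4, ← mul_div_assoc] at h3
  linarith

lemma norm_Tr_Dec (Q : ℕ) (τ : ℕ → ℂ) (a : ℤ) :
    ‖Tr_Dec Q τ a‖ ≤ (1 / (Q : ℝ)) * ∑ j ∈ range Q, ‖τ j‖ := by
  rw [Tr_Dec, norm_mul, norm_div, norm_one, Complex.norm_natCast]
  refine mul_le_mul_of_nonneg_left ((norm_sum_le _ _).trans (sum_le_sum fun j _ => ?_))
    (by positivity)
  rw [norm_mul, norm_ex, mul_one]

lemma norm_gs_neg_Dec (n : ℕ) (x : ℝ) : ‖gs n (-x)‖ = ‖gs n x‖ := by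
  rw [← Complex.norm_conj, gs, gs, map_sum]
  congr 1
  refine sum_congr rfl fun r _ => ?_
  rw [conj_ex, mul_neg, neg_neg]

lemma gs_sub_Dec (n : ℕ) (x y : ℝ) : gs n (x - y) =
    Pf_Dec ((range n).map Nat.castEmbedding) (fun a => ex (-((a : ℝ) * y))) x := by
  rw [gs, Pf_Dec, sum_map]
  refine sum_congr rfl fun r _ => ?_
  rw [← ex_add, Nat.castEmbedding_apply, Int.cast_natCast]
  congr 1
  ring

lemma sum_one_Dec (n : ℕ) (y : ℝ) :
    ∑ a ∈ (range n).map (Nat.castEmbedding (R := ℤ)), ‖ex (-((a : ℝ) * y))‖ ^ 2 = n := by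
  simp [norm_ex]

lemma mean_Dec {Q n : ℕ} (h : n ≤ Q) (y : ℝ) :
    ∑ j ∈ range Q, ‖gs n (y - (j : ℝ) / Q)‖ ^ 2 = Q * n := by
  rw [← sum_one_Dec n y, ← pars_Dec (fun a ha b hb => by
    obtain ⟨a, ha', rfl⟩ := mem_map.1 ha
    obtain ⟨b, hb', rfl⟩ := mem_map.1 hb
    rw [mem_range] at ha' hb'
    rw [Nat.castEmbedding_apply, Nat.castEmbedding_apply, abs_lt]
    omega)]
  refine sum_congr rfl fun j _ => ?_
  rw [← gs_sub_Dec, ← norm_gs_neg_Dec, neg_sub]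

lemma FT_eq_Dec (s : Finset ℤ) (g : ℤ → ℝ) (v : ℝ) :
    FT s g v = Pf_Dec s (fun a => (g a : ℂ)) (Real.log v / (2 * Real.pi)) := by
  simp only [FT, Pf_Dec, pw_eq_ex]

lemma cont_log_Dec : ContinuousOn (fun v : ℝ => Real.log v / (2 * Real.pi))
    (Set.Icc (1 / 9 : ℝ) (82 / 9)) :=
  (Real.continuousOn_log.mono fun _ hx => ne_of_gt (Icc_sub_Ioi hx)).div_const _

lemma II_add_Dec {f g : ℝ → ℝ} (hf : ContinuousOn f (Set.Icc (1 / 9 : ℝ) (82 / 9)))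
    (hg : ContinuousOn g (Set.Icc (1 / 9 : ℝ) (82 / 9))) :
    II (fun v => f v + g v) = II f + II g :=
  intervalIntegral.integral_add (hf.intervalIntegrable_of_Icc (by norm_num))
    (hg.intervalIntegrable_of_Icc (by norm_num))

lemma II_mul_Dec (c : ℝ) (f : ℝ → ℝ) : II (fun v => c * f v) = c * II f :=
  intervalIntegral.integral_const_mul _ _

lemma par_Dec (s : Finset ℤ) (c : ℤ → ℂ) :
    II (fun v => ‖Pf_Dec s c (Real.log v / (2 * Real.pi))‖ ^ 2) ≤ 120 * ∑ a ∈ s, ‖c a‖ ^ 2 := by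
  have e : ∀ v, Pf_Dec s c (Real.log v / (2 * Real.pi)) =
      FT s (fun a => (c a).re) v + Complex.I * FT s (fun a => (c a).im) v := by
    intro v
    simp only [FT_eq_Dec, Pf_Dec, mul_sum]
    rw [← sum_add_distrib]
    refine sum_congr rfl fun a _ => ?_
    conv_lhs => rw [← Complex.re_add_im (c a)]
    ring
  have c1 := ((continuousOn_FT s (fun a => (c a).re)).mono Icc_sub_Ioi)
  have c2 := ((continuousOn_FT s (fun a => (c a).im)).mono Icc_sub_Ioi)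
  have h1 : II (fun v => ‖Pf_Dec s c (Real.log v / (2 * Real.pi))‖ ^ 2) ≤
      II (fun v => 2 * ‖FT s (fun a => (c a).re) v‖ ^ 2 + 2 * ‖FT s (fun a => (c a).im) v‖ ^ 2) := by
    simp only [e]
    refine II_mono ((c1.add (continuousOn_const.mul c2)).norm.pow 2)
      ((continuousOn_const.mul (c1.norm.pow 2)).add (continuousOn_const.mul (c2.norm.pow 2)))
      fun v _ => ?_
    have h2 := norm_add_le (FT s (fun a => (c a).re) v) (Complex.I * FT s (fun a => (c a).im) v)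
    rw [norm_mul, Complex.norm_I, one_mul] at h2
    have h3 := pow_le_pow_left₀ (norm_nonneg _) h2 2
    nlinarith [sq_nonneg (‖FT s (fun a => (c a).re) v‖ - ‖FT s (fun a => (c a).im) v‖)]
  rw [II_add_Dec (f := fun v => 2 * ‖FT s (fun a => (c a).re) v‖ ^ 2)
    (g := fun v => 2 * ‖FT s (fun a => (c a).im) v‖ ^ 2)
    (continuousOn_const.mul (c1.norm.pow 2)) (continuousOn_const.mul (c2.norm.pow 2)),
    II_mul_Dec, II_mul_Dec] at h1
  have h4 := par_stmt s (fun a => (c a).re)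
  have h5 := par_stmt s (fun a => (c a).im)
  have h6 : ∑ a ∈ s, ‖c a‖ ^ 2 = ∑ a ∈ s, (c a).re ^ 2 + ∑ a ∈ s, (c a).im ^ 2 := by
    rw [← sum_add_distrib]
    refine sum_congr rfl fun a _ => ?_
    rw [Complex.sq_norm, Complex.normSq_apply]
    ring
  linarith

/-- majorant of the kernel -/
noncomputable def W_Dec (L : ℕ) (y : ℝ) : ℝ := (‖gs (2 * L) y‖ ^ 2 + ‖gs L y‖ ^ 2) / L

/-- the trapezoid multiplier -/
noncomputable def vv_Dec (L : ℕ) (a : ℤ) : ℝ :=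
  ((((2 * L : ℕ) : ℝ) - |(a : ℝ)|) - if a ∈ Io L then (L : ℝ) - |(a : ℝ)| else 0) / L

lemma Io_sub_Dec (L : ℕ) : Io L ⊆ Io (2 * L) := fun a ha => by
  rw [mem_Io] at ha ⊢
  omega

lemma vv_one_Dec {L : ℕ} (hL : 1 ≤ L) {a : ℤ} (ha : a ∈ Io L) : vv_Dec L a = 1 := by
  have hL' : (0 : ℝ) < L := by exact_mod_cast hL
  rw [vv_Dec, if_pos ha, div_eq_one_iff_eq hL'.ne']
  push_cast
  ring

lemma vv_le_Dec {L : ℕ} (hL : 1 ≤ L) {a : ℤ} (ha : a ∈ Io (2 * L)) : |vv_Dec L a| ≤ 1 := by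
  have hL' : (0 : ℝ) < L := by exact_mod_cast hL
  by_cases h : a ∈ Io L
  · rw [vv_one_Dec hL h, abs_one]
  · rw [vv_Dec, if_neg h, sub_zero, abs_div, abs_of_pos hL', div_le_one hL']
    rw [mem_Io] at ha h
    have h1 : (L : ℤ) ≤ |a| := by
      rw [le_abs]
      omega
    have h2 : |a| ≤ ((2 * L : ℕ) : ℤ) := by
      rw [abs_le]
      omega
    have h3 : (L : ℝ) ≤ |(a : ℝ)| := by exact_mod_cast h1
    have h4 : |(a : ℝ)| ≤ ((2 * L : ℕ) : ℝ) := by exact_mod_cast h2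
    rw [abs_of_nonneg (by linarith)]
    push_cast
    linarith

lemma ker_Dec (L : ℕ) (y : ℝ) :
    ‖Pf_Dec (Io (2 * L)) (fun a => (vv_Dec L a : ℂ)) y‖ ≤ W_Dec L y := by
  have e : Pf_Dec (Io (2 * L)) (fun a => (vv_Dec L a : ℂ)) y =
      (((‖gs (2 * L) y‖ ^ 2 - ‖gs L y‖ ^ 2) / L : ℝ) : ℂ) := by
    rw [Complex.ofReal_div, Complex.ofReal_sub, ← triang_stmt, ← triang_stmt]
    change _ = (∑ u ∈ Io (2 * L), _ - ∑ u ∈ Io L, _) / _
    rw [← inter_eq_right.2 (Io_sub_Dec L), ← sum_ite_mem, ← sum_sub_distrib, sum_div, Pf_Dec]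
    refine sum_congr rfl fun a _ => ?_
    rw [vv_Dec]
    split_ifs
    · push_cast
      ring
    · push_cast
      ring
  rw [e, Complex.norm_real, Real.norm_eq_abs, abs_div, Nat.abs_cast, W_Dec]
  refine div_le_div_of_nonneg_right ((abs_sub _ _).trans ?_) (Nat.cast_nonneg _)
  rw [abs_of_nonneg (sq_nonneg _), abs_of_nonneg (sq_nonneg _)]

lemma conv_Dec (L Q : ℕ) (τ : ℕ → ℂ) (y : ℝ) :
    ‖Pf_Dec (Io (2 * L)) (fun a => (vv_Dec L a : ℂ) * Tr_Dec Q τ a) y‖ ≤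
      ∑ j ∈ range Q, ‖τ j‖ / Q * W_Dec L (y - (j : ℝ) / Q) := by
  have e : Pf_Dec (Io (2 * L)) (fun a => (vv_Dec L a : ℂ) * Tr_Dec Q τ a) y =
      ∑ j ∈ range Q, τ j / Q *
        Pf_Dec (Io (2 * L)) (fun a => (vv_Dec L a : ℂ)) (y - (j : ℝ) / Q) := by
    simp only [Pf_Dec, Tr_Dec, mul_sum, sum_mul]
    rw [sum_comm]
    refine sum_congr rfl fun j _ => sum_congr rfl fun a _ => ?_
    rw [mul_sub, sub_eq_add_neg, ex_add]
    ring
  rw [e]
  refine (norm_sum_le _ _).trans (sum_le_sum fun j _ => ?_)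
  rw [norm_mul, norm_div, Complex.norm_natCast]
  exact mul_le_mul_of_nonneg_left (ker_Dec L _) (by positivity)

lemma re_Dec (s : Finset ℤ) (G : ℤ → ℂ) (y : ℝ) :
    ‖Pf_Dec s (fun a => ((G a).re : ℂ)) y‖ ≤ (‖Pf_Dec s G y‖ + ‖Pf_Dec s G (-y)‖) / 2 := by
  have e : Pf_Dec s (fun a => ((G a).re : ℂ)) y =
      (Pf_Dec s G y + (starRingEnd ℂ) (Pf_Dec s G (-y))) / 2 := by
    simp only [Pf_Dec, map_sum, map_mul, conj_ex, mul_neg, neg_neg]
    rw [← sum_add_distrib, sum_div]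
    refine sum_congr rfl fun a _ => ?_
    rw [Complex.re_eq_add_conj]
    ring
  rw [e, norm_div, Complex.norm_ofNat]
  refine div_le_div_of_nonneg_right ((norm_add_le _ _).trans ?_) (by norm_num)
  rw [Complex.norm_conj]

lemma W_mean_Dec {L : ℕ} (hL : 1 ≤ L) (y : ℝ) :
    ∑ j ∈ range (4 * L), W_Dec L (y - (j : ℝ) / (4 * L : ℕ)) = 3 * (4 * L : ℕ) := by
  have hL' : (0 : ℝ) < L := by exact_mod_cast hL
  simp only [W_Dec]
  rw [← sum_div, sum_add_distrib, mean_Dec (by omega), mean_Dec (by omega), div_eq_iff hL'.ne']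
  push_cast
  ring

lemma W_neg_Dec (L : ℕ) (y : ℝ) : W_Dec L (-y) = W_Dec L y := by
  rw [W_Dec, W_Dec, norm_gs_neg_Dec, norm_gs_neg_Dec]

lemma W_nonneg_Dec (L : ℕ) (y : ℝ) : 0 ≤ W_Dec L y := by
  unfold W_Dec
  positivity

lemma W_cont_Dec (L : ℕ) : Continuous (W_Dec L) := by
  unfold W_Dec
  exact (((continuous_gs _).norm.pow 2).add ((continuous_gs _).norm.pow 2)).div_const _

lemma W_II_Dec {L : ℕ} (hL : 1 ≤ L) (c : ℝ) :
    II (fun v => W_Dec L (Real.log v / (2 * Real.pi) - c)) ≤ 360 := by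
  have hL' : (0 : ℝ) < L := by exact_mod_cast hL
  have h : ∀ n : ℕ, II (fun v => ‖gs n (Real.log v / (2 * Real.pi) - c)‖ ^ 2) ≤ 120 * n := by
    intro n
    simp only [gs_sub_Dec]
    rw [← sum_one_Dec n c]
    exact par_Dec _ _
  have hc : ∀ n : ℕ, ContinuousOn (fun v => ‖gs n (Real.log v / (2 * Real.pi) - c)‖ ^ 2)
      (Set.Icc (1 / 9 : ℝ) (82 / 9)) := fun n =>
    ((continuous_gs n).comp_continuousOn (cont_log_Dec.sub continuousOn_const)).norm.pow 2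
  simp only [W_Dec, div_eq_inv_mul _ (L : ℝ)]
  rw [II_mul_Dec, II_add_Dec (hc _) (hc _), inv_mul_le_iff₀ hL']
  have h1 := h (2 * L)
  have h2 := h L
  push_cast at h1
  linarith

theorem dec_stmt : DecStmt := by
  refine ⟨360, by norm_num, fun L ν A X hL hA hν hX => ?_⟩
  have hQ : 0 < 4 * L := by omega
  have hQ' : (0 : ℝ) < (4 * L : ℕ) := by exact_mod_cast hQ
  have hs : ∀ a ∈ Io (2 * L), ∀ b ∈ Io (2 * L), |a - b| < (4 * L : ℕ) := fun a ha b hb => by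
    rw [mem_Io] at ha hb
    rw [abs_lt]
    omega
  obtain ⟨F, hF⟩ : ∃ F : ℕ → ℂ, F = fun j : ℕ =>
    Pf_Dec (Io (2 * L)) (fun a => (ν a : ℂ)) ((j : ℝ) / (4 * L : ℕ)) := ⟨_, rfl⟩
  have hFX : 1 / ((4 * L : ℕ) : ℝ) * ∑ j ∈ range (4 * L), ‖F j‖ ^ 2 ≤ X := by
    rw [hF, pars_Dec hs, ← mul_assoc, one_div_mul_cancel hQ'.ne', one_mul]
    refine le_of_eq_of_le ?_ hX
    simp only [Complex.norm_real, Real.norm_eq_abs, sq_abs]
    exact (sum_subset (Io_sub_Dec L) fun t _ ht => by rw [hν t ht]; ring).symm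
  have hinv : ∀ a ∈ Io (2 * L), (vv_Dec L a : ℂ) * Tr_Dec (4 * L) F a = ν a := fun a ha => by
    rw [hF, inv_Dec hs _ ha]
    by_cases h : a ∈ Io L
    · rw [vv_one_Dec hL h, Complex.ofReal_one, one_mul]
    · rw [hν a h, Complex.ofReal_zero, mul_zero]
  obtain ⟨τ, t1, t2, t3⟩ : ∃ τ : ℕ → ℂ, (∀ j, ‖τ j‖ ≤ A) ∧ (∀ j, ‖τ j‖ ≤ ‖F j‖) ∧
      ∀ j, ‖F j - τ j‖ ≤ ‖F j‖ ^ 2 / A := by
    refine ⟨fun j => if ‖F j‖ ≤ A then F j else 0, fun j => ?_, fun j => ?_, fun j => ?_⟩ <;>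
      dsimp only
    · split_ifs with h
      · exact h
      · rw [norm_zero]
        exact hA.le
    · split_ifs with h
      · exact le_rfl
      · rw [norm_zero]
        exact norm_nonneg _
    · split_ifs with h
      · rw [sub_self, norm_zero]
        positivity
      · rw [sub_zero, le_div_iff₀ hA, sq]
        exact mul_le_mul_of_nonneg_left (not_le.1 h).le (norm_nonneg _)
  have hd : 1 / ((4 * L : ℕ) : ℝ) * ∑ j ∈ range (4 * L), ‖F j - τ j‖ ≤ X / A := by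
    refine (mul_le_mul_of_nonneg_left (sum_le_sum fun j _ => t3 j) (by positivity)).trans ?_
    rw [← sum_div, ← mul_div_assoc]
    exact div_le_div_of_nonneg_right hFX hA.le
  have hXA : 0 ≤ X / A := le_trans (by positivity) hd
  obtain ⟨g, g0, g1⟩ : ∃ g : ℤ → ℝ, Sup (2 * L) g ∧
      ∀ a ∈ Io (2 * L), g a = ((vv_Dec L a : ℂ) * Tr_Dec (4 * L) τ a).re :=
    ⟨fun a => if a ∈ Io (2 * L) then ((vv_Dec L a : ℂ) * Tr_Dec (4 * L) τ a).re else 0,
      fun a ha => if_neg ha, fun a ha => if_pos ha⟩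
  have g2 : ∀ a ∈ Io (2 * L), ν a - g a =
      ((vv_Dec L a : ℂ) * Tr_Dec (4 * L) (fun j => F j - τ j) a).re := fun a ha => by
    have e : Tr_Dec (4 * L) (fun j => F j - τ j) a =
        Tr_Dec (4 * L) F a - Tr_Dec (4 * L) τ a := by
      simp only [Tr_Dec, sub_mul, sum_sub_distrib, mul_sub]
    rw [e, mul_sub, hinv a ha, g1 a ha, Complex.sub_re, Complex.ofReal_re]
  have hre : ∀ a ∈ Io (2 * L), ∀ z : ℂ, |((vv_Dec L a : ℂ) * z).re| ≤ ‖z‖ := fun a ha z => by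
    refine (Complex.abs_re_le_norm _).trans ?_
    rw [norm_mul, Complex.norm_real, Real.norm_eq_abs]
    exact mul_le_of_le_one_left (norm_nonneg _) (vv_le_Dec hL ha)
  have hFT : ∀ (σ : ℕ → ℂ) (h : ℤ → ℝ), (∀ a ∈ Io (2 * L),
      h a = ((vv_Dec L a : ℂ) * Tr_Dec (4 * L) σ a).re) → ∀ v, ‖FT (Io (2 * L)) h v‖ ≤
      ∑ j ∈ range (4 * L), ‖σ j‖ / (4 * L : ℕ) / 2 *
        (W_Dec L (Real.log v / (2 * Real.pi) - (j : ℝ) / (4 * L : ℕ)) +
          W_Dec L (-(Real.log v / (2 * Real.pi)) - (j : ℝ) / (4 * L : ℕ))) := by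
    intro σ h hh v
    have e : FT (Io (2 * L)) h v = Pf_Dec (Io (2 * L))
        (fun a => (((vv_Dec L a : ℂ) * Tr_Dec (4 * L) σ a).re : ℂ))
          (Real.log v / (2 * Real.pi)) := by
      rw [FT_eq_Dec]
      exact sum_congr rfl fun a ha => by dsimp only; rw [hh a ha]
    rw [e]
    refine (re_Dec _ _ _).trans ((div_le_div_of_nonneg_right (add_le_add (conv_Dec L _ σ _)
      (conv_Dec L _ σ _)) (by norm_num)).trans (le_of_eq ?_))
    rw [← sum_add_distrib, sum_div]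
    exact sum_congr rfl fun j _ => by ring
  refine ⟨g, g0, fun v => ?_, ?_, fun t => ?_, ?_⟩
  · refine (hFT τ g g1 v).trans ((sum_le_sum (g := fun j : ℕ => A / (4 * L : ℕ) / 2 *
        (W_Dec L (Real.log v / (2 * Real.pi) - (j : ℝ) / (4 * L : ℕ)) +
          W_Dec L (-(Real.log v / (2 * Real.pi)) - (j : ℝ) / (4 * L : ℕ))))
      fun j _ => ?_).trans (le_of_eq ?_))
    · exact mul_le_mul_of_nonneg_right (div_le_div_of_nonneg_right
        (div_le_div_of_nonneg_right (t1 j) hQ'.le) (by norm_num))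
        (add_nonneg (W_nonneg_Dec _ _) (W_nonneg_Dec _ _))
    · rw [← mul_sum, sum_add_distrib, W_mean_Dec hL, W_mean_Dec hL]
      field_simp
      ring
  · refine le_trans (sum_le_sum fun a ha => ?_) ((bes_Dec hQ hs τ).trans (le_trans
      (mul_le_mul_of_nonneg_left (sum_le_sum fun j _ => ?_) (by positivity)) hFX))
    · rw [g1 a ha, ← sq_abs]
      exact pow_le_pow_left₀ (abs_nonneg _) (hre a ha _) 2
    · exact pow_le_pow_left₀ (norm_nonneg _) (t2 j) 2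
  · by_cases ht : t ∈ Io (2 * L)
    · rw [g2 t ht]
      exact (hre t ht _).trans ((norm_Tr_Dec _ _ _).trans hd)
    · rw [g0 t ht, hν t fun h => ht (Io_sub_Dec L h), sub_self, abs_zero]
      exact hXA
  · have hc : ∀ c : ℝ, ContinuousOn (fun v => W_Dec L (Real.log v / (2 * Real.pi) - c))
        (Set.Icc (1 / 9 : ℝ) (82 / 9)) := fun c =>
      (W_cont_Dec L).comp_continuousOn (cont_log_Dec.sub continuousOn_const)
    have hn : ∀ y c : ℝ, W_Dec L (-y - c) = W_Dec L (y - -c) := fun y c => by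
      rw [← W_neg_Dec]
      congr 1
      ring
    simp only [hn] at hFT
    have h1 := II_mono ((continuousOn_FT (Io (2 * L)) (fun t => ν t - g t)).mono Icc_sub_Ioi).norm
      (continuousOn_finsetSum _ fun j _ => continuousOn_const.mul ((hc _).add (hc _)))
      fun v _ => hFT (fun j => F j - τ j) _ g2 v
    refine h1.trans ?_
    rw [II, intervalIntegral.integral_finsetSum fun j _ =>
      (continuousOn_const.mul ((hc _).add (hc _))).intervalIntegrable_of_Icc (by norm_num)]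
    refine le_trans (sum_le_sum (g := fun j : ℕ => ‖F j - τ j‖ / (4 * L : ℕ) / 2 * (360 + 360))
      fun j _ => ?_) ?_
    · refine (intervalIntegral.integral_const_mul _ _).trans_le
        (mul_le_mul_of_nonneg_left ?_ (by positivity))
      exact (II_add_Dec (hc _) (hc _)).trans_le (add_le_add (W_II_Dec hL _) (W_II_Dec hL _))
    · refine le_trans (le_of_eq ?_) (mul_le_mul_of_nonneg_left hd (by norm_num))
      rw [mul_sum, mul_sum]
      exact sum_congr rfl fun j _ => by ring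

end Pool.Agent.MP_2a1f0e_nt.GM2
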