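import Pool.Agent.MP_2a1f0e_nt.GM.Basic

set_option autoImplicit false

open Finset

namespace Pool.Agent.MP_2a1f0e_nt.GM2

open GM

/-- cubic trace with three weights -/
noncomputable def Q33 (N M : ℕ) (s : Finset ℤ) (ν₁ ν₂ ν₃ : ℤ → ℝ) : ℂ :=
  ∑ a ∈ s, ∑ b ∈ s, ∑ c ∈ s, ((ν₁ a * ν₂ b * ν₃ c : ℝ) : ℂ) *
    (Kb N M ((a : ℝ) - b) * Kb N M ((b : ℝ) - c) * Kb N M ((c : ℝ) - a))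

/-- triple integral with three functions -/
noncomputable def Tr3 (N M : ℕ) (φ₁ φ₂ φ₃ : ℝ → ℝ) : ℝ :=
  ∫ v in (1 / 3 : ℝ)..3, ∫ w in (1 / 3 : ℝ)..3, φ₁ v * φ₂ (w / v) * φ₃ w * kp3 N M v w

/-- the pair bound -/
noncomputable def PB (N M : ℕ) (Δ : ℝ) (g h : ℝ → ℝ) : ℝ :=
  (M : ℝ) ^ 2 / N * II g * II h +
    M * Δ / N * √(II fun v => g v ^ 2) * √(II fun v => h v ^ 2)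

/-- continuous, nonnegative, symmetric under inversion -/
def Nice (g : ℝ → ℝ) : Prop :=
  ContinuousOn g (Set.Ioi 0) ∧ (∀ v, 0 ≤ g v) ∧ ∀ v, g v⁻¹ = g v

noncomputable def R2 (N M : ℕ) (Δ : ℝ) : ℝ := (M : ℝ) ^ 2 / (N : ℝ) ^ 2 + M * Δ / N

/-- the symmetric window -/
noncomputable def Io (L : ℕ) : Finset ℤ := Ioo (-(L : ℤ)) L

/-- `g` vanishes outside the window -/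
def Sup (L : ℕ) (g : ℤ → ℝ) : Prop := ∀ t, t ∉ Io L → g t = 0

def Sg (e : ℝ) : Prop := e = 1 ∨ e = -1

/-- `S` is part of a dyadic block -/
def Dy (M : ℕ) (S : Finset ℕ) : Prop := 1 ≤ M ∧ S ⊆ Ico M (2 * M)

/-- one signed dyadic block of the cubic trace -/
noncomputable def Qb (N : ℕ) (s : Finset ℤ) (g : ℤ → ℝ) (S₁ S₂ S₃ : Finset ℕ)
    (e₁ e₂ e₃ : ℝ) : ℂ :=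
  ∑ n₁ ∈ S₁, ∑ n₂ ∈ S₂, ∑ n₃ ∈ S₃, ∑ a ∈ s, ∑ b ∈ s, ∑ c ∈ s, ((g a * g b * g c : ℝ) : ℂ) *
    (HH ((a : ℝ) - b) (e₁ * N * n₁) * HH ((b : ℝ) - c) (e₂ * N * n₂) *
      HH ((c : ℝ) - a) (e₃ * N * n₃))

noncomputable def R4 (u p q ξ : ℝ) : ℂ :=
  ∫ r : ℝ, ((r ^ 2 * Wt (r * u) * Wt (r * p) * Wt (r * q) : ℝ) : ℂ) * ex (-(ξ * r))

noncomputable def Psi (k p q ξ : ℝ) : ℂ :=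
  ∫ r : ℝ, ((r ^ 2 * Wt (r * p) * Wt (r * q) : ℝ) : ℂ) * pw r k * ex (-(ξ * r))

/-- the inner sum over the third variable -/
noncomputable def Inn (s : Finset ℤ) (g : ℤ → ℝ) (S₃ : Finset ℕ) (γ : ℕ → ℂ) (z w : ℝ)
    (n₁ n₂ : ℕ) : ℂ :=
  ∑ n ∈ S₃, γ n * FT s g (z * n / n₁) * FT s g (n₂ / (w * n))

noncomputable def Hf (s : Finset ℤ) (g : ℤ → ℝ) (S₁ S₂ S₃ : Finset ℕ) (γ : ℕ → ℂ)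
    (z w : ℝ) : ℝ :=
  ∑ n₁ ∈ S₁, ∑ n₂ ∈ S₂, ‖FT s g (w / z * n₁ / n₂)‖ * ‖Inn s g S₃ γ z w n₁ n₂‖

/-- a segment of the line `w = κ + σ z` inside the box -/
def Line (a b κ σ z₀ z₁ : ℝ) : Prop :=
  0 < a ∧ a ≤ 1 ∧ 0 < b ∧ b ≤ 1 ∧ Sg σ ∧ 1 / 2 ≤ |κ| ∧ z₀ ≤ z₁ ∧
    ∀ z ∈ Set.Icc z₀ z₁, z ∈ Set.Icc (a / 6) (6 * a) ∧ κ + σ * z ∈ Set.Icc (b / 6) (6 * b)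

noncomputable def Gam (κ σ z₀ z₁ ρ₁ ρ₂ : ℝ) : ℂ :=
  ∫ z in z₀..z₁, pw z ρ₁ * pw (κ + σ * z) (-ρ₂)

noncomputable def Bil (D : Finset ℤ) (u v : ℤ → ℂ) (Γ : ℤ → ℤ → ℂ) : ℂ :=
  ∑ ρ₁ ∈ D, ∑ ρ₂ ∈ D, u ρ₁ * v ρ₂ * Γ ρ₁ ρ₂

/-- square of the l2 norm on `D` -/
noncomputable def N2 (D : Finset ℤ) (u : ℤ → ℂ) : ℝ := ∑ ρ ∈ D, ‖u ρ‖ ^ 2

noncomputable def Fh (L : ℕ) (g : ℤ → ℝ) (i : ℕ × ℕ) (ρ : ℤ) : ℂ :=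
  ∑ a ∈ Io L, ((g a * g (a - ρ) : ℝ) : ℂ) * pw (i.1 : ℝ) a * pw (i.2 : ℝ) (-((a : ℝ) - ρ))

noncomputable def Bf (R M₁ M₂ : ℕ) (κ σ z₀ z₁ : ℝ) (u : ℤ → ℂ) : ℂ :=
  Bil (Io R) (fun ρ => u ρ * KK M₁ (-(ρ : ℝ))) (fun ρ => (starRingEnd ℂ) (u ρ) * KK M₂ ρ)
    (fun ρ₁ ρ₂ => Gam κ σ z₀ z₁ ρ₁ ρ₂)

noncomputable def I2 (s : Finset ℤ) (g : ℤ → ℝ) (M₁ M₂ : ℕ) (S₃ : Finset ℕ) (γ : ℕ → ℂ)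
    (κ σ z₀ z₁ : ℝ) : ℝ :=
  ∫ z in z₀..z₁, ∑ n₁ ∈ Icc 1 (3 * M₁), ∑ n₂ ∈ Icc 1 (3 * M₂),
    Wt ((n₁ : ℝ) / M₁) * Wt ((n₂ : ℝ) / M₂) * ‖Inn s g S₃ γ z (κ + σ * z) n₁ n₂‖ ^ 2

/-- the right side of the improved cubic bound -/
noncomputable def W2 (N M : ℕ) (Δ B X x : ℝ) : ℝ :=
  Δ ^ 7 * x ^ 71 * (X * √X) + M * Δ * B * X + (M : ℝ) ^ 3 * B * X / N +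
    M * Δ * B * √(R2 N M Δ) * (B + x ^ 6 * √X) * √X + (M : ℝ) ^ 2 * Δ * B ^ 3 * R2 N M Δ

def Three3Stmt : Prop := ∃ C : ℝ, 0 < C ∧ ∀ N M : ℕ, 1 ≤ N →
  ∀ (s : Finset ℤ) (ν₁ ν₂ ν₃ : ℤ → ℝ), ‖Q33 N M s ν₁ ν₂ ν₃‖ ≤ C * (N : ℝ) ^ 3 *
    Tr3 N M (fun v => ‖FT s ν₁ v‖) (fun v => ‖FT s ν₂ v‖) (fun v => ‖FT s ν₃ v‖)

def Tri2Stmt : Prop := ∃ C : ℝ, 0 < C ∧ ∀ (N M : ℕ) (Δ : ℝ), 1 ≤ N → DivB (N * M) Δ →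
  ∀ g h : ℝ → ℝ, Nice g → Nice h →
    Tr3 N M g h (fun _ => 1) ≤ C * PB N M Δ g h ∧ Tr3 N M g (fun _ => 1) h ≤ C * PB N M Δ g h ∧
    Tr3 N M (fun _ => 1) g h ≤ C * PB N M Δ g h

/-- truncation of the Fourier transform at height `A`, kept band limited -/
def DecStmt : Prop := ∃ C : ℝ, 0 < C ∧ ∀ (L : ℕ) (ν : ℤ → ℝ) (A X : ℝ), 1 ≤ L → 0 < A →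
  Sup L ν → ∑ t ∈ Io L, ν t ^ 2 ≤ X → ∃ g : ℤ → ℝ, Sup (2 * L) g ∧
    (∀ v, ‖FT (Io (2 * L)) g v‖ ≤ 3 * A) ∧ ∑ t ∈ Io (2 * L), g t ^ 2 ≤ X ∧
    (∀ t, |ν t - g t| ≤ X / A) ∧
    II (fun v => ‖FT (Io (2 * L)) (fun t => ν t - g t) v‖) ≤ C * (X / A)

def ErrStmt : Prop := ∃ C : ℝ, 0 < C ∧ ∀ (N M : ℕ) (Δ B A X E : ℝ) (s : Finset ℤ)
  (ν g : ℤ → ℝ), 1 ≤ N → 1 ≤ M → DivB (N * M) Δ → 0 ≤ B → 0 ≤ A →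
  (∀ v ∈ Set.Icc (1 / 9 : ℝ) (82 / 9), ‖FT s ν v‖ ≤ B * (1 + rho N M v)) →
  ∑ t ∈ s, ν t ^ 2 ≤ X → ∑ t ∈ s, g t ^ 2 ≤ X → (∀ v, ‖FT s g v‖ ≤ A) →
  II (fun v => ‖FT s (fun t => ν t - g t) v‖) ≤ E →
  ‖Q3 N M s ν - Q3 N M s g‖ ≤ C * (N : ℝ) ^ 2 * ((M : ℝ) ^ 2 * E * X + M * Δ * (B + A) * X +
    (M : ℝ) ^ 3 * B * X / N + M * Δ * B * √(R2 N M Δ) * (B + A) * √X +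
    (M : ℝ) ^ 2 * Δ * B ^ 3 * R2 N M Δ)

def PartStmt : Prop := ∀ (N M : ℕ) (s : Finset ℤ) (g : ℤ → ℝ) (Z : ℝ), 0 ≤ Z →
  (∀ (M₁ M₂ M₃ : ℕ) (S₁ S₂ S₃ : Finset ℕ) (e₁ e₂ e₃ : ℝ), Dy M₁ S₁ → Dy M₂ S₂ → Dy M₃ S₃ →
    M₁ ≤ M₃ → M₂ ≤ M₃ → M₃ ≤ M → Sg e₁ → Sg e₂ → Sg e₃ → ‖Qb N s g S₁ S₂ S₃ e₁ e₂ e₃‖ ≤ Z) →
  ‖Q3 N M s g‖ ≤ 8 * ((Nat.log 2 M : ℝ) + 1) ^ 3 * (N : ℝ) ^ 3 * Z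

def FouStmt : Prop := ∃ c : ℤ → ℂ, Summable (fun k : ℤ => ‖c k‖ * (1 + |(k : ℝ)|) ^ 2) ∧
  ∀ t ∈ Set.Icc (1 / 16 : ℝ) 27, HasSum (fun k : ℤ => c k * pw t k) (Wt t : ℂ)

def PsiStmt : Prop := ∃ C : ℝ, 0 < C ∧ ∀ k p q ξ : ℝ, p ∈ Set.Icc (1 / 12 : ℝ) 6 →
  q ∈ Set.Icc (1 / 12 : ℝ) 6 → ‖Psi k p q ξ‖ ≤ C * (1 + |k|) ^ 2 * kp ξ

def RexpStmt : Prop := ∃ c : ℤ → ℂ, Summable (fun k : ℤ => ‖c k‖ * (1 + |(k : ℝ)|) ^ 2) ∧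
  ∀ u p q ξ : ℝ, u ∈ Set.Icc (1 / 2 : ℝ) 1 → p ∈ Set.Icc (1 / 12 : ℝ) 6 →
    HasSum (fun k : ℤ => c k * pw u k * Psi k p q ξ) (R4 u p q ξ)

def Key2Stmt : Prop := ∀ (M₁ M₂ M₃ n₁ n₂ n₃ : ℕ) (al be ga x₁ x₂ x₃ : ℝ),
  n₁ ∈ Ico M₁ (2 * M₁) → n₂ ∈ Ico M₂ (2 * M₂) → n₃ ∈ Ico M₃ (2 * M₃) → al + be + ga = 0 →
  HH al (x₁ * n₁) * HH be (x₂ * n₂) * HH ga (x₃ * n₃) =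
    (((M₃ : ℝ) ^ 3 / (n₁ * n₂ * n₃) : ℝ) : ℂ) *
      ∫ z in ((M₁ : ℝ) / M₃ / 6)..(6 * (M₁ / M₃)), ∫ w in ((M₂ : ℝ) / M₃ / 6)..(6 * (M₂ / M₃)),
        pw (z * n₃ / n₁) al * pw (w * n₃ / n₂) be *
          R4 (M₃ / n₃) (z * M₃ / n₁) (w * M₃ / n₂) (M₃ * (x₁ * z + x₂ * w + x₃))

def RedStmt : Prop := ∃ C : ℝ, 0 < C ∧ ∀ (N M₁ M₂ M₃ : ℕ) (S₁ S₂ S₃ : Finset ℕ)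
  (e₁ e₂ e₃ Y : ℝ) (s : Finset ℤ) (g : ℤ → ℝ), Dy M₁ S₁ → Dy M₂ S₂ → Dy M₃ S₃ →
  (∀ γ : ℕ → ℂ, (∀ n ∈ S₃, ‖γ n‖ ≤ 1) →
    ∫ z in ((M₁ : ℝ) / M₃ / 6)..(6 * (M₁ / M₃)), ∫ w in ((M₂ : ℝ) / M₃ / 6)..(6 * (M₂ / M₃)),
      kp ((N : ℝ) * M₃ * (e₁ * z + e₂ * w + e₃)) * Hf s g S₁ S₂ S₃ γ z w ≤ Y) →
  ‖Qb N s g S₁ S₂ S₃ e₁ e₂ e₃‖ ≤ C * ((M₃ : ℝ) ^ 2 / (M₁ * M₂)) * Y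

def ShearStmt : Prop := ∀ (a b L Y₀ Y₁ e₁ e₂ e₃ : ℝ) (H : ℝ → ℝ → ℝ), 0 < a → a ≤ 1 → 0 < b →
  b ≤ 1 → 0 < L → Sg e₁ → Sg e₂ → Sg e₃ → 0 ≤ Y₁ →
  ContinuousOn (fun p : ℝ × ℝ => H p.1 p.2) (Set.Ioi 0 ×ˢ Set.Ioi 0) → (∀ z w, 0 ≤ H z w) →
  (∀ z w, H z w ≤ Y₀) →
  (∀ κ σ z₀ z₁, Line a b κ σ z₀ z₁ → ∫ z in z₀..z₁, H z (κ + σ * z) ≤ Y₁) →
  ∫ z in (a / 6)..(6 * a), ∫ w in (b / 6)..(6 * b), kp (L * (e₁ * z + e₂ * w + e₃)) * H z w ≤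
    4 * Y₁ / L + 144 * (a * b) * Y₀ / L ^ 2

def CVStmt : Prop := ∃ C : ℝ, 0 < C ∧ ∀ a b κ σ z₀ z₁ : ℝ, Line a b κ σ z₀ z₁ →
  ∀ (D : Finset ℤ) (c : ℤ → ℂ),
    ∫ z in z₀..z₁, ‖∑ ρ ∈ D, c ρ * pw z ρ‖ ^ 2 ≤ C * N2 D c ∧
    ∫ z in z₀..z₁, ‖∑ ρ ∈ D, c ρ * pw (κ + σ * z) (-(ρ : ℝ))‖ ^ 2 ≤ C * N2 D c ∧
    ∫ z in z₀..z₁, ‖∑ ρ ∈ D, c ρ * pw ((κ + σ * z) / z) ρ‖ ^ 2 ≤ C * (a * b) * N2 D c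

/-- second derivative test, local form -/
def VdcStmt : Prop := ∀ (φ φ' φ'' : ℝ → ℝ) (f f' : ℝ → ℂ) (A L ε α β : ℝ), α ≤ β → 0 < L →
  Sg ε → (∀ x ∈ Set.Icc α β, HasDerivAt φ (φ' x) x) →
  (∀ x ∈ Set.Icc α β, HasDerivAt φ' (φ'' x) x) → ContinuousOn φ'' (Set.Icc α β) →
  (∀ x ∈ Set.Icc α β, HasDerivAt f (f' x) x) → ContinuousOn f' (Set.Icc α β) →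
  (∀ x ∈ Set.Icc α β, ‖f x‖ ≤ A) → (∀ x ∈ Set.Icc α β, ‖f' x‖ ≤ A) →
  (∀ x ∈ Set.Icc α β, L ^ 2 ≤ ε * φ'' x) →
  ‖∫ x in α..β, f x * Complex.exp (Complex.I * φ x)‖ ≤ A * (1 + (β - α) + 2 * Real.pi) / L

def GamStmt : Prop := ∃ C : ℝ, 0 < C ∧ ∀ a b κ σ z₀ z₁ : ℝ, Line a b κ σ z₀ z₁ →
  ∀ ρ₁ ρ₂ : ℝ, ‖Gam κ σ z₀ z₁ ρ₁ ρ₂‖ ^ 2 * (1 + |ρ₁| + |ρ₂|) ≤ C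

def GL2Stmt : Prop := ∃ C : ℝ, 0 < C ∧ ∀ a b κ σ z₀ z₁ : ℝ, Line a b κ σ z₀ z₁ →
  ∀ (D : Finset ℤ) (u v : ℤ → ℂ),
    ‖Bil D u v (fun ρ₁ ρ₂ => Gam κ σ z₀ z₁ ρ₁ ρ₂)‖ ≤ C * √(N2 D u) * √(N2 D v)

def CoreStmt : Prop := ∃ C : ℝ, 0 < C ∧ ∀ (a b κ σ z₀ z₁ X : ℝ) (M₁ M₂ : ℕ)
  (S₁ S₂ S₃ : Finset ℕ) (γ : ℕ → ℂ) (s : Finset ℤ) (g : ℤ → ℝ), Line a b κ σ z₀ z₁ →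
  Dy M₁ S₁ → Dy M₂ S₂ → (∀ n ∈ S₃, 1 ≤ n) → ∑ t ∈ s, g t ^ 2 ≤ X →
  (∫ z in z₀..z₁, Hf s g S₁ S₂ S₃ γ z (κ + σ * z)) ^ 2 ≤
    C * (M₁ * M₂ * (a * b) * X) * I2 s g M₁ M₂ S₃ γ κ σ z₀ z₁

def ExpStmt : Prop := ∀ (a b κ σ z₀ z₁ : ℝ) (L M₁ M₂ : ℕ) (S₃ : Finset ℕ) (γ : ℕ → ℂ)
  (g : ℤ → ℝ), Line a b κ σ z₀ z₁ → Sup L g → (∀ n ∈ S₃, 1 ≤ n) → (∀ n ∈ S₃, ‖γ n‖ ≤ 1) →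
  I2 (Io L) g M₁ M₂ S₃ γ κ σ z₀ z₁ ≤
    ∑ i ∈ S₃ ×ˢ S₃, ‖Bf (2 * L) M₁ M₂ κ σ z₀ z₁ (Fh L g i)‖

def BilStmt : Prop := ∀ (D : Finset ℤ) (u v s₁ s₂ : ℤ → ℂ) (Γ : ℤ → ℤ → ℂ) (K lam S : ℝ) (J : ℕ),
  0 ≤ K → 0 < lam → 0 < S → (∀ u' v' : ℤ → ℂ, ‖Bil D u' v' Γ‖ ≤ K * √(N2 D u') * √(N2 D v')) →
  (∀ ρ ∈ D, ‖s₁ ρ‖ ≤ S) → (∀ ρ ∈ D, ‖s₂ ρ‖ ≤ S) → S ^ 2 ≤ 2 ^ J * lam →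
  ‖Bil D (fun ρ => u ρ * s₁ ρ) (fun ρ => v ρ * s₂ ρ) Γ‖ ≤
    2 * lam * (J + 1) * K * √(N2 D u) * √(N2 D v) +
    ∑ ρ₁ ∈ D, ∑ ρ₂ ∈ D, if lam < ‖s₁ ρ₁‖ * ‖s₂ ρ₂‖ then
      ‖u ρ₁‖ * ‖v ρ₂‖ * (‖s₁ ρ₁‖ * ‖s₂ ρ₂‖) * ‖Γ ρ₁ ρ₂‖ else 0

def KKStmt : Prop := ∃ C : ℝ, 1 ≤ C ∧ ∀ M : ℕ, 1 ≤ M → ∀ u : ℝ,
  ‖KK M u‖ ≤ C * (M * kp u + 1 + |u|) ∧ ‖KK M u‖ ≤ 3 * M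

def NearStmt : Prop := ∃ C : ℝ, 1 ≤ C ∧ ∀ y : ℝ, 1 ≤ y →
  (∀ M : ℕ, 1 ≤ M → (M : ℝ) ≤ y ^ 6 → ∀ D : Finset ℤ,
    ∑ ρ ∈ D.filter (fun ρ : ℤ => |(ρ : ℝ)| ≤ y), ‖KK M ρ‖ ≤ C * y ^ 6 ∧
    ∑ ρ ∈ D.filter (fun ρ : ℤ => |(ρ : ℝ)| ≤ y), ‖KK M (-(ρ : ℝ))‖ ≤ C * y ^ 6) ∧
  ∀ M₁ M₂ : ℕ, 1 ≤ M₁ → (M₁ : ℝ) ≤ y ^ 6 → 1 ≤ M₂ → (M₂ : ℝ) ≤ y ^ 6 → ∀ ρ₁ ρ₂ : ℝ,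
    C * y ^ 10 < ‖KK M₁ (-ρ₁)‖ * ‖KK M₂ ρ₂‖ →
    (|ρ₁| ≤ y ∧ |ρ₂| ≤ y) ∨ y ^ 4 ≤ max |ρ₁| |ρ₂|

def MomStmt : Prop := ∃ C : ℝ, 0 < C ∧ ∀ (k Y P X : ℕ) (Δ : ℝ) (S : Finset ℕ) (c : ℕ → ℂ),
  1 ≤ k → k ≤ 6 → (∀ n ∈ S, ‖c n‖ ≤ 1) → (∀ n ∈ S, 1 ≤ n ∧ n ≤ Y ∧ Y ≤ 4 * n) → Y ^ k ≤ X →
  DivB X Δ → ∑ ρ ∈ Icc (-(P : ℤ)) P, ‖∑ n ∈ S, c n * pw (n : ℝ) ρ‖ ^ (2 * k) ≤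
    C * Δ ^ 6 * ((P + (Y : ℝ) ^ k) * (Y : ℝ) ^ k)

def FarStmt : Prop := ∃ C : ℝ, 0 < C ∧ ∀ (y lam Δ : ℝ) (M₁ M₂ R X : ℕ), 1 ≤ y → 1 ≤ M₁ →
  (M₁ : ℝ) ≤ y ^ 6 → 1 ≤ M₂ → (M₂ : ℝ) ≤ y ^ 6 → (R : ℝ) ≤ 8 * y ^ 36 → 729 * y ^ 36 ≤ X →
  DivB X Δ → y ^ 10 ≤ lam →
  ∑ ρ₁ ∈ Io R, ∑ ρ₂ ∈ Io R,
    (if lam < ‖KK M₁ (-(ρ₁ : ℝ))‖ * ‖KK M₂ ρ₂‖ ∧ y ^ 4 ≤ max |(ρ₁ : ℝ)| |(ρ₂ : ℝ)| then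
      (‖KK M₁ (-(ρ₁ : ℝ))‖ * ‖KK M₂ ρ₂‖) ^ 2 / (1 + |(ρ₁ : ℝ)| + |(ρ₂ : ℝ)|) else 0) ≤
    C * Δ ^ 13 * lam ^ 2

def BBStmt : Prop := ∃ C : ℝ, 0 < C ∧ ∀ (y Δ a b κ σ z₀ z₁ Y G : ℝ) (M₁ M₂ R X : ℕ)
  (I : Finset (ℕ × ℕ)) (u : ℕ × ℕ → ℤ → ℂ), 1 ≤ y → 1 ≤ M₁ →
  (M₁ : ℝ) ≤ y ^ 6 → 1 ≤ M₂ → (M₂ : ℝ) ≤ y ^ 6 → (R : ℝ) ≤ 8 * y ^ 36 → 729 * y ^ 36 ≤ X →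
  DivB X Δ → Line a b κ σ z₀ z₁ → ∑ i ∈ I, N2 (Io R) (u i) ≤ Y →
  (∀ ρ, ∑ i ∈ I, ‖u i ρ‖ ^ 2 ≤ G) →
  ∑ i ∈ I, ‖Bf R M₁ M₂ κ σ z₀ z₁ (u i)‖ ≤ C * (Δ ^ 7 * y ^ 10 * Y + y ^ 12 * G)

def P4Stmt : Prop := ∀ (L : ℕ) (g : ℤ → ℝ) (A : ℝ) (D : Finset ℤ), Sup L g →
  (∀ v, ‖FT (Io L) g v‖ ≤ A) →
  ∑ p ∈ D, (∑ a ∈ Io L, g a * g (a - p)) ^ 2 ≤ A ^ 2 * ∑ t ∈ Io L, g t ^ 2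

def GYStmt : Prop := ∀ (L : ℕ) (g : ℤ → ℝ) (S : Finset ℕ) (X θ A Z : ℝ), Sup L g →
  ∑ t ∈ Io L, g t ^ 2 ≤ X → (∀ t, |g t| ≤ θ) → (∀ v, ‖FT (Io L) g v‖ ≤ A) →
  ∑ p ∈ Io (2 * L), ‖∑ n ∈ S, pw (n : ℝ) p‖ ^ 12 ≤ Z →
  (∀ ρ, (∑ i ∈ S ×ˢ S, ‖Fh L g i ρ‖ ^ 2) ^ 6 ≤ X ^ 11 * θ ^ 2 * Z) ∧
  (∑ i ∈ S ×ˢ S, N2 (Io (2 * L)) (Fh L g i)) ^ 6 ≤ A ^ 10 * X ^ 7 * Z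

/-- bound along one segment -/
def SegStmt : Prop := ∃ C : ℝ, 0 < C ∧ ∀ (x Δ X a b κ σ z₀ z₁ : ℝ) (L M₁ M₂ M₃ Xd : ℕ)
  (S₁ S₂ S₃ : Finset ℕ) (γ : ℕ → ℂ) (g : ℤ → ℝ), 1 ≤ x → Dy M₁ S₁ → Dy M₂ S₂ → Dy M₃ S₃ →
  (M₁ : ℝ) ≤ x ^ 36 → (M₂ : ℝ) ≤ x ^ 36 → (M₃ : ℝ) ≤ x ^ 36 → (L : ℝ) ≤ 4 * x ^ 216 →
  729 * x ^ 216 ≤ Xd → DivB Xd Δ → Sup L g → ∑ t ∈ Io L, g t ^ 2 ≤ X →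
  (∀ t, |g t| ≤ 2 * √X / x ^ 6) → (∀ v, ‖FT (Io L) g v‖ ≤ 3 * (x ^ 6 * √X)) →
  (∀ n ∈ S₃, ‖γ n‖ ≤ 1) → Line a b κ σ z₀ z₁ →
  (∫ z in z₀..z₁, Hf (Io L) g S₁ S₂ S₃ γ z (κ + σ * z)) ^ 2 ≤
    C * (M₁ * M₂ * (a * b)) * (Δ ^ 8 * x ^ 142 * X ^ 3)

def Blk2Stmt : Prop := ∃ C : ℝ, 0 < C ∧ ∀ (x Δ X e₁ e₂ e₃ : ℝ) (N L M₁ M₂ M₃ Xd : ℕ)
  (S₁ S₂ S₃ : Finset ℕ) (g : ℤ → ℝ), 1 ≤ x → 1 ≤ N → Dy M₁ S₁ → Dy M₂ S₂ → Dy M₃ S₃ →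
  M₁ ≤ M₃ → M₂ ≤ M₃ → (M₃ : ℝ) ≤ x ^ 36 → Sg e₁ → Sg e₂ → Sg e₃ → (L : ℝ) ≤ 4 * x ^ 216 →
  729 * x ^ 216 ≤ Xd → DivB Xd Δ → Sup L g → ∑ t ∈ Io L, g t ^ 2 ≤ X →
  (∀ t, |g t| ≤ 2 * √X / x ^ 6) → (∀ v, ‖FT (Io L) g v‖ ≤ 3 * (x ^ 6 * √X)) →
  ‖Qb N (Io L) g S₁ S₂ S₃ e₁ e₂ e₃‖ ≤ C * (Δ ^ 4 * x ^ 71 * (X * √X) / N)

def Q2Stmt : Prop := ∃ C : ℝ, 0 < C ∧ ∀ (N M T Xd : ℕ) (Δ B X x : ℝ) (ν : ℤ → ℝ), 1 ≤ N →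
  1 ≤ M → 1 ≤ T → 1 ≤ x → (M : ℝ) ≤ x ^ 36 → (T : ℝ) ≤ x ^ 216 → N * M ≤ Xd →
  729 * x ^ 216 ≤ Xd → DivB Xd Δ → 0 ≤ B →
  (∀ v ∈ Set.Icc (1 / 9 : ℝ) (82 / 9), ‖FT (Io (2 * T)) ν v‖ ≤ B * (1 + rho N M v)) →
  ∑ t ∈ Io (2 * T), ν t ^ 2 ≤ X → (∀ t ∈ Io (2 * T), |ν t| ≤ √X / x ^ 6) →
  ‖Q3 N M (Io (2 * T)) ν‖ ≤ C * (N : ℝ) ^ 2 * W2 N M Δ B X x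

def Num2Stmt : Prop := ∀ δ C : ℝ, 0 < δ → 1 ≤ C → ∃ K : ℝ, 0 < K ∧
  ∀ (N T M : ℕ) (Δ B X x : ℝ), 1 ≤ N → N ≤ T → T ^ 44 ≤ N ^ 53 → 1 ≤ x → x ^ 36 = M →
    (M : ℝ) ≤ C * (N : ℝ) ^ δ * (T / N) → 1 ≤ Δ → Δ ≤ C * (N : ℝ) ^ δ → 0 ≤ B →
    B ≤ C * (N : ℝ) ^ δ * (N : ℝ) ^ 2 → 0 ≤ X →
    (X ≤ x ^ 12 * (T * (N : ℝ) ^ 2) ∨ X ^ 3 ≤ C * (N : ℝ) ^ 3 *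
      ((N : ℝ) ^ 2 * W2 N M Δ B X x + (N : ℝ) ^ δ * (T * (N : ℝ) ^ 3) * X)) →
    X ≤ K * (N : ℝ) ^ (6 * δ) * (√T * (N : ℝ) ^ 3)

def B3Stmt : Prop := ∀ ε : ℝ, 0 < ε → ∃ K : ℝ, 0 < K ∧ ∀ N T : ℕ, 1 ≤ N → N ≤ T →
  T ^ 44 ≤ N ^ 53 → ∀ b : ℕ → ℂ, (∀ n, ‖b n‖ ≤ 1) → ∀ V : ℝ, 0 < V →
    Mass N b (Icc 0 (T : ℤ)) V ≤ K * (N : ℝ) ^ ε * ((N : ℝ) ^ 2 + √T * (N : ℝ) ^ 3 / V ^ 2)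

def Int2Stmt : Prop := ∀ ε : ℝ, 0 < ε → ∃ K : ℝ, 0 < K ∧ ∀ N T : ℕ, 1 ≤ N → N ≤ T →
  ∀ b : ℕ → ℂ, (∀ n, ‖b n‖ ≤ 1) → ∀ V : ℝ, 0 < V →
    Mass N b (Icc 0 (T : ℤ)) V ≤ K * (N : ℝ) ^ ε *
      ((N : ℝ) ^ 2 + (√T * (N : ℝ) ^ 3 + T * (N : ℝ) ^ (211 / 88 : ℝ)) / V ^ 2)

def Final2Stmt : Prop := ∀ ε : ℝ, 0 < ε → ∃ K : ℝ, ∀ (N : ℕ) (T V : ℝ), 1 ≤ N → (N : ℝ) ≤ T →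
  0 < V → ∀ b : ℕ → ℂ, (∀ n, ‖b n‖ ≤ 1) → ∀ W : Finset ℝ, (∀ t ∈ W, 0 ≤ t ∧ t ≤ T) →
    (∀ s ∈ W, ∀ t ∈ W, s ≠ t → 1 ≤ |s - t|) → (∀ t ∈ W, V ≤ ‖DP N b t‖) →
    (W.card : ℝ) ≤ K * (N : ℝ) ^ ε * ((N : ℝ) ^ 2 / V ^ 2 + √T * (N : ℝ) ^ 3 / V ^ 4 +
      T * (N : ℝ) ^ (211 / 88 : ℝ) / V ^ 4)

lemma mem_Io {L : ℕ} {t : ℤ} : t ∈ Io L ↔ -(L : ℤ) < t ∧ t < L := mem_Ioo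

lemma DivB_mono {X X' : ℕ} {Δ : ℝ} (h : DivB X Δ) (hX : X' ≤ X) : DivB X' Δ :=
  ⟨h.1, fun n hn => h.2 n (hn.trans hX)⟩

/-- a divisor bound controls the logarithm -/
lemma DivB_log {X Y : ℕ} {Δ : ℝ} (h : DivB X Δ) (hY : Y ≤ X) : (Nat.log 2 Y : ℝ) + 1 ≤ Δ := by
  rcases Nat.eq_zero_or_pos Y with rfl | h0
  · simpa using h.1
  have h1 := h.2 _ ((Nat.pow_log_le_self 2 h0.ne').trans hY)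
  rw [Nat.divisors_prime_pow Nat.prime_two, card_map, card_range] at h1
  exact_mod_cast h1

lemma N2_nonneg (D : Finset ℤ) (u : ℤ → ℂ) : 0 ≤ N2 D u := sum_nonneg fun _ _ => sq_nonneg _

lemma Hf_nonneg (s : Finset ℤ) (g : ℤ → ℝ) (S₁ S₂ S₃ : Finset ℕ) (γ : ℕ → ℂ) (z w : ℝ) :
    0 ≤ Hf s g S₁ S₂ S₃ γ z w :=
  sum_nonneg fun _ _ => sum_nonneg fun _ _ => mul_nonneg (norm_nonneg _) (norm_nonneg _)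

lemma continuousOn_FT_comp {α : Type*} [TopologicalSpace α] (s : Finset ℤ) (g : ℤ → ℝ)
    {f : α → ℝ} {U : Set α} (hf : ContinuousOn f U) (h0 : ∀ p ∈ U, 0 < f p) :
    ContinuousOn (fun p => FT s g (f p)) U :=
  (continuousOn_FT s g).comp hf h0

lemma continuousOn_Inn {α : Type*} [TopologicalSpace α] (s : Finset ℤ) (g : ℤ → ℝ)
    {S₃ : Finset ℕ} (h3 : ∀ n ∈ S₃, 1 ≤ n) (γ : ℕ → ℂ) {z w : α → ℝ} {U : Set α}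
    (hz : ContinuousOn z U) (hw : ContinuousOn w U) (z0 : ∀ p ∈ U, 0 < z p)
    (w0 : ∀ p ∈ U, 0 < w p) {n₁ n₂ : ℕ} (h1 : 1 ≤ n₁) (h2 : 1 ≤ n₂) :
    ContinuousOn (fun p => Inn s g S₃ γ (z p) (w p) n₁ n₂) U := by
  unfold Inn
  refine continuousOn_finsetSum _ fun n hn => ?_
  have a0 : (0 : ℝ) < n := by exact_mod_cast h3 n hn
  have a1 : (0 : ℝ) < n₁ := by exact_mod_cast h1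
  have a2 : (0 : ℝ) < n₂ := by exact_mod_cast h2
  refine (continuousOn_const.mul (continuousOn_FT_comp s g
    ((hz.mul continuousOn_const).div_const _) fun p hp => ?_)).mul (continuousOn_FT_comp s g
    (continuousOn_const.div (hw.mul continuousOn_const) fun p hp => ?_) fun p hp => ?_)
  · exact div_pos (mul_pos (z0 p hp) a0) a1
  · exact (mul_pos (w0 p hp) a0).ne'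
  · exact div_pos a2 (mul_pos (w0 p hp) a0)

lemma continuousOn_Hf {α : Type*} [TopologicalSpace α] (s : Finset ℤ) (g : ℤ → ℝ)
    {S₁ S₂ S₃ : Finset ℕ} (h1 : ∀ n ∈ S₁, 1 ≤ n) (h2 : ∀ n ∈ S₂, 1 ≤ n) (h3 : ∀ n ∈ S₃, 1 ≤ n)
    (γ : ℕ → ℂ) {z w : α → ℝ} {U : Set α} (hz : ContinuousOn z U) (hw : ContinuousOn w U)
    (z0 : ∀ p ∈ U, 0 < z p) (w0 : ∀ p ∈ U, 0 < w p) :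
    ContinuousOn (fun p => Hf s g S₁ S₂ S₃ γ (z p) (w p)) U := by
  unfold Hf
  refine continuousOn_finsetSum _ fun n₁ a => continuousOn_finsetSum _ fun n₂ b => ?_
  have a1 : (0 : ℝ) < n₁ := by exact_mod_cast h1 n₁ a
  have a2 : (0 : ℝ) < n₂ := by exact_mod_cast h2 n₂ b
  refine (continuousOn_FT_comp s g (((hw.div hz fun p hp => (z0 p hp).ne').mul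
    continuousOn_const).div_const _) fun p hp => ?_).norm.mul
    (continuousOn_Inn s g h3 γ hz hw z0 w0 (h1 n₁ a) (h2 n₂ b)).norm
  exact div_pos (mul_pos (div_pos (w0 p hp) (z0 p hp)) a1) a2

lemma Dy.one_le {M : ℕ} {S : Finset ℕ} (h : Dy M S) : ∀ n ∈ S, 1 ≤ n := fun _ hn =>
  h.1.trans (mem_Ico.1 (h.2 hn)).1

lemma Dy.card_le {M : ℕ} {S : Finset ℕ} (h : Dy M S) : S.card ≤ M := by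
  have := card_le_card h.2
  rw [Nat.card_Ico] at this
  omega

lemma Line.pos {a b κ σ z₀ z₁ : ℝ} (h : Line a b κ σ z₀ z₁) {z : ℝ} (hz : z ∈ Set.Icc z₀ z₁) :
    0 < z ∧ 0 < κ + σ * z := by
  obtain ⟨h1, -, h2, -, -, -, -, h3⟩ := h
  obtain ⟨a1, a2⟩ := h3 z hz
  exact ⟨by linarith [a1.1], by linarith [a2.1]⟩

end Pool.Agent.MP_2a1f0e_nt.GM2
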