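import Pool.Agent.MP_2a1f0e_nt.GM2.Defs

set_option autoImplicit false

open Finset

namespace Pool.Agent.MP_2a1f0e_nt.GM2

open GM

lemma reidx_Exp {L : ℕ} {g : ℤ → ℝ} (hg : Sup L g) {a : ℤ} (ha : a ∈ Io L) (F : ℤ → ℂ) :
    ∑ t ∈ Io L, (g t : ℂ) * F t = ∑ ρ ∈ Io (2 * L), (g (a - ρ) : ℂ) * F (a - ρ) := by
  have h1 : ∑ ρ ∈ Io (2 * L), (g (a - ρ) : ℂ) * F (a - ρ) =
      ∑ t ∈ (Io (2 * L)).image (fun ρ => a - ρ), (g t : ℂ) * F t :=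
    (sum_image (f := fun t => (g t : ℂ) * F t) fun x _ y _ h => sub_right_injective h).symm
  rw [h1]
  refine sum_subset (fun t ht => mem_image.2 ⟨a - t, ?_, sub_sub_cancel a t⟩) fun t _ ht => ?_
  · rw [mem_Io] at ha ht ⊢
    push_cast
    omega
  · rw [hg t ht, Complex.ofReal_zero, zero_mul]

lemma base_Exp {L : ℕ} {g : ℤ → ℝ} (hg : Sup L g) {x : ℝ} (hx : x ≠ 0) {n n' : ℕ} (hn : 1 ≤ n)
    (hn' : 1 ≤ n') : FT (Io L) g (x * n) * (starRingEnd ℂ) (FT (Io L) g (x * n')) =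
      ∑ ρ ∈ Io (2 * L), pw x ρ * Fh L g (n, n') ρ := by
  have h0 : (n : ℝ) ≠ 0 := Nat.cast_ne_zero.2 (by omega)
  have h0' : (n' : ℝ) ≠ 0 := Nat.cast_ne_zero.2 (by omega)
  have h1 : (starRingEnd ℂ) (FT (Io L) g (x * n')) =
      ∑ t ∈ Io L, (g t : ℂ) * pw (x * n') (-(t : ℝ)) := by
    rw [FT, map_sum]
    exact sum_congr rfl fun t _ => by rw [map_mul, Complex.conj_ofReal, conj_pw]
  simp only [Fh, mul_sum]
  rw [h1, FT, sum_mul, sum_comm]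
  refine sum_congr rfl fun a ha => ?_
  rw [reidx_Exp hg ha fun t => pw (x * n') (-(t : ℝ)), mul_sum]
  refine sum_congr rfl fun ρ _ => ?_
  have h2 : pw x ρ = pw x a * pw x (-((a : ℝ) - ρ)) := by
    rw [← pw_add]
    congr 1
    ring
  rw [pw_mul hx h0, pw_mul hx h0', h2]
  push_cast
  ring

lemma swap_Exp {α β ι : Type} (T₁ : Finset α) (T₂ : Finset β) (I : Finset ι) (W₁ : α → ℂ)
    (W₂ : β → ℂ) (c : ι → ℂ) (A : ι → α → ℂ) (B : ι → β → ℂ) :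
    ∑ a ∈ T₁, ∑ b ∈ T₂, W₁ a * W₂ b * ∑ i ∈ I, c i * (A i a * B i b) =
      ∑ i ∈ I, c i * ((∑ a ∈ T₁, W₁ a * A i a) * ∑ b ∈ T₂, W₂ b * B i b) := by
  simp only [sum_mul_sum]
  simp only [mul_sum]
  refine Eq.trans (sum_congr rfl fun a _ => sum_comm.trans ?_) sum_comm
  exact sum_congr rfl fun i _ => sum_congr rfl fun b _ => by ring

lemma kk_Exp (M : ℕ) (D : Finset ℤ) (c : ℤ → ℂ) (e : ℤ → ℝ) :
    ∑ n ∈ Icc 1 (3 * M), (Wt ((n : ℝ) / M) : ℂ) * ∑ ρ ∈ D, c ρ * pw (n : ℝ) (e ρ) =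
      ∑ ρ ∈ D, c ρ * KK M (e ρ) := by
  simp only [KK, mul_sum]
  rw [sum_comm]
  exact sum_congr rfl fun ρ _ => sum_congr rfl fun n _ => by ring

lemma inn_Exp {L : ℕ} {g : ℤ → ℝ} (hg : Sup L g) {S : Finset ℕ} (hS : ∀ n ∈ S, 1 ≤ n)
    (γ : ℕ → ℂ) {z w : ℝ} (hz : z ≠ 0) (hw : w ≠ 0) {n₁ n₂ : ℕ} (h1 : 1 ≤ n₁) (h2 : 1 ≤ n₂) :
    ((‖Inn (Io L) g S γ z w n₁ n₂‖ ^ 2 : ℝ) : ℂ) = ∑ i ∈ S ×ˢ S,
      γ i.1 * (starRingEnd ℂ) (γ i.2) *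
        ((∑ ρ ∈ Io (2 * L), pw z ρ * Fh L g i ρ * pw (n₁ : ℝ) (-(ρ : ℝ))) *
          ∑ ρ ∈ Io (2 * L), pw w (-(ρ : ℝ)) * (starRingEnd ℂ) (Fh L g i ρ) * pw (n₂ : ℝ) ρ) := by
  have a1 : (n₁ : ℝ) ≠ 0 := Nat.cast_ne_zero.2 (by omega)
  have a2 : (n₂ : ℝ) ≠ 0 := Nat.cast_ne_zero.2 (by omega)
  rw [Complex.ofReal_pow, ← Complex.mul_conj', Inn, map_sum, sum_mul_sum, sum_product]
  refine sum_congr rfl fun n hn => sum_congr rfl fun n' hn' => ?_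
  have e1 : ∀ m : ℕ, z * m / n₁ = z / n₁ * m := fun m => by ring
  have e2 : ∀ m : ℕ, FT (Io L) g (n₂ / (w * m)) =
      (starRingEnd ℂ) (FT (Io L) g (w / n₂ * m)) := fun m => by
    rw [conj_FT, div_mul_eq_mul_div, inv_div]
  have b1 := base_Exp hg (div_ne_zero hz a1) (hS n hn) (hS n' hn')
  have b2 := congrArg (starRingEnd ℂ) (base_Exp hg (div_ne_zero hw a2) (hS n hn) (hS n' hn'))
  have c1 : ∑ ρ ∈ Io (2 * L), pw z ρ * Fh L g (n, n') ρ * pw (n₁ : ℝ) (-(ρ : ℝ)) =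
      ∑ ρ ∈ Io (2 * L), pw (z / n₁) ρ * Fh L g (n, n') ρ :=
    sum_congr rfl fun ρ _ => by rw [pw_div hz a1]; ring
  have c2 : ∑ ρ ∈ Io (2 * L), pw w (-(ρ : ℝ)) * (starRingEnd ℂ) (Fh L g (n, n') ρ) *
      pw (n₂ : ℝ) ρ = (starRingEnd ℂ) (∑ ρ ∈ Io (2 * L), pw (w / n₂) ρ * Fh L g (n, n') ρ) := by
    rw [map_sum]
    exact sum_congr rfl fun ρ _ => by rw [map_mul, conj_pw, pw_div hw a2, neg_neg]; ring
  rw [c1, c2, ← b1, ← b2, e1, e1, e2, e2]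
  simp only [map_mul]
  ring

lemma point_Exp {L : ℕ} {g : ℤ → ℝ} (hg : Sup L g) {S : Finset ℕ} (hS : ∀ n ∈ S, 1 ≤ n)
    (γ : ℕ → ℂ) (M₁ M₂ : ℕ) {z w : ℝ} (hz : z ≠ 0) (hw : w ≠ 0) :
    ((∑ n₁ ∈ Icc 1 (3 * M₁), ∑ n₂ ∈ Icc 1 (3 * M₂), Wt ((n₁ : ℝ) / M₁) * Wt ((n₂ : ℝ) / M₂) *
      ‖Inn (Io L) g S γ z w n₁ n₂‖ ^ 2 : ℝ) : ℂ) = ∑ i ∈ S ×ˢ S,
      γ i.1 * (starRingEnd ℂ) (γ i.2) * ∑ ρ₁ ∈ Io (2 * L), ∑ ρ₂ ∈ Io (2 * L),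
        Fh L g i ρ₁ * KK M₁ (-(ρ₁ : ℝ)) * ((starRingEnd ℂ) (Fh L g i ρ₂) * KK M₂ ρ₂) *
          (pw z ρ₁ * pw w (-(ρ₂ : ℝ))) := by
  simp only [Complex.ofReal_sum, Complex.ofReal_mul]
  rw [sum_congr rfl fun n₁ h1 => sum_congr rfl fun n₂ h2 => by
    rw [inn_Exp hg hS γ hz hw (mem_Icc.1 h1).1 (mem_Icc.1 h2).1], swap_Exp]
  refine sum_congr rfl fun i _ => ?_
  rw [kk_Exp, kk_Exp, sum_mul_sum]
  exact congrArg _ (sum_congr rfl fun ρ₁ _ => sum_congr rfl fun ρ₂ _ => by ring)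

lemma int_Exp {ι : Type} (s : Finset ι) {a b : ℝ} (f : ι → ℝ → ℂ)
    (h : ∀ i, ContinuousOn (f i) (Set.uIcc a b)) :
    ∫ z in a..b, ∑ i ∈ s, f i z = ∑ i ∈ s, ∫ z in a..b, f i z :=
  intervalIntegral.integral_finsetSum fun i _ => (h i).intervalIntegrable

theorem exp_stmt : ExpStmt := by
  intro a b κ σ z₀ z₁ L M₁ M₂ S γ g hl hg hS hγ
  have hu : Set.uIcc z₀ z₁ = Set.Icc z₀ z₁ := Set.uIcc_of_le hl.2.2.2.2.2.2.1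
  have hE : ∀ (c : ℂ) (ρ₁ ρ₂ : ℝ), ContinuousOn (fun z => c * (pw z ρ₁ * pw (κ + σ * z) ρ₂))
      (Set.uIcc z₀ z₁) := fun c ρ₁ ρ₂ => by
    rw [hu]
    exact continuousOn_const.mul (((continuousOn_pw ρ₁).mono fun z hz => (hl.pos hz).1).mul
      ((continuousOn_pw ρ₂).comp (f := fun z => κ + σ * z) (by fun_prop)
        fun z hz => (hl.pos hz).2))
  have key : ((I2 (Io L) g M₁ M₂ S γ κ σ z₀ z₁ : ℝ) : ℂ) = ∑ i ∈ S ×ˢ S,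
      γ i.1 * (starRingEnd ℂ) (γ i.2) * Bf (2 * L) M₁ M₂ κ σ z₀ z₁ (Fh L g i) := by
    rw [I2, ← intervalIntegral.integral_ofReal, intervalIntegral.integral_congr fun z hz =>
      point_Exp hg hS γ M₁ M₂ (hl.pos (hu ▸ hz)).1.ne' (hl.pos (hu ▸ hz)).2.ne']
    refine (int_Exp _ _ fun i => ?_).trans (sum_congr rfl fun i _ => ?_)
    · exact continuousOn_const.mul (continuousOn_finsetSum _ fun ρ₁ _ =>
        continuousOn_finsetSum _ fun ρ₂ _ => hE _ _ _)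
    rw [intervalIntegral.integral_const_mul, Bf, Bil]
    refine congrArg _ ((int_Exp _ _ fun ρ₁ => ?_).trans (sum_congr rfl fun ρ₁ _ => ?_))
    · exact continuousOn_finsetSum _ fun ρ₂ _ => hE _ _ _
    exact (int_Exp _ _ fun ρ₂ => hE _ _ _).trans
      (sum_congr rfl fun ρ₂ _ => intervalIntegral.integral_const_mul _ _)
  refine (le_abs_self _).trans ?_
  rw [← Real.norm_eq_abs, ← Complex.norm_real, key]
  refine (norm_sum_le _ _).trans (sum_le_sum fun i hi => ?_)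
  rw [norm_mul, norm_mul, Complex.norm_conj]
  exact mul_le_of_le_one_left (norm_nonneg _)
    (mul_le_one₀ (hγ _ (mem_product.1 hi).1) (norm_nonneg _) (hγ _ (mem_product.1 hi).2))

end Pool.Agent.MP_2a1f0e_nt.GM2
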