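import Pool.Agent.MP_2a1f0e_nt.GM2.Defs

set_option autoImplicit false

open Finset

namespace Pool.Agent.MP_2a1f0e_nt.GM2

open GM

lemma KK_eq_Far {M : ℕ} (hM : 1 ≤ M) (u : ℝ) : KK M u =
    ∑ n ∈ (Icc 1 (3 * M)).filter (fun n => 3 * M ≤ 4 * n),
      (Wt ((n : ℝ) / M) : ℂ) * pw (n : ℝ) u := by
  unfold KK
  refine (sum_filter_of_ne fun n _ hn => ?_).symm
  by_contra h
  have h1 : (4 * n : ℝ) ≤ 3 * M := by exact_mod_cast (not_le.1 h).le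
  have h2 : (0 : ℝ) < M := by exact_mod_cast hM
  rw [Wt_eq_zero (Or.inl (by rw [div_le_iff₀ h2]; linarith))] at hn
  simp at hn

lemma mom_Far (h : MomStmt) : ∃ C : ℝ, 0 < C ∧ ∀ (y Δ : ℝ) (M X k P : ℕ), 1 ≤ y → 1 ≤ M →
    (M : ℝ) ≤ y ^ 6 → 729 * y ^ 36 ≤ X → DivB X Δ → 1 ≤ k → k ≤ 5 →
    ∑ ρ ∈ Icc (-(P : ℤ)) P, ‖KK M ρ‖ ^ (2 * k) ≤
      C * Δ ^ 6 * ((P + 243 * (y ^ (2 * k)) ^ 3) * (243 * (y ^ (2 * k)) ^ 3)) := by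
  obtain ⟨C, hC, h⟩ := h
  refine ⟨C, hC, fun y Δ M X k P hy hM hMy hX hD k1 k5 => ?_⟩
  have hΔ : 0 ≤ Δ := zero_le_one.trans hD.1
  have e1 : ((3 * M : ℕ) : ℝ) ^ k ≤ 243 * (y ^ (2 * k)) ^ 3 := by
    have h3 : (3 : ℝ) ^ k ≤ 3 ^ 5 := pow_le_pow_right₀ (by norm_num) k5
    calc ((3 * M : ℕ) : ℝ) ^ k = 3 ^ k * (M : ℝ) ^ k := by push_cast; rw [mul_pow]
      _ ≤ 3 ^ 5 * (y ^ 6) ^ k := by gcongr
      _ = 243 * (y ^ (2 * k)) ^ 3 := by rw [← pow_mul, ← pow_mul]; ring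
  have e2 : (3 * M) ^ k ≤ X := by
    have h3 : (y ^ (2 * k)) ^ 3 ≤ y ^ 36 := by
      rw [← pow_mul]
      exact pow_le_pow_right₀ hy (by omega)
    have h4 : 0 ≤ y ^ 36 := by positivity
    have h5 : ((3 * M : ℕ) : ℝ) ^ k ≤ X := by linarith
    exact_mod_cast h5
  simp only [KK_eq_Far hM]
  refine (h k (3 * M) P X Δ _ (fun n => (Wt ((n : ℝ) / M) : ℂ)) k1 (by omega) (fun n _ => ?_)
    (fun n hn => ?_) e2 hD).trans (by gcongr)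
  · rw [Complex.norm_real, Real.norm_of_nonneg (Wt_nonneg _)]
    exact Wt_le_one _
  · rw [mem_filter, mem_Icc] at hn
    exact ⟨hn.1.1, hn.1.2, hn.2⟩

lemma piece_Far (a b : ℤ → ℝ) (ha : ∀ ρ, 0 ≤ a ρ) (hb : ∀ ρ, 0 ≤ b ρ) (I : Finset ℤ)
    (F : Finset (ℤ × ℤ)) (k : ℕ) (P q lam D : ℝ) (hk : 1 ≤ k) (hq : 0 < q) (hl : 0 < lam)
    (h1 : q ^ 10 ≤ lam ^ (2 * k)) (h2 : q ^ 2 ≤ 2 * P) (h3 : P ≤ 8 * q ^ 4)
    (hA : ∑ ρ ∈ I, a ρ ^ (2 * k) ≤ D * ((2 * P + 243 * q ^ 3) * (243 * q ^ 3)))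
    (hB : ∑ ρ ∈ I, b ρ ^ (2 * k) ≤ D * ((2 * P + 243 * q ^ 3) * (243 * q ^ 3)))
    (hF : ∀ p ∈ F, p ∈ I ×ˢ I ∧ lam < a p.1 * b p.2 ∧ P ≤ 1 + |(p.1 : ℝ)| + |(p.2 : ℝ)|) :
    ∑ p ∈ F, (a p.1 * b p.2) ^ 2 / (1 + |(p.1 : ℝ)| + |(p.2 : ℝ)|) ≤
      243 ^ 2 * (64 + 4 * 243 ^ 2) * D ^ 2 * lam ^ 2 := by
  have hP : 0 < P := by nlinarith [pow_pos hq 2]
  have hA0 : 0 ≤ ∑ ρ ∈ I, a ρ ^ (2 * k) := sum_nonneg fun ρ _ => pow_nonneg (ha ρ) _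
  have hB0 : 0 ≤ ∑ ρ ∈ I, b ρ ^ (2 * k) := sum_nonneg fun ρ _ => pow_nonneg (hb ρ) _
  have h4 : (2 * P + 243 * q ^ 3) ^ 2 ≤ (64 + 4 * 243 ^ 2) * (q ^ 4 * P) := by
    have h5 := mul_le_mul_of_nonneg_right h3 hP.le
    have h6 := mul_le_mul_of_nonneg_left h2 (pow_pos hq 4).le
    nlinarith [sq_nonneg (2 * P - 243 * q ^ 3)]
  calc _ ≤ ∑ p ∈ F, lam ^ 2 / (q ^ 10 * P) * (a p.1 ^ (2 * k) * b p.2 ^ (2 * k)) := by
        refine sum_le_sum fun p hp => ?_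
        obtain ⟨-, h5, h6⟩ := hF p hp
        rw [← mul_pow]
        generalize a p.1 * b p.2 = t at h5
        have h7 : (t / lam) ^ 2 ≤ (t / lam) ^ (2 * k) :=
          pow_le_pow_right₀ ((one_le_div hl).2 h5.le) (by omega)
        have ht : 0 < t := hl.trans h5
        calc t ^ 2 / (1 + |(p.1 : ℝ)| + |(p.2 : ℝ)|) ≤ t ^ 2 / P := by gcongr
          _ = lam ^ 2 / P * (t / lam) ^ 2 := by field_simp
          _ ≤ lam ^ 2 / P * (t ^ (2 * k) / lam ^ (2 * k)) := by rw [← div_pow t]; gcongr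
          _ ≤ lam ^ 2 / P * (t ^ (2 * k) / q ^ 10) := by gcongr
          _ = _ := by field_simp
    _ ≤ ∑ p ∈ I ×ˢ I, lam ^ 2 / (q ^ 10 * P) * (a p.1 ^ (2 * k) * b p.2 ^ (2 * k)) :=
        sum_le_sum_of_subset_of_nonneg (fun p hp => (hF p hp).1) fun p _ _ => by
          have := ha p.1
          have := hb p.2
          positivity
    _ = lam ^ 2 / (q ^ 10 * P) * ((∑ ρ ∈ I, a ρ ^ (2 * k)) * ∑ ρ ∈ I, b ρ ^ (2 * k)) := by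
        rw [← mul_sum, sum_mul_sum, sum_product]
    _ ≤ lam ^ 2 / (q ^ 10 * P) * (D * ((2 * P + 243 * q ^ 3) * (243 * q ^ 3)) *
          (D * ((2 * P + 243 * q ^ 3) * (243 * q ^ 3)))) :=
        mul_le_mul_of_nonneg_left (mul_le_mul hA hB hB0 (hA0.trans hA)) (by positivity)
    _ = 243 ^ 2 * D ^ 2 * lam ^ 2 / (q ^ 4 * P) * (2 * P + 243 * q ^ 3) ^ 2 := by field_simp
    _ ≤ 243 ^ 2 * D ^ 2 * lam ^ 2 / (q ^ 4 * P) * ((64 + 4 * 243 ^ 2) * (q ^ 4 * P)) := by gcongr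
    _ = _ := by field_simp

lemma choose_Far {y P : ℝ} (hy : 1 ≤ y) (h1 : y ^ 4 ≤ 2 * P) (h2 : P ≤ 8 * y ^ 36) :
    ∃ k : ℕ, 1 ≤ k ∧ k ≤ 5 ∧ (y ^ (2 * k)) ^ 2 ≤ 2 * P ∧ P ≤ 8 * (y ^ (2 * k)) ^ 4 := by
  have h0 : ∀ n, 0 ≤ y ^ n := fun n => by positivity
  have h3 : y ^ 20 ≤ y ^ 32 := pow_le_pow_right₀ hy (by norm_num)
  have h4 : y ^ 36 ≤ y ^ 40 := pow_le_pow_right₀ hy (by norm_num)
  simp only [← pow_mul]
  rcases le_total P (y ^ 8) with a | a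
  · exact ⟨1, by norm_num, by norm_num, h1, by norm_num; linarith [h0 8]⟩
  rcases le_total P (y ^ 16) with b | b
  · exact ⟨2, by norm_num, by norm_num, by norm_num; linarith [h0 8],
      by norm_num; linarith [h0 16]⟩
  rcases le_total P (y ^ 32) with c | c
  · exact ⟨4, by norm_num, by norm_num, by norm_num; linarith [h0 16],
      by norm_num; linarith [h0 32]⟩
  · exact ⟨5, by norm_num, by norm_num, by norm_num; linarith [h0 32], by norm_num; linarith⟩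

theorem far_stmt (h : MomStmt) : FarStmt := by
  obtain ⟨C, hC, h⟩ := mom_Far h
  refine ⟨243 ^ 2 * (64 + 4 * 243 ^ 2) * C ^ 2, by positivity,
    fun y lam Δ M₁ M₂ R X hy m1 m2 m3 m4 hR hX hD hl => ?_⟩
  have hn : ∀ u : ℝ, ‖KK M₁ (-u)‖ = ‖KK M₁ u‖ := fun u => by
    rw [← conj_KK, Complex.norm_conj]
  have hy0 : 0 < y := by linarith
  have hl0 : 0 < lam := (pow_pos hy0 10).trans_le hl
  have hc : ∀ p : ℤ × ℤ, ((max p.1.natAbs p.2.natAbs : ℕ) : ℝ) = max |(p.1 : ℝ)| |(p.2 : ℝ)| :=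
    fun p => by rw [Nat.cast_max, Nat.cast_natAbs, Nat.cast_natAbs, Int.cast_abs, Int.cast_abs]
  have hm : ∀ p ∈ Io R ×ˢ Io R, max p.1.natAbs p.2.natAbs ≤ R := fun p hp => by
    rw [mem_product, mem_Io, mem_Io] at hp
    omega
  have hRX : R ≤ X := by
    have : (R : ℝ) ≤ X := by linarith [pow_pos hy0 36]
    exact_mod_cast this
  simp only [hn]
  rw [← sum_product', ← sum_filter, ← sum_fiberwise_of_maps_to (t := range (Nat.log 2 X + 1))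
    (g := fun p : ℤ × ℤ => Nat.log 2 (max p.1.natAbs p.2.natAbs)) fun p hp =>
      mem_range.2 (Nat.lt_succ_of_le (Nat.log_mono_right ((hm p (mem_filter.1 hp).1).trans hRX)))]
  refine (sum_le_card_nsmul _ _ (243 ^ 2 * (64 + 4 * 243 ^ 2) * (C * Δ ^ 6) ^ 2 * lam ^ 2)
    fun j _ => ?_).trans ?_
  swap
  · rw [card_range, nsmul_eq_mul, Nat.cast_succ]
    exact (mul_le_mul_of_nonneg_right (DivB_log hD le_rfl) (by positivity)).trans_eq (by ring)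
  set F := ((Io R ×ˢ Io R).filter fun p : ℤ × ℤ => lam < ‖KK M₁ p.1‖ * ‖KK M₂ p.2‖ ∧
    y ^ 4 ≤ max |(p.1 : ℝ)| |(p.2 : ℝ)|).filter
      fun p : ℤ × ℤ => Nat.log 2 (max p.1.natAbs p.2.natAbs) = j with hF
  have key : ∀ p ∈ F, p ∈ Io R ×ˢ Io R ∧ lam < ‖KK M₁ p.1‖ * ‖KK M₂ p.2‖ ∧
      y ^ 4 ≤ max |(p.1 : ℝ)| |(p.2 : ℝ)| ∧ 2 ^ j ≤ max p.1.natAbs p.2.natAbs ∧
      max p.1.natAbs p.2.natAbs < 2 * 2 ^ j := fun p hp => by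
    rw [hF, mem_filter, mem_filter] at hp
    obtain ⟨⟨p1, p2, p3⟩, rfl⟩ := hp
    refine ⟨p1, p2, p3, Nat.pow_log_le_self 2 fun e => ?_, ?_⟩
    · rw [← hc, e, Nat.cast_zero] at p3
      exact absurd (pow_pos hy0 4) (not_lt.2 p3)
    · rw [← pow_succ']
      exact Nat.lt_pow_succ_log_self (by norm_num) _
  rcases F.eq_empty_or_nonempty with e | ⟨p₀, hp₀⟩
  · rw [e, sum_empty]
    positivity
  obtain ⟨q1, -, q3, q4, q5⟩ := key p₀ hp₀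
  obtain ⟨k, k1, k5, k2, k3⟩ := choose_Far (P := (2 ^ j : ℕ)) hy
    (by rw [← hc] at q3; exact q3.trans (by exact_mod_cast q5.le))
    (le_trans (by exact_mod_cast q4.trans (hm p₀ q1)) hR)
  have hA := h y Δ M₁ X k (2 * 2 ^ j) hy m1 m2 hX hD k1 k5
  have hB := h y Δ M₂ X k (2 * 2 ^ j) hy m3 m4 hX hD k1 k5
  rw [Nat.cast_mul (α := ℝ), Nat.cast_ofNat] at hA hB
  refine piece_Far (fun ρ => ‖KK M₁ ρ‖) (fun ρ => ‖KK M₂ ρ‖) (fun _ => norm_nonneg _)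
    (fun _ => norm_nonneg _) _ F k _ _ lam _ k1 (by positivity) hl0 ?_ k2 k3 hA hB fun p hp => ?_
  · rw [← pow_mul, mul_comm, pow_mul]
    gcongr
  · obtain ⟨-, p2, -, p4, p5⟩ := key p hp
    refine ⟨?_, p2, ?_⟩
    · rw [mem_product, mem_Icc, mem_Icc]
      omega
    · have p6 : ((2 ^ j : ℕ) : ℝ) ≤ max |(p.1 : ℝ)| |(p.2 : ℝ)| := by
        rw [← hc]
        exact_mod_cast p4
      have := abs_nonneg (p.1 : ℝ)
      have := abs_nonneg (p.2 : ℝ)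
      exact p6.trans (max_le (by linarith) (by linarith))

end Pool.Agent.MP_2a1f0e_nt.GM2
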