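import Pool.Agent.MP_2a1f0e_nt.GM2.Defs

set_option autoImplicit false

open Finset

namespace Pool.Agent.MP_2a1f0e_nt.GM2

open GM

open scoped FourierTransform

lemma exp_ge_Fou {y : ℝ} (hy : 1 ≤ y) : 64 ≤ Real.exp (2 * Real.pi * y) := by
  have h1 : 2 ≤ Real.exp 1 := by linarith [Real.add_one_le_exp 1]
  have h2 : ((6 : ℕ) : ℝ) * 1 ≤ 2 * Real.pi * y := by
    push_cast
    nlinarith [Real.pi_gt_three]
  calc (64 : ℝ) = 2 ^ 6 := by norm_num
    _ ≤ Real.exp 1 ^ 6 := pow_le_pow_left₀ (by norm_num) h1 6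
    _ = Real.exp ((6 : ℕ) * 1) := (Real.exp_nat_mul 1 6).symm
    _ ≤ _ := Real.exp_le_exp.2 h2

lemma Wt_exp_Fou {t y : ℝ} (ht : t ∈ Set.Icc (1 / 16 : ℝ) 27) (hy : 1 ≤ y ∨ y ≤ -1) :
    Wt (t * Real.exp (2 * Real.pi * y)) = 0 := by
  obtain ⟨h0, h1⟩ := ht
  rcases hy with hy | hy
  · exact Wt_eq_zero (Or.inr (by nlinarith [exp_ge_Fou hy]))
  · have h2 := exp_ge_Fou (y := -y) (by linarith)
    have h3 : Real.exp (2 * Real.pi * y) * Real.exp (2 * Real.pi * -y) = 1 := by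
      rw [← Real.exp_add]
      simp
    have h4 := Real.exp_pos (2 * Real.pi * y)
    have h5 : Real.exp (2 * Real.pi * y) ≤ 1 / 64 := by nlinarith
    exact Wt_eq_zero (Or.inl (by nlinarith))

lemma exists_schwartz_Fou : ∃ f : SchwartzMap ℝ ℂ,
    ∀ y, f y = (Wt (Real.exp (2 * Real.pi * y)) : ℂ) := by
  have h1 : HasCompactSupport fun y : ℝ => (Wt (Real.exp (2 * Real.pi * y)) : ℂ) :=
    HasCompactSupport.intro (isCompact_Icc (a := (-1 : ℝ)) (b := 1)) fun y hy => by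
      have := Wt_exp_Fou (t := 1) (y := y) ⟨by norm_num, by norm_num⟩ (by
        by_contra h
        push Not at h
        exact hy ⟨h.2.le, h.1.le⟩)
      rw [one_mul] at this
      rw [this, Complex.ofReal_zero]
  have h2 : ContDiff ℝ (⊤ : ℕ∞) fun y : ℝ => (Wt (Real.exp (2 * Real.pi * y)) : ℂ) :=
    Complex.ofRealCLM.contDiff.comp (contDiff_Wt.comp
      (Real.contDiff_exp.comp (contDiff_const.mul contDiff_id)))
  exact ⟨h1.toSchwartzMap h2, fun _ => rfl⟩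

lemma summable_Fou (g : SchwartzMap ℝ ℂ) :
    Summable fun k : ℤ => ‖g k‖ * (1 + |(k : ℝ)|) ^ 2 := by
  obtain ⟨C, hC⟩ : ∃ C : ℝ, ∀ x : ℝ, (1 + |x|) ^ 4 * ‖g x‖ ≤ C :=
    ⟨_, fun x => by
      simpa only [norm_iteratedFDeriv_zero, Real.norm_eq_abs] using
        SchwartzMap.one_add_le_sup_seminorm_apply (𝕜 := ℝ) (m := (4, 0)) (k := 4) (n := 0)
          le_rfl le_rfl g x⟩
  have hk : Summable fun k : ℤ => kp (k : ℝ) := by
    refine summable_of_sum_le (c := 2 + 4 * 1) (fun k => (kp_pos _).le) fun s => ?_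
    simpa only [sub_zero, div_one] using sum_kp_sep s (fun k : ℤ => (k : ℝ))
      (fun i _ j _ h => by
        rw [← Int.cast_sub, ← Int.cast_abs]
        exact_mod_cast Int.one_le_abs (sub_ne_zero.2 h)) 0 one_pos
  refine Summable.of_nonneg_of_le (fun k => by positivity) (fun k => ?_) (hk.mul_left C)
  rw [kp, mul_one_div, le_div_iff₀ (by positivity)]
  refine le_trans ?_ (hC k)
  have h1 : 1 + (k : ℝ) ^ 2 ≤ (1 + |(k : ℝ)|) ^ 2 := by
    rw [← sq_abs]
    nlinarith [abs_nonneg (k : ℝ)]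
  calc ‖g k‖ * (1 + |(k : ℝ)|) ^ 2 * (1 + (k : ℝ) ^ 2)
      ≤ ‖g k‖ * (1 + |(k : ℝ)|) ^ 2 * (1 + |(k : ℝ)|) ^ 2 := by gcongr
    _ = _ := by ring

theorem fou_stmt : FouStmt := by
  obtain ⟨f, hf⟩ := exists_schwartz_Fou
  have hs := summable_Fou (𝓕 f)
  refine ⟨fun k => 𝓕 f k, hs, fun t ht => ?_⟩
  have t0 : 0 < t := by linarith [ht.1]
  have h1 : Summable fun k : ℤ => 𝓕 f k * pw t k := by
    refine Summable.of_norm_bounded hs fun k => ?_
    rw [norm_mul, norm_pw]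
    exact mul_le_mul_of_nonneg_left (one_le_pow₀ (by linarith [abs_nonneg (k : ℝ)]))
      (norm_nonneg _)
  have h2 := f.tsum_eq_tsum_fourier (Real.log t / (2 * Real.pi))
  have h3 : ∀ y : ℝ, f (Real.log t / (2 * Real.pi) + y) =
      (Wt (t * Real.exp (2 * Real.pi * y)) : ℂ) := fun y => by
    rw [hf, mul_add, mul_div_cancel₀ _ (by positivity), Real.exp_add, Real.exp_log t0]
  have h4 : ∀ k : ℤ, fourier k ((Real.log t / (2 * Real.pi) : ℝ) : UnitAddCircle) = pw t k := by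
    intro k
    rw [fourier_coe_apply, pw]
    congr 1
    have : (Real.pi : ℂ) ≠ 0 := by exact_mod_cast Real.pi_ne_zero
    push_cast
    field_simp
  simp only [h3, h4] at h2
  rw [tsum_eq_single 0 fun n hn => by
    rw [Wt_exp_Fou ht (by
      rcases lt_or_gt_of_ne hn with h | h
      · exact Or.inr (by exact_mod_cast (by omega : n ≤ -1))
      · exact Or.inl (by exact_mod_cast (by omega : 1 ≤ n))), Complex.ofReal_zero]] at h2
  simp only [Int.cast_zero, mul_zero, Real.exp_zero, mul_one] at h2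
  rw [h2]
  exact h1.hasSum

end Pool.Agent.MP_2a1f0e_nt.GM2
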