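import Pool.Agent.MP_2a1f0e_nt.GM2.Defs

set_option autoImplicit false

open Finset

namespace Pool.Agent.MP_2a1f0e_nt.GM2

open GM

lemma expand_GY (L : ℕ) (g : ℤ → ℝ) (S : Finset ℕ) (ρ : ℤ) :
    ∑ i ∈ S ×ˢ S, ‖Fh L g i ρ‖ ^ 2 = ∑ a ∈ Io L, ∑ b ∈ Io L, g a * g (a - ρ) * (g b * g (b - ρ)) *
      ‖∑ n ∈ S, pw (n : ℝ) ((a - b : ℤ) : ℝ)‖ ^ 2 := by
  apply Complex.ofReal_injective
  simp only [Complex.ofReal_sum, Complex.ofReal_mul (_ * _), Complex.ofReal_pow,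
    ← Complex.mul_conj', Fh, map_sum, sum_mul_sum]
  simp only [mul_sum]
  rw [sum_comm]
  refine sum_congr rfl fun a _ => ?_
  rw [sum_comm]
  refine sum_congr rfl fun b _ => ?_
  rw [sum_product]
  refine sum_congr rfl fun n _ => sum_congr rfl fun m _ => ?_
  have e1 : pw (n : ℝ) ((a - b : ℤ) : ℝ) = pw n a * pw n (-(b : ℝ)) := by
    rw [← pw_add]; push_cast; rfl
  have e2 : pw (m : ℝ) (-((a - b : ℤ) : ℝ)) = pw m (-((a : ℝ) - ρ)) * pw m ((b : ℝ) - ρ) := by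
    rw [← pw_add]; push_cast; ring_nf
  simp only [map_mul, conj_pw, Complex.conj_ofReal, neg_neg, e1, e2]
  ring

lemma reindex_GY {L : ℕ} {f : ℤ → ℝ} (hf : Sup L f) {a : ℤ} (ha : a ∈ Io L) (F : ℤ → ℝ) :
    ∑ b ∈ Io L, f b * F (a - b) = ∑ p ∈ Io (2 * L), f (a - p) * F p := by
  refine sum_of_injOn (fun b => a - b) (fun _ _ _ _ e => sub_right_injective e)
    (fun b hb => ?_) (fun p _ hp => ?_) fun b _ => by rw [sub_sub_cancel]
  · rw [mem_coe, mem_Io] at *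
    push_cast
    omega
  · rw [hf _ fun h => hp ⟨a - p, h, sub_sub_cancel a p⟩, zero_mul]

lemma conv_GY {L : ℕ} {f : ℤ → ℝ} (hf : Sup L f) (F : ℤ → ℝ) :
    ∑ a ∈ Io L, ∑ b ∈ Io L, f a * f b * F (a - b) =
      ∑ p ∈ Io (2 * L), (∑ a ∈ Io L, f a * f (a - p)) * F p := by
  simp only [sum_mul, mul_assoc]
  rw [sum_comm (s := Io (2 * L))]
  refine sum_congr rfl fun a ha => ?_
  rw [← mul_sum, ← mul_sum, reindex_GY hf ha]

lemma shift_GY {L : ℕ} {f : ℤ → ℝ} (hf : Sup L f) (h0 : ∀ t, 0 ≤ f t) {e : ℤ → ℤ}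
    (he : Function.Injective e) (D : Finset ℤ) : ∑ a ∈ D, f (e a) ≤ ∑ t ∈ Io L, f t := by
  rw [← sum_image (f := f) he.injOn,
    sum_subset (subset_union_right (s₁ := D.image e)) fun t _ ht => hf t ht]
  exact sum_le_sum_of_subset_of_nonneg subset_union_left fun t _ _ => h0 t

lemma am_GY {L : ℕ} {f : ℤ → ℝ} (hf : Sup L f) (p : ℤ) :
    ∑ a ∈ Io L, |f a * f (a - p)| ≤ ∑ t ∈ Io L, f t ^ 2 := by
  have h1 := shift_GY (L := L) (f := fun t => f t ^ 2) (fun t ht => by simp [hf t ht])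
    (fun t => sq_nonneg _) (sub_left_injective (b := p)) (Io L)
  have h2 : ∑ a ∈ Io L, |f a * f (a - p)| ≤ ∑ a ∈ Io L, (f a ^ 2 + f (a - p) ^ 2) / 2 :=
    sum_le_sum fun a _ => abs_le.2
      ⟨by nlinarith [sq_nonneg (f a + f (a - p))], by nlinarith [sq_nonneg (f a - f (a - p))]⟩
  rw [← sum_div, sum_add_distrib] at h2
  linarith

lemma holder_GY (D : Finset ℤ) (w T : ℤ → ℝ) {K₁ K₀ Z : ℝ} (hw : ∀ p, 0 ≤ w p) (hT : ∀ p, 0 ≤ T p)
    (h1 : ∑ p ∈ D, w p ≤ K₁) (h0 : ∀ p, w p ≤ K₀) (hZ : ∑ p ∈ D, T p ^ 6 ≤ Z) :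
    (∑ p ∈ D, w p * T p) ^ 6 ≤ K₁ ^ 5 * K₀ * Z := by
  have hW : 0 ≤ ∑ p ∈ D, w p := sum_nonneg fun p _ => hw p
  have hK : 0 ≤ K₀ := (hw 0).trans (h0 0)
  have h2 : (∑ p ∈ D, w p * T p) ^ 6 ≤ (∑ p ∈ D, w p) ^ 5 * ∑ p ∈ D, w p * T p ^ 6 := by
    rcases hW.eq_or_lt with h | h
    · rw [sum_eq_zero fun p hp => by
        rw [(sum_eq_zero_iff_of_nonneg fun p _ => hw p).1 h.symm p hp, zero_mul], ← h]
      simp
    · have h3 := Real.pow_arith_mean_le_arith_mean_pow D (fun p => w p / ∑ p ∈ D, w p) T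
        (fun p _ => div_nonneg (hw p) hW) (by rw [← sum_div, div_self h.ne']) (fun p _ => hT p) 6
      simp only [div_mul_eq_mul_div, ← sum_div] at h3
      rw [div_pow, div_le_iff₀ (pow_pos h 6)] at h3
      refine h3.trans_eq ?_
      field_simp
  have h4 : ∑ p ∈ D, w p * T p ^ 6 ≤ K₀ * Z := by
    refine le_trans ?_ (mul_le_mul_of_nonneg_left hZ hK)
    rw [mul_sum]
    exact sum_le_sum fun p _ => mul_le_mul_of_nonneg_right (h0 p) (pow_nonneg (hT p) 6)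
  rw [mul_assoc]
  exact h2.trans (mul_le_mul (pow_le_pow_left₀ hW h1 5) h4
    (sum_nonneg fun p _ => mul_nonneg (hw p) (pow_nonneg (hT p) 6)) (pow_nonneg (hW.trans h1) 5))

theorem gy_stmt (h : P4Stmt) : GYStmt := by
  intro L g S X θ A Z hg hX hθ hA hZ
  have hX0 : 0 ≤ X := (sum_nonneg fun t _ => sq_nonneg (g t)).trans hX
  have hZ' : ∑ p ∈ Io (2 * L), (‖∑ n ∈ S, pw (n : ℝ) p‖ ^ 2) ^ 6 ≤ Z := by
    simpa only [← pow_mul] using hZ
  refine ⟨fun ρ => ?_, ?_⟩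
  · have hf : Sup L fun a => g a * g (a - ρ) := fun t ht => by simp [hg t ht]
    have h1 : ∑ a ∈ Io L, |g a * g (a - ρ)| ≤ X := (am_GY hg ρ).trans hX
    have h2 := holder_GY (Io (2 * L))
      (fun p => ∑ a ∈ Io L, |g a * g (a - ρ) * (g (a - p) * g (a - p - ρ))|)
      (fun p : ℤ => ‖∑ n ∈ S, pw (n : ℝ) p‖ ^ 2) (K₁ := X ^ 2) (K₀ := θ ^ 2 * X)
      (fun p => sum_nonneg fun _ _ => abs_nonneg _) (fun p => sq_nonneg _) ?_ (fun p => ?_) hZ'
    · refine le_trans (pow_le_pow_left₀ (sum_nonneg fun _ _ => sq_nonneg _) ?_ 6)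
        (h2.trans_eq (by ring))
      rw [expand_GY, conv_GY hf fun p : ℤ => ‖∑ n ∈ S, pw (n : ℝ) p‖ ^ 2]
      exact sum_le_sum fun p _ => mul_le_mul_of_nonneg_right
        (sum_le_sum fun a _ => le_abs_self _) (sq_nonneg _)
    · rw [sum_comm, sq]
      refine le_trans (sum_le_sum fun a _ => ?_)
        ((sum_mul _ _ _).symm.trans_le (mul_le_mul_of_nonneg_right h1 hX0))
      simp only [abs_mul (_ * _), ← mul_sum]
      exact mul_le_mul_of_nonneg_left ((shift_GY (f := fun a => |g a * g (a - ρ)|)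
        (fun t ht => by simp [hg t ht]) (fun _ => abs_nonneg _) (sub_right_injective (b := a))
        _).trans h1) (abs_nonneg _)
    · refine (am_GY hf p).trans (le_trans ?_ (mul_le_mul_of_nonneg_left hX (sq_nonneg θ)))
      rw [mul_sum]
      refine sum_le_sum fun a _ => ?_
      rw [mul_pow, mul_comm]
      exact mul_le_mul_of_nonneg_right (sq_le_sq' (abs_le.1 (hθ _)).1 (abs_le.1 (hθ _)).2)
        (sq_nonneg _)
  · have h2 := holder_GY (Io (2 * L)) (fun p => (∑ a ∈ Io L, g a * g (a - p)) ^ 2)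
      (fun p : ℤ => ‖∑ n ∈ S, pw (n : ℝ) p‖ ^ 2) (K₁ := A ^ 2 * X) (K₀ := X ^ 2)
      (fun p => sq_nonneg _) (fun p => sq_nonneg _)
      ((h L g A _ hg hA).trans (mul_le_mul_of_nonneg_left hX (sq_nonneg A)))
      (fun p => sq_le_sq' (abs_le.1 ((abs_sum_le_sum_abs _ _).trans ((am_GY hg p).trans hX))).1
        (abs_le.1 ((abs_sum_le_sum_abs _ _).trans ((am_GY hg p).trans hX))).2) hZ'
    refine le_trans (le_of_eq ?_) (h2.trans_eq (by ring))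
    congr 1
    simp only [N2, sq (∑ a ∈ Io L, _), mul_assoc (∑ a ∈ Io L, _)]
    rw [sum_comm, ← conv_GY hg fun p : ℤ =>
      (∑ a ∈ Io L, g a * g (a - p)) * ‖∑ n ∈ S, pw (n : ℝ) p‖ ^ 2]
    simp only [expand_GY]
    rw [sum_comm]
    refine sum_congr rfl fun a ha => ?_
    rw [sum_comm]
    refine sum_congr rfl fun b _ => ?_
    have h3 := reindex_GY hg ha fun ρ => g (b - ρ)
    have h4 : ∑ c ∈ Io L, g c * g (c - (a - b)) = ∑ c ∈ Io L, g c * g (b - (a - c)) :=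
      sum_congr rfl fun c _ => by rw [show c - (a - b) = b - (a - c) by ring]
    rw [h4, h3, sum_mul, mul_sum]
    exact sum_congr rfl fun ρ _ => by ring

end Pool.Agent.MP_2a1f0e_nt.GM2
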