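import Pool.Agent.MP_2a1f0e_nt.GM2.Defs

set_option autoImplicit false

open Finset

namespace Pool.Agent.MP_2a1f0e_nt.GM2

open GM

lemma triv_Gam {a b κ σ z₀ z₁ : ℝ} (hl : Line a b κ σ z₀ z₁) (ρ₁ ρ₂ : ℝ) :
    ‖Gam κ σ z₀ z₁ ρ₁ ρ₂‖ ^ 2 ≤ 36 := by
  obtain ⟨a0, a1, -, -, -, -, hz, h⟩ := hl
  have h0 := (h z₀ ⟨le_rfl, hz⟩).1.1
  have h1 := (h z₁ ⟨hz, le_rfl⟩).1.2
  have : ‖Gam κ σ z₀ z₁ ρ₁ ρ₂‖ ≤ 1 * |z₁ - z₀| :=
    intervalIntegral.norm_integral_le_of_norm_le_const fun z _ => by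
      rw [norm_mul, norm_pw, norm_pw, mul_one]
  rw [one_mul, abs_of_nonneg (by linarith)] at this
  have h2 : ‖Gam κ σ z₀ z₁ ρ₁ ρ₂‖ ≤ 6 := by linarith
  nlinarith [norm_nonneg (Gam κ σ z₀ z₁ ρ₁ ρ₂)]

lemma subst_Gam {a b κ σ z₀ z₁ : ℝ} (hl : Line a b κ σ z₀ z₁) (ρ₁ ρ₂ : ℝ) :
    Gam κ σ z₀ z₁ ρ₁ ρ₂ = ∫ x in Real.log z₀..Real.log z₁, ((Real.exp x : ℝ) : ℂ) *
      Complex.exp (Complex.I * ((ρ₁ * x - ρ₂ * Real.log (κ + σ * Real.exp x) : ℝ) : ℂ)) := by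
  have hz : z₀ ≤ z₁ := hl.2.2.2.2.2.2.1
  have p0 := (hl.pos ⟨le_rfl, hz⟩).1
  have p1 := (hl.pos ⟨hz, le_rfl⟩).1
  have hlog : Real.log z₀ ≤ Real.log z₁ := Real.log_le_log p0 hz
  have key := intervalIntegral.integral_deriv_smul_comp' (a := Real.log z₀) (b := Real.log z₁)
    (f := Real.exp) (f' := Real.exp) (g := fun z => pw z ρ₁ * pw (κ + σ * z) (-ρ₂))
    (fun x _ => Real.hasDerivAt_exp x) Real.continuous_exp.continuousOn (by
      have hs : Real.exp '' Set.uIcc (Real.log z₀) (Real.log z₁) ⊆ Set.Icc z₀ z₁ := by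
        rintro _ ⟨x, hx, rfl⟩
        rw [Set.uIcc_of_le hlog] at hx
        exact ⟨(Real.log_le_iff_le_exp p0).1 hx.1, (Real.le_log_iff_exp_le p1).1 hx.2⟩
      refine ContinuousOn.mono ?_ hs
      refine ((continuousOn_pw ρ₁).mono fun z h => (hl.pos h).1).mul ?_
      exact (continuousOn_pw (-ρ₂)).comp (by fun_prop) fun z h => (hl.pos h).2)
  rw [Real.exp_log p0, Real.exp_log p1] at key
  rw [Gam, ← key]
  refine intervalIntegral.integral_congr fun x _ => ?_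
  simp only [Function.comp_apply, Complex.real_smul, pw, Real.log_exp]
  rw [← Complex.exp_add]
  congr 2
  push_cast
  ring

lemma two_Gam (h : VdcStmt) {a b κ σ z₀ z₁ : ℝ} (hl : Line a b κ σ z₀ z₁) (ρ₁ ρ₂ : ℝ) :
    ‖Gam κ σ z₀ z₁ ρ₁ ρ₂‖ ^ 2 * |ρ₂| ≤ 36 * 44 ^ 2 * 432 := by
  rcases eq_or_ne ρ₂ 0 with rfl | r0
  · rw [abs_zero, mul_zero]
    norm_num
  have hr : 0 < |ρ₂| := abs_pos.2 r0
  have hl' := hl
  obtain ⟨a0, a1, b0, b1, hσ, hκ, hz, hb⟩ := hl'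
  have p0 := (hl.pos ⟨le_rfl, hz⟩).1
  have p1 := (hl.pos ⟨hz, le_rfl⟩).1
  have hlog : Real.log z₀ ≤ Real.log z₁ := Real.log_le_log p0 hz
  have hm : ∀ x ∈ Set.Icc (Real.log z₀) (Real.log z₁), Real.exp x ∈ Set.Icc z₀ z₁ := fun x hx =>
    ⟨(Real.log_le_iff_le_exp p0).1 hx.1, (Real.le_log_iff_exp_le p1).1 hx.2⟩
  have hw : ∀ x ∈ Set.Icc (Real.log z₀) (Real.log z₁), κ + σ * Real.exp x ≠ 0 := fun x hx =>
    (hl.pos (hm x hx)).2.ne'
  obtain ⟨ε, hε, he⟩ : ∃ ε : ℝ, Sg ε ∧ ε * -(ρ₂ * σ * κ) = |ρ₂| * |κ| := by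
    have e : |-(ρ₂ * σ * κ)| = |ρ₂| * |κ| := by
      rw [abs_neg, abs_mul, abs_mul]
      rcases hσ with rfl | rfl <;> simp
    rcases le_total 0 (-(ρ₂ * σ * κ)) with h | h
    · exact ⟨1, Or.inl rfl, by rw [one_mul, ← e, abs_of_nonneg h]⟩
    · exact ⟨-1, Or.inr rfl, by rw [← e, abs_of_nonpos h]; ring⟩
  set K : ℝ := |ρ₂| * a / (432 * b ^ 2) with hK
  have K0 : 0 < K := by positivity
  have hd : ∀ x, HasDerivAt (fun x => κ + σ * Real.exp x) (σ * Real.exp x) x := fun x =>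
    ((Real.hasDerivAt_exp x).const_mul σ).const_add κ
  have key := h (fun x => ρ₁ * x - ρ₂ * Real.log (κ + σ * Real.exp x))
    (fun x => ρ₁ - ρ₂ * (σ * Real.exp x / (κ + σ * Real.exp x)))
    (fun x => -(ρ₂ * σ * κ) * Real.exp x / (κ + σ * Real.exp x) ^ 2)
    (fun x => ((Real.exp x : ℝ) : ℂ)) (fun x => ((Real.exp x : ℝ) : ℂ)) (6 * a) (√K) ε _ _ hlog
    (Real.sqrt_pos.2 K0) hε
    (fun x hx => by
      have := ((hasDerivAt_id x).const_mul ρ₁).sub (((hd x).log (hw x hx)).const_mul ρ₂)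
      rw [mul_one] at this
      exact this)
    (fun x hx => by
      have := ((((Real.hasDerivAt_exp x).const_mul σ).div (hd x) (hw x hx)).const_mul
        ρ₂).const_sub ρ₁
      refine this.congr_deriv ?_
      have := hw x hx
      field_simp
      ring)
    (ContinuousOn.div (by fun_prop) (by fun_prop) fun x hx => pow_ne_zero 2 (hw x hx))
    (fun x _ => (Real.hasDerivAt_exp x).ofReal_comp)
    (Complex.continuous_ofReal.comp Real.continuous_exp).continuousOn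
    (fun x hx => by
      rw [Complex.norm_real, Real.norm_eq_abs, abs_of_pos (Real.exp_pos x)]
      exact (hb _ (hm x hx)).1.2)
    (fun x hx => by
      rw [Complex.norm_real, Real.norm_eq_abs, abs_of_pos (Real.exp_pos x)]
      exact (hb _ (hm x hx)).1.2)
    (fun x hx => by
      obtain ⟨⟨u1, -⟩, -, u2⟩ := hb _ (hm x hx)
      have w0 := (hl.pos (hm x hx)).2
      rw [Real.sq_sqrt K0.le, ← mul_div_assoc, ← mul_assoc, he, hK,
        div_le_div_iff₀ (by positivity) (by positivity)]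
      have v1 : (κ + σ * Real.exp x) ^ 2 ≤ (6 * b) ^ 2 := pow_le_pow_left₀ w0.le u2 2
      have v2 : 1 / 2 * (a / 6) ≤ |κ| * Real.exp x :=
        mul_le_mul hκ u1 (by positivity) (abs_nonneg _)
      calc |ρ₂| * a * (κ + σ * Real.exp x) ^ 2 ≤ |ρ₂| * a * (6 * b) ^ 2 := by gcongr
        _ = |ρ₂| * (1 / 2 * (a / 6)) * (432 * b ^ 2) := by ring
        _ ≤ |ρ₂| * (|κ| * Real.exp x) * (432 * b ^ 2) := by gcongr
        _ = _ := by ring)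
  rw [← subst_Gam hl] at key
  have hlen : Real.log z₁ - Real.log z₀ ≤ 35 := by
    rw [← Real.log_div p1.ne' p0.ne']
    have := Real.log_le_sub_one_of_pos (div_pos p1 p0)
    have h2 : z₁ / z₀ ≤ 36 := by
      rw [div_le_iff₀ p0]
      linarith [(hb z₀ ⟨le_rfl, hz⟩).1.1, (hb z₁ ⟨hz, le_rfl⟩).1.2]
    linarith
  have k2 : ‖Gam κ σ z₀ z₁ ρ₁ ρ₂‖ ≤ 6 * a * 44 / √K := by
    refine key.trans ?_
    have := Real.pi_le_four
    gcongr
    linarith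
  have k3 : ‖Gam κ σ z₀ z₁ ρ₁ ρ₂‖ ^ 2 ≤ (6 * a * 44) ^ 2 / K := by
    have := pow_le_pow_left₀ (norm_nonneg _) k2 2
    rwa [div_pow, Real.sq_sqrt K0.le] at this
  have k4 : (6 * a * 44) ^ 2 / K * |ρ₂| = 36 * 44 ^ 2 * 432 * (a * b ^ 2) := by
    rw [hK]
    field_simp
    ring
  have k5 : a * b ^ 2 ≤ 1 := mul_le_one₀ a1 (by positivity) (pow_le_one₀ b0.le b1)
  calc _ ≤ (6 * a * 44) ^ 2 / K * |ρ₂| := by gcongr
    _ ≤ _ := by rw [k4]; linarith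

lemma swap_Gam {a b κ σ z₀ z₁ : ℝ} (hl : Line a b κ σ z₀ z₁) (ρ₁ ρ₂ : ℝ) :
    ∃ κ' w₀ w₁ : ℝ, Line b a κ' σ w₀ w₁ ∧
      Gam κ σ z₀ z₁ ρ₁ ρ₂ = Gam κ' σ w₀ w₁ (-ρ₂) (-ρ₁) := by
  obtain ⟨a0, a1, b0, b1, hσ, hκ, hz, hb⟩ := hl
  rcases hσ with rfl | rfl
  · refine ⟨-κ, κ + z₀, κ + z₁, ⟨b0, b1, a0, a1, Or.inl rfl, by rwa [abs_neg], by linarith,
      fun w hw => ?_⟩, ?_⟩
    · obtain ⟨h1, h2⟩ := hb (w - κ) ⟨by linarith [hw.1], by linarith [hw.2]⟩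
      exact ⟨by rwa [show κ + 1 * (w - κ) = w by ring] at h2,
        by rwa [show -κ + 1 * w = w - κ by ring]⟩
    · rw [Gam, Gam, ← intervalIntegral.integral_comp_add_left]
      refine intervalIntegral.integral_congr fun z _ => ?_
      simp only [neg_neg, one_mul, neg_add_cancel_left]
      rw [mul_comm]
  · refine ⟨κ, κ - z₁, κ - z₀, ⟨b0, b1, a0, a1, Or.inr rfl, hκ, by linarith,
      fun w hw => ?_⟩, ?_⟩
    · obtain ⟨h1, h2⟩ := hb (κ - w) ⟨by linarith [hw.2], by linarith [hw.1]⟩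
      exact ⟨by rwa [show κ + -1 * (κ - w) = w by ring] at h2,
        by rwa [show κ + -1 * w = κ - w by ring]⟩
    · rw [Gam, Gam, ← intervalIntegral.integral_comp_sub_left]
      refine intervalIntegral.integral_congr fun z _ => ?_
      simp only [neg_neg]
      rw [mul_comm, show κ + -1 * (κ - z) = z by ring, show κ + -1 * z = κ - z by ring]

theorem gam_stmt (h : VdcStmt) : GamStmt := by
  refine ⟨36 + 2 * (36 * 44 ^ 2 * 432), by norm_num, fun a b κ σ z₀ z₁ hl ρ₁ ρ₂ => ?_⟩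
  have h0 := triv_Gam hl ρ₁ ρ₂
  have h2 := two_Gam h hl ρ₁ ρ₂
  obtain ⟨κ', w₀, w₁, hl', e⟩ := swap_Gam hl ρ₁ ρ₂
  have h1 := two_Gam h hl' (-ρ₂) (-ρ₁)
  rw [← e, abs_neg] at h1
  rw [mul_add, mul_add, mul_one]
  linarith

end Pool.Agent.MP_2a1f0e_nt.GM2
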