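import Pool.Agent.MP_2a1f0e_nt.GM2.Defs
import Pool.Agent.MP_2a1f0e_nt.GM.KOne

set_option autoImplicit false

open Finset

namespace Pool.Agent.MP_2a1f0e_nt.GM2

open GM

lemma triv_KKb (M : ℕ) (u : ℝ) : ‖KK M u‖ ≤ 3 * M := by
  refine (norm_sum_le _ _).trans ((sum_le_card_nsmul _ _ 1 fun n _ => ?_).trans_eq ?_)
  · rw [norm_mul, norm_pw, mul_one, Complex.norm_real, Real.norm_of_nonneg (Wt_nonneg _)]
    exact Wt_le_one _
  · simp

lemma neg_KKb (M : ℕ) (u : ℝ) : ‖KK M (-u)‖ = ‖KK M u‖ := by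
  rw [← conj_KK, Complex.norm_conj]

lemma pt_KKb {M r : ℝ} {m : ℤ} (hr0 : 0 < r) (hr : r ≤ M) (hm : m ≠ 0) :
    M * (r / |(m : ℝ) * M|) ^ 2 ≤ 2 * r * kp (m : ℝ) := by
  have hM : 0 < M := hr0.trans_le hr
  have h1 : (1 : ℝ) ≤ (m : ℝ) ^ 2 := by
    have : (1 : ℝ) ≤ |(m : ℝ)| := by exact_mod_cast Int.one_le_abs hm
    rw [← sq_abs]
    nlinarith
  have e : M * (r / |(m : ℝ) * M|) ^ 2 = r * (r / M) / (m : ℝ) ^ 2 := by
    rw [div_pow, sq_abs]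
    field_simp
  have h2 : r * (r / M) ≤ r := mul_le_of_le_one_right hr0.le ((div_le_one hM).2 hr)
  rw [e, kp, mul_one_div]
  refine (div_le_div_of_nonneg_right h2 (by positivity)).trans ?_
  rw [div_le_div_iff₀ (by positivity) (by positivity)]
  nlinarith

theorem kk_stmt (hD : DecayStmt) (hZ : ZeroStmt) (hP : PoisStmt) : KKStmt := by
  obtain ⟨C, hC, hd⟩ := hD 2
  obtain ⟨C0, hC0, hz⟩ := hZ
  refine ⟨C0 + 12 * C + 3, by linarith, fun M hM u => ⟨?_, triv_KKb M u⟩⟩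
  have hM0 : (0 : ℝ) < M := by exact_mod_cast hM
  have hk : 0 ≤ M * kp u := mul_nonneg hM0.le (kp_pos u).le
  have hr : 0 < 1 + |u| := by positivity
  rcases le_total (1 + |u|) M with h | h
  · have hn : ∀ ξ : ℝ, ‖(M : ℂ) * pw (M : ℝ) u * HH u ξ‖ = M * ‖HH u ξ‖ := fun ξ => by
      rw [norm_mul, norm_mul, norm_pw, mul_one, Complex.norm_natCast]
    have key := tail_KOne (hP M hM u) ∅ (A := C0 * (M * kp u)) (B := C * (2 * (1 + |u|)))
      (by positivity) (by positivity)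
      (by
        rw [hn, Int.cast_zero, zero_mul, mul_left_comm]
        exact mul_le_mul_of_nonneg_left (hz _) hM0.le)
      fun m hm _ => by
        rw [hn]
        refine (mul_le_mul_of_nonneg_left
          (hd _ _ (mul_ne_zero (Int.cast_ne_zero.2 hm) hM0.ne')) hM0.le).trans ?_
        rw [mul_left_comm, mul_assoc C]
        exact mul_le_mul_of_nonneg_left (pt_KKb hr h hm) hC.le
    rw [sum_empty, sub_zero] at key
    nlinarith [mul_nonneg hC.le hk, mul_nonneg hC0.le hr.le]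
  · nlinarith [triv_KKb M u, mul_nonneg hC.le hk, mul_nonneg hC0.le hr.le, mul_nonneg hC0.le hk,
      mul_nonneg hC.le hr.le]

lemma card_KKb {y : ℝ} (hy : 1 ≤ y) (D : Finset ℤ) :
    ((D.filter fun ρ : ℤ => |(ρ : ℝ)| ≤ y).card : ℝ) ≤ 3 * y := by
  have h1 : (D.filter fun ρ : ℤ => |(ρ : ℝ)| ≤ y) ⊆ Icc (-(⌊y⌋₊ : ℤ)) ⌊y⌋₊ := fun ρ hρ => by
    have h2 : ((ρ.natAbs : ℕ) : ℝ) ≤ y := by
      rw [Nat.cast_natAbs, Int.cast_abs]
      exact (mem_filter.1 hρ).2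
    have h3 := Nat.le_floor h2
    rw [mem_Icc]
    omega
  have h4 : (Icc (-(⌊y⌋₊ : ℤ)) ⌊y⌋₊).card = 2 * ⌊y⌋₊ + 1 := by
    rw [Int.card_Icc]
    omega
  have h5 := (Nat.cast_le (α := ℝ)).2 ((card_le_card h1).trans_eq h4)
  have h6 := Nat.floor_le (zero_le_one.trans hy)
  push_cast at h5
  linarith

theorem near_stmt (h : KKStmt) : NearStmt := by
  obtain ⟨C, hC, hk⟩ := h
  refine ⟨12 * C, by linarith, fun y hy => ⟨fun M hM hMy D => ?_, ?_⟩⟩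
  · simp only [neg_KKb, and_self]
    have h1 : ∑ ρ ∈ D.filter (fun ρ : ℤ => |(ρ : ℝ)| ≤ y), ‖KK M ρ‖ ≤
        ∑ ρ ∈ D.filter (fun ρ : ℤ => |(ρ : ℝ)| ≤ y), C * (M * kp (ρ : ℝ) + 2 * y) :=
      sum_le_sum fun ρ hρ => (hk M hM ρ).1.trans (mul_le_mul_of_nonneg_left
        (by linarith [(mem_filter.1 hρ).2]) (by linarith))
    rw [← mul_sum, sum_add_distrib, ← mul_sum, sum_const, nsmul_eq_mul] at h1
    have h2 := mul_le_mul_of_nonneg_left (sum_kp_KOne (D.filter fun ρ : ℤ => |(ρ : ℝ)| ≤ y))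
      (Nat.cast_nonneg (α := ℝ) M)
    have h3 := mul_le_mul_of_nonneg_right (card_KKb hy D) (by linarith : 0 ≤ 2 * y)
    have h4 : y ^ 2 ≤ y ^ 6 := pow_le_pow_right₀ hy (by norm_num)
    refine h1.trans ((mul_le_mul_of_nonneg_left (?_ : _ ≤ 12 * y ^ 6) (by linarith)).trans_eq ?_)
    · nlinarith
    · ring
  · have y0 : 0 < y := by linarith
    have mid : ∀ M : ℕ, 1 ≤ M → (M : ℝ) ≤ y ^ 6 → ∀ ρ : ℝ, y < |ρ| → |ρ| < y ^ 4 →
        ‖KK M ρ‖ ≤ C * (3 * y ^ 4) := fun M hM hMy ρ h1 h2 => by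
      refine (hk M hM ρ).1.trans (mul_le_mul_of_nonneg_left ?_ (by linarith))
      have h3 : M * kp ρ ≤ y ^ 4 := by
        have h4 : y ^ 2 ≤ ρ ^ 2 := by
          rw [← sq_abs ρ]
          exact pow_le_pow_left₀ y0.le h1.le 2
        rw [kp, mul_one_div, div_le_iff₀ (by positivity)]
        nlinarith [pow_pos y0 4]
      linarith [one_le_pow₀ (n := 4) hy]
    intro M₁ M₂ m1 n1 m2 n2 ρ₁ ρ₂ hlt
    rw [neg_KKb] at hlt
    by_contra hn
    rw [not_or, not_le, max_lt_iff, not_and_or, not_le, not_le] at hn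
    obtain ⟨h1, h2, h3⟩ := hn
    have t1 : ‖KK M₁ ρ₁‖ ≤ 3 * y ^ 6 := by linarith [triv_KKb M₁ ρ₁]
    have t2 : ‖KK M₂ ρ₂‖ ≤ 3 * y ^ 6 := by linarith [triv_KKb M₂ ρ₂]
    have p : 0 ≤ C * y ^ 10 := by positivity
    rcases h1 with h1 | h1
    · have := mul_le_mul (mid M₁ m1 n1 ρ₁ h1 h2) t2 (norm_nonneg _) (by positivity)
      nlinarith
    · have := mul_le_mul t1 (mid M₂ m2 n2 ρ₂ h1 h3) (norm_nonneg _) (by positivity)
      nlinarith

end Pool.Agent.MP_2a1f0e_nt.GM2
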