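import Pool.Agent.MP_2a1f0e_nt.GM2.Defs
import Pool.Agent.MP_2a1f0e_nt.GM.Three

set_option autoImplicit false

open Finset

namespace Pool.Agent.MP_2a1f0e_nt.GM2

open GM

lemma mem_Key2 {r v : ℝ} (h1 : Wt r ≠ 0) (h2 : Wt (r * v) ≠ 0) : 1 / 3 < v ∧ v < 3 := by
  obtain ⟨a1, a2⟩ := mem_of_Wt_ne_zero h1
  obtain ⟨b1, b2⟩ := mem_of_Wt_ne_zero h2
  constructor
  · by_contra hc
    push Not at hc
    nlinarith
  · by_contra hc
    push Not at hc
    nlinarith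

lemma supp_Key2 {v w η : ℝ} (h : Three.R3 v w η ≠ 0) :
    (1 / 3 < v ∧ v < 3) ∧ (1 / 3 < w ∧ w < 3) := by
  by_contra hc
  apply h
  rw [Three.R3_eq]
  have : ∀ r, Three.rad v w η r = 0 := by
    intro r
    by_contra h0
    apply hc
    have h1 : Wt r ≠ 0 := fun e => h0 (by simp [Three.rad, e])
    have h2 : Wt (r * v) ≠ 0 := fun e => h0 (by simp [Three.rad, e])
    have h3 : Wt (r * w) ≠ 0 := fun e => h0 (by simp [Three.rad, e])
    exact ⟨mem_Key2 h1 h2, mem_Key2 h1 h3⟩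
  simp [this]

lemma enlarge_Key2 (F : ℝ → ℝ → ℂ)
    (hF : ∀ v w, F v w ≠ 0 → (1 / 3 < v ∧ v < 3) ∧ (1 / 3 < w ∧ w < 3)) {a b c d : ℝ}
    (ha : a ≤ 1 / 3) (hb : 3 ≤ b) (hc : c ≤ 1 / 3) (hd : 3 ≤ d) :
    ∫ v in a..b, ∫ w in c..d, F v w = ∫ v, ∫ w, F v w := by
  have e1 : ∀ v, ∫ w in c..d, F v w = ∫ w, F v w := by
    intro v
    apply intervalIntegral.integral_eq_integral_of_support_subset
    intro w hw
    obtain ⟨-, h1, h2⟩ := hF v w hw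
    exact ⟨by linarith, by linarith⟩
  simp_rw [e1]
  apply intervalIntegral.integral_eq_integral_of_support_subset
  intro v hv
  have : ∃ w, F v w ≠ 0 := by
    by_contra h0
    push Not at h0
    apply hv
    simp [h0]
  obtain ⟨w, hw⟩ := this
  obtain ⟨⟨h1, h2⟩, -⟩ := hF v w hw
  exact ⟨by linarith, by linarith⟩

lemma scale_Key2 {u : ℝ} (hu : 0 < u) (v w η : ℝ) :
    Three.R3 v w η = ((u ^ 3 : ℝ) : ℂ) * R4 u (u * v) (u * w) (η * u) := by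
  rw [Three.R3_eq]
  have e1 := MeasureTheory.Measure.integral_comp_mul_right (Three.rad v w η) u
  have e2 : ∫ r, Three.rad v w η (r * u) = ((u ^ 2 : ℝ) : ℂ) * R4 u (u * v) (u * w) (η * u) := by
    unfold R4
    rw [← MeasureTheory.integral_const_mul]
    congr 1
    funext r
    unfold Three.rad
    rw [show r * u * v = r * (u * v) by ring, show r * u * w = r * (u * w) by ring,
      show η * (r * u) = η * u * r by ring]
    push_cast
    ring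
  rw [e2, abs_of_pos (inv_pos.2 hu), Complex.real_smul] at e1
  have h0 : (u : ℂ) ≠ 0 := by exact_mod_cast hu.ne'
  generalize R4 u (u * v) (u * w) (η * u) = Z at e1 ⊢
  push_cast at e1 ⊢
  field_simp at e1
  linear_combination -e1

lemma pc_Key2 (v w η al be : ℝ) :
    Three.pc v al * Three.pc w be * Three.R3 v w η = pw v al * pw w be * Three.R3 v w η := by
  by_cases h : Three.R3 v w η = 0
  · simp [h]
  obtain ⟨⟨h1, -⟩, h2, -⟩ := supp_Key2 h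
  rw [Three.pc_eq (by linarith), Three.pc_eq (by linarith)]

lemma range_Key2 {M n M' n' : ℝ} (hM : 0 < M) (hM' : 0 < M') (h1 : M ≤ n) (h2 : n ≤ 2 * M)
    (h3 : M' ≤ n') (h4 : n' ≤ 2 * M') :
    M / M' / 6 * (n' / n) ≤ 1 / 3 ∧ 3 ≤ 6 * (M / M') * (n' / n) := by
  have hn : 0 < n := by linarith
  constructor
  · rw [show M / M' / 6 * (n' / n) = (M * n') / (6 * (M' * n)) by field_simp,
      div_le_div_iff₀ (by positivity) (by norm_num)]
    nlinarith [mul_le_mul h1 h4 (by linarith) hn.le]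
  · rw [show 6 * (M / M') * (n' / n) = (6 * (M * n')) / (M' * n) by field_simp,
      le_div_iff₀ (by positivity)]
    nlinarith [mul_le_mul h3 h2 hn.le (by linarith)]

theorem key2_stmt : Key2Stmt := by
  intro M₁ M₂ M₃ n₁ n₂ n₃ al be ga x₁ x₂ x₃ h1 h2 h3 h
  rw [mem_Ico] at h1 h2 h3
  have m1 : (0 : ℝ) < M₁ := by exact_mod_cast (by omega : 0 < M₁)
  have m2 : (0 : ℝ) < M₂ := by exact_mod_cast (by omega : 0 < M₂)
  have m3 : (0 : ℝ) < M₃ := by exact_mod_cast (by omega : 0 < M₃)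
  have a1 : (M₁ : ℝ) ≤ n₁ := by exact_mod_cast h1.1
  have a2 : (M₂ : ℝ) ≤ n₂ := by exact_mod_cast h2.1
  have a3 : (M₃ : ℝ) ≤ n₃ := by exact_mod_cast h3.1
  have b1 : (n₁ : ℝ) ≤ 2 * M₁ := by exact_mod_cast h1.2.le
  have b2 : (n₂ : ℝ) ≤ 2 * M₂ := by exact_mod_cast h2.2.le
  have b3 : (n₃ : ℝ) ≤ 2 * M₃ := by exact_mod_cast h3.2.le
  have p1 : (0 : ℝ) < n₁ := by linarith
  have p2 : (0 : ℝ) < n₂ := by linarith
  have p3 : (0 : ℝ) < n₃ := by linarith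
  obtain ⟨r1, r2⟩ := range_Key2 m1 m3 a1 b1 a3 b3
  obtain ⟨r3, r4⟩ := range_Key2 m2 m3 a2 b2 a3 b3
  set F : ℝ → ℝ → ℂ := fun v w => pw v al * pw w be *
    Three.R3 v w (x₁ * n₁ * v + x₂ * n₂ * w + x₃ * n₃) with hF
  have sF : ∀ v w, F v w ≠ 0 → (1 / 3 < v ∧ v < 3) ∧ (1 / 3 < w ∧ w < 3) := by
    intro v w h0
    refine supp_Key2 (η := x₁ * n₁ * v + x₂ * n₂ * w + x₃ * n₃) fun e => h0 ?_
    simp [hF, e]
  rw [Three.key h]
  simp_rw [pc_Key2]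
  have e1 := enlarge_Key2 F sF le_rfl le_rfl le_rfl le_rfl
  have e2 := enlarge_Key2 F sF r1 r2 r3 r4
  change ∫ v in (1 / 3 : ℝ)..3, ∫ w in (1 / 3 : ℝ)..3, F v w = _
  rw [e1, ← e2, ← intervalIntegral.smul_integral_comp_mul_right]
  simp_rw [← intervalIntegral.smul_integral_comp_mul_right (c := (n₃ : ℝ) / n₂)]
  have e3 : ∀ z w : ℝ, F (z * (n₃ / n₁)) (w * (n₃ / n₂)) = ((((M₃ : ℝ) / n₃) ^ 3 : ℝ) : ℂ) *
      (pw (z * n₃ / n₁) al * pw (w * n₃ / n₂) be *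
          R4 (M₃ / n₃) (z * M₃ / n₁) (w * M₃ / n₂) (M₃ * (x₁ * z + x₂ * w + x₃))) := by
    intro z w
    simp only [hF]
    rw [scale_Key2 (div_pos m3 p3),
      show (M₃ : ℝ) / n₃ * (z * (n₃ / n₁)) = z * M₃ / n₁ by field_simp,
      show (M₃ : ℝ) / n₃ * (w * (n₃ / n₂)) = w * M₃ / n₂ by field_simp,
      show (x₁ * n₁ * (z * (n₃ / n₁)) + x₂ * n₂ * (w * (n₃ / n₂)) + x₃ * n₃) * ((M₃ : ℝ) / n₃) =
        M₃ * (x₁ * z + x₂ * w + x₃) by field_simp,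
      ← mul_div_assoc, ← mul_div_assoc]
    ring
  simp_rw [e3, intervalIntegral.integral_const_mul, Complex.real_smul,
    intervalIntegral.integral_const_mul]
  have c1 : (n₁ : ℂ) ≠ 0 := by exact_mod_cast p1.ne'
  have c2 : (n₂ : ℂ) ≠ 0 := by exact_mod_cast p2.ne'
  have c3 : (n₃ : ℂ) ≠ 0 := by exact_mod_cast p3.ne'
  rw [← mul_assoc, ← mul_assoc]
  congr 1
  push_cast
  field_simp

end Pool.Agent.MP_2a1f0e_nt.GM2
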