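import Pool.Agent.MP_2a1f0e_nt.GM2.Defs

set_option autoImplicit false

open Finset

namespace Pool.Agent.MP_2a1f0e_nt.GM2

open GM

lemma comm3_Part {α β : Type*} (X : Finset α) (s : Finset β) (f : α → β → β → β → ℂ) :
    ∑ x ∈ X, ∑ a ∈ s, ∑ b ∈ s, ∑ c ∈ s, f x a b c =
      ∑ a ∈ s, ∑ b ∈ s, ∑ c ∈ s, ∑ x ∈ X, f x a b c := by
  rw [sum_comm]
  refine sum_congr rfl fun a _ => ?_
  rw [sum_comm]
  refine sum_congr rfl fun b _ => ?_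
  rw [sum_comm]

lemma comm33_Part {α β : Type*} (X Y Z : Finset α) (s : Finset β) (G : β → β → β → ℂ)
    (f₁ f₂ f₃ : α → β → β → β → ℂ) :
    ∑ x ∈ X, ∑ y ∈ Y, ∑ z ∈ Z, ∑ a ∈ s, ∑ b ∈ s, ∑ c ∈ s,
        G a b c * (f₁ x a b c * f₂ y a b c * f₃ z a b c) =
      ∑ a ∈ s, ∑ b ∈ s, ∑ c ∈ s, G a b c *
        ((∑ x ∈ X, f₁ x a b c) * (∑ y ∈ Y, f₂ y a b c) * ∑ z ∈ Z, f₃ z a b c) := by
  rw [sum_congr rfl fun x _ => sum_congr rfl fun y _ => comm3_Part Z s _,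
    sum_congr rfl fun x _ => comm3_Part Y s _, comm3_Part X s]
  refine sum_congr rfl fun a _ => sum_congr rfl fun b _ => sum_congr rfl fun c _ => ?_
  rw [sum_mul_sum, sum_mul, mul_sum]
  refine sum_congr rfl fun x _ => ?_
  rw [sum_mul, mul_sum]
  refine sum_congr rfl fun y _ => ?_
  rw [mul_sum, mul_sum]

/-- a block of the kernel -/
noncomputable def Hs_Part (N : ℕ) (S : Finset ℕ) (e u : ℝ) : ℂ := ∑ n ∈ S, HH u (e * N * n)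

lemma Qb_eq_Part (N : ℕ) (s : Finset ℤ) (g : ℤ → ℝ) (S₁ S₂ S₃ : Finset ℕ) (e₁ e₂ e₃ : ℝ) :
    Qb N s g S₁ S₂ S₃ e₁ e₂ e₃ = ∑ a ∈ s, ∑ b ∈ s, ∑ c ∈ s, ((g a * g b * g c : ℝ) : ℂ) *
      (Hs_Part N S₁ e₁ ((a : ℝ) - b) * Hs_Part N S₂ e₂ ((b : ℝ) - c) *
        Hs_Part N S₃ e₃ ((c : ℝ) - a)) :=
  comm33_Part S₁ S₂ S₃ s (fun a b c => ((g a * g b * g c : ℝ) : ℂ))
    (fun n a b _ => HH ((a : ℝ) - b) (e₁ * N * n)) (fun n _ b c => HH ((b : ℝ) - c) (e₂ * N * n))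
    (fun n a _ c => HH ((c : ℝ) - a) (e₃ * N * n))

lemma Qb_rot_Part (N : ℕ) (s : Finset ℤ) (g : ℤ → ℝ) (S₁ S₂ S₃ : Finset ℕ) (e₁ e₂ e₃ : ℝ) :
    Qb N s g S₁ S₂ S₃ e₁ e₂ e₃ = Qb N s g S₂ S₃ S₁ e₂ e₃ e₁ := by
  rw [Qb_eq_Part, Qb_eq_Part, sum_comm]
  refine sum_congr rfl fun b _ => ?_
  rw [sum_comm]
  refine sum_congr rfl fun c _ => sum_congr rfl fun a _ => ?_
  push_cast
  ring

/-- the dyadic block -/
def Bl_Part (M j : ℕ) : Finset ℕ := (Ico (2 ^ j) (2 * 2 ^ j)).filter (· ≤ M)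

lemma Dy_Bl_Part (M j : ℕ) : Dy (2 ^ j) (Bl_Part M j) :=
  ⟨Nat.one_le_two_pow, filter_subset _ _⟩

lemma sum_Icc_Part (M : ℕ) (F : ℕ → ℂ) :
    ∑ n ∈ Icc 1 M, F n = ∑ j ∈ range (Nat.log 2 M + 1), ∑ n ∈ Bl_Part M j, F n := by
  rw [← sum_fiberwise_of_maps_to (s := Icc 1 M) (t := range (Nat.log 2 M + 1))
    (g := Nat.log 2) fun n hn => mem_range.2 (Nat.lt_succ_of_le
      (Nat.log_mono_right (mem_Icc.1 hn).2))]
  refine sum_congr rfl fun j _ => sum_congr ?_ fun _ _ => rfl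
  ext n
  simp only [Bl_Part, mem_filter, mem_Icc, mem_Ico]
  constructor
  · rintro ⟨⟨h1, h2⟩, rfl⟩
    have a1 := Nat.pow_log_le_self 2 (show n ≠ 0 by omega)
    have a2 := Nat.lt_pow_succ_log_self (b := 2) (by norm_num) n
    rw [pow_succ] at a2
    exact ⟨⟨a1, by omega⟩, h2⟩
  · rintro ⟨⟨h1, h2⟩, h3⟩
    have : 1 ≤ 2 ^ j := Nat.one_le_two_pow
    exact ⟨⟨by omega, h3⟩, Nat.log_eq_of_pow_le_of_lt_pow h1 (by rw [pow_succ]; omega)⟩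

lemma sum_Ms_Part (M : ℕ) (F : ℤ → ℂ) :
    ∑ m ∈ Ms M, F m = ∑ n ∈ Icc 1 M, F n + ∑ n ∈ Icc 1 M, F (-n) := by
  induction M with
  | zero => simp [Ms]
  | succ M ih =>
    have e : Ms (M + 1) = insert ((M + 1 : ℕ) : ℤ) (insert (-((M + 1 : ℕ) : ℤ)) (Ms M)) := by
      ext m
      simp only [mem_insert, mem_Ms]
      omega
    rw [e, sum_insert, sum_insert, ih, sum_Icc_succ_top (by omega), sum_Icc_succ_top (by omega)]
    · ring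
    · rw [mem_Ms]; omega
    · simp only [mem_insert, mem_Ms]; omega

/-- the index set of signed blocks -/
def Ix_Part (M : ℕ) : Finset (Bool × ℕ) := univ ×ˢ range (Nat.log 2 M + 1)

/-- the sign -/
def sg_Part (b : Bool) : ℝ := if b then 1 else -1

lemma Sg_Part (b : Bool) : Sg (sg_Part b) := by
  cases b
  · exact Or.inr rfl
  · exact Or.inl rfl

lemma sum_HH_Part (N M : ℕ) (u : ℝ) : ∑ m ∈ Ms M, HH u ((m : ℝ) * N) =
    ∑ p ∈ Ix_Part M, Hs_Part N (Bl_Part M p.2) (sg_Part p.1) u := by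
  rw [sum_Ms_Part, Ix_Part, sum_product, Fintype.sum_bool, sum_Icc_Part, sum_Icc_Part]
  congr 1
  · refine sum_congr rfl fun j _ => sum_congr rfl fun n _ => ?_
    congr 1
    simp only [sg_Part, if_true]
    push_cast
    ring
  · refine sum_congr rfl fun j _ => sum_congr rfl fun n _ => ?_
    congr 1
    simp only [sg_Part, Bool.false_eq_true, if_false]
    push_cast
    ring

lemma Q3_eq_Part (N M : ℕ) (s : Finset ℤ) (g : ℤ → ℝ) :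
    Q3 N M s g = (N : ℂ) ^ 3 * ∑ p ∈ Ix_Part M, ∑ q ∈ Ix_Part M, ∑ r ∈ Ix_Part M,
      Qb N s g (Bl_Part M p.2) (Bl_Part M q.2) (Bl_Part M r.2)
        (sg_Part p.1) (sg_Part q.1) (sg_Part r.1) := by
  simp only [Qb_eq_Part]
  rw [comm33_Part (Ix_Part M) (Ix_Part M) (Ix_Part M) s
    (fun a b c => ((g a * g b * g c : ℝ) : ℂ))
    (fun p a b _ => Hs_Part N (Bl_Part M p.2) (sg_Part p.1) ((a : ℝ) - b))
    (fun p _ b c => Hs_Part N (Bl_Part M p.2) (sg_Part p.1) ((b : ℝ) - c))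
    (fun p a _ c => Hs_Part N (Bl_Part M p.2) (sg_Part p.1) ((c : ℝ) - a))]
  unfold Q3
  rw [mul_sum]
  refine sum_congr rfl fun a _ => ?_
  rw [mul_sum]
  refine sum_congr rfl fun b _ => ?_
  rw [mul_sum]
  refine sum_congr rfl fun c _ => ?_
  have hp : pw (N : ℝ) ((a : ℝ) - b) * pw (N : ℝ) ((b : ℝ) - c) * pw (N : ℝ) ((c : ℝ) - a) = 1 := by
    rw [← pw_add, ← pw_add, show (a : ℝ) - b + ((b : ℝ) - c) + ((c : ℝ) - a) = 0 by ring, pw_zero]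
  rw [← sum_HH_Part, ← sum_HH_Part, ← sum_HH_Part]
  unfold Kb
  linear_combination ((g a * g b * g c : ℝ) : ℂ) * (N : ℂ) ^ 3 *
    ((∑ m ∈ Ms M, HH ((a : ℝ) - b) ((m : ℝ) * N)) * (∑ m ∈ Ms M, HH ((b : ℝ) - c) ((m : ℝ) * N)) *
      ∑ m ∈ Ms M, HH ((c : ℝ) - a) ((m : ℝ) * N)) * hp

theorem part_stmt : PartStmt := by
  intro N M s g Z hZ h
  rcases Nat.eq_zero_or_pos M with rfl | hM
  · have : Q3 N 0 s g = 0 := by simp [Q3, Kb, Ms]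
    rw [this, norm_zero]
    positivity
  have hle : ∀ p ∈ Ix_Part M, 2 ^ p.2 ≤ M := fun p hp => by
    have h1 : p.2 ≤ Nat.log 2 M := Nat.lt_succ_iff.1 (mem_range.1 (mem_product.1 hp).2)
    exact (Nat.pow_le_pow_right (by norm_num) h1).trans (Nat.pow_log_le_self 2 hM.ne')
  have key : ∀ p ∈ Ix_Part M, ∀ q ∈ Ix_Part M, ∀ r ∈ Ix_Part M,
      ‖Qb N s g (Bl_Part M p.2) (Bl_Part M q.2) (Bl_Part M r.2)
        (sg_Part p.1) (sg_Part q.1) (sg_Part r.1)‖ ≤ Z := by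
    intro p hp q hq r hr
    by_cases h1 : 2 ^ p.2 ≤ 2 ^ r.2 ∧ 2 ^ q.2 ≤ 2 ^ r.2
    · exact h _ _ _ _ _ _ _ _ _ (Dy_Bl_Part M _) (Dy_Bl_Part M _) (Dy_Bl_Part M _) h1.1 h1.2
        (hle r hr) (Sg_Part _) (Sg_Part _) (Sg_Part _)
    by_cases h2 : 2 ^ q.2 ≤ 2 ^ p.2
    · rw [Qb_rot_Part]
      exact h _ _ _ _ _ _ _ _ _ (Dy_Bl_Part M _) (Dy_Bl_Part M _) (Dy_Bl_Part M _) h2
        (by omega) (hle p hp) (Sg_Part _) (Sg_Part _) (Sg_Part _)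
    · rw [← Qb_rot_Part]
      exact h _ _ _ _ _ _ _ _ _ (Dy_Bl_Part M _) (Dy_Bl_Part M _) (Dy_Bl_Part M _)
        (by omega) (by omega) (hle q hq) (Sg_Part _) (Sg_Part _) (Sg_Part _)
  have hc : ((Ix_Part M).card : ℝ) = 2 * ((Nat.log 2 M : ℝ) + 1) := by
    simp [Ix_Part]
  have hb : ‖∑ p ∈ Ix_Part M, ∑ q ∈ Ix_Part M, ∑ r ∈ Ix_Part M,
      Qb N s g (Bl_Part M p.2) (Bl_Part M q.2) (Bl_Part M r.2)
        (sg_Part p.1) (sg_Part q.1) (sg_Part r.1)‖ ≤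
      ∑ p ∈ Ix_Part M, ∑ q ∈ Ix_Part M, ∑ r ∈ Ix_Part M, Z :=
    (norm_sum_le _ _).trans (sum_le_sum fun p hp => (norm_sum_le _ _).trans
      (sum_le_sum fun q hq => (norm_sum_le _ _).trans (sum_le_sum fun r hr => key p hp q hq r hr)))
  simp only [sum_const, nsmul_eq_mul, hc] at hb
  rw [Q3_eq_Part, norm_mul, norm_pow, Complex.norm_natCast]
  calc _ ≤ (N : ℝ) ^ 3 * (2 * ((Nat.log 2 M : ℝ) + 1) * (2 * ((Nat.log 2 M : ℝ) + 1) *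
        (2 * ((Nat.log 2 M : ℝ) + 1) * Z))) := by gcongr
    _ = _ := by ring

end Pool.Agent.MP_2a1f0e_nt.GM2
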