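import Pool.Agent.MP_2a1f0e_nt.GM2.Defs
import Pool.Agent.MP_2a1f0e_nt.GM.Rad

set_option autoImplicit false

open Finset

namespace Pool.Agent.MP_2a1f0e_nt.GM2

open GM

lemma four_Psi {a b B : ℝ} (hab : a ≤ b) {φ φ₁ φ₂ : ℝ → ℂ}
    (a1 : ∀ x ∈ Set.Icc a b, HasDerivAt φ (φ₁ x) x)
    (a2 : ∀ x ∈ Set.Icc a b, HasDerivAt φ₁ (φ₂ x) x) (a3 : ContinuousOn φ₂ (Set.Icc a b))
    (za : φ a = 0) (zb : φ b = 0) (z1a : φ₁ a = 0) (z1b : φ₁ b = 0)
    (h0 : ∀ x ∈ Set.Icc a b, ‖φ x‖ ≤ B) (h2 : ∀ x ∈ Set.Icc a b, ‖φ₂ x‖ ≤ B) (η : ℝ) :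
    ‖∫ r in a..b, φ r * ex (-η * r)‖ ≤ 2 * (B * (b - a)) * kp η := by
  have c1 : ContinuousOn φ (Set.Icc a b) := fun x hx => (a1 x hx).continuousAt.continuousWithinAt
  have c0 : ContinuousOn (fun r : ℝ => ex (-η * r)) (Set.Icc a b) :=
    (continuous_ex.comp (continuous_const.mul continuous_id)).continuousOn
  have bd : ∀ ψ : ℝ → ℂ, (∀ x ∈ Set.Icc a b, ‖ψ x‖ ≤ B) →
      ‖∫ r in a..b, ψ r * ex (-η * r)‖ ≤ B * (b - a) := fun ψ hψ => by
    refine (intervalIntegral.norm_integral_le_of_norm_le_const (C := B) fun x hx => ?_).trans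
      (le_of_eq (by rw [abs_of_nonneg (sub_nonneg.2 hab)]))
    rw [norm_mul, norm_ex, mul_one]
    rw [Set.uIoc_of_le hab] at hx
    exact hψ x (Set.Ioc_subset_Icc_self hx)
  set c : ℂ := 2 * Real.pi * Complex.I * ((-η : ℝ) : ℂ) with hc
  have i1 : IntervalIntegrable (fun r => c ^ 2 * (φ r * ex (-η * r))) MeasureTheory.volume a b :=
    (continuousOn_const.mul (c1.mul c0)).intervalIntegrable_of_Icc hab
  have i2 : IntervalIntegrable (fun r => φ₂ r * ex (-η * r)) MeasureTheory.volume a b :=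
    (a3.mul c0).intervalIntegrable_of_Icc hab
  have e1 : ∫ r in a..b, (c ^ 2 * (φ r * ex (-η * r)) - φ₂ r * ex (-η * r)) =
      (c * φ b - φ₁ b) * ex (-η * b) - (c * φ a - φ₁ a) * ex (-η * a) := by
    refine intervalIntegral.integral_eq_sub_of_hasDerivAt
      (f := fun r : ℝ => (c * φ r - φ₁ r) * ex (-η * r)) (fun x hx => ?_) (i1.sub i2)
    rw [Set.uIcc_of_le hab] at hx
    refine ((((a1 x hx).const_mul c).sub (a2 x hx)).mul (hasDerivAt_ex (-η) x)).congr_deriv ?_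
    simp only [Pi.sub_apply, ← hc]
    ring
  rw [za, zb, z1a, z1b, intervalIntegral.integral_sub i1 i2,
    intervalIntegral.integral_const_mul] at e1
  simp only [mul_zero, sub_zero, zero_mul, sub_eq_zero] at e1
  have k1 := bd φ h0
  have k2 := bd φ₂ h2
  have k3 : η ^ 2 ≤ ‖c‖ ^ 2 := by
    have : ‖c‖ = 2 * Real.pi * |η| := by
      rw [hc, norm_mul, norm_mul, norm_mul, Complex.norm_I, Complex.norm_real, Complex.norm_real,
        Real.norm_of_nonneg Real.pi_pos.le, Real.norm_eq_abs, abs_neg]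
      simp
    rw [this, mul_pow, sq_abs]
    refine le_mul_of_one_le_left (sq_nonneg _) (one_le_pow₀ ?_)
    linarith [Real.pi_gt_three]
  rw [← e1, norm_mul, norm_pow] at k2
  rw [kp, mul_one_div, le_div_iff₀ (by positivity)]
  have k4 := mul_le_mul_of_nonneg_right k3 (norm_nonneg (∫ r in a..b, φ r * ex (-η * r)))
  linarith

lemma main_Psi {A : ℝ} {g : ℝ → ℝ} (h : Bd_Rad A g) (hs : ∀ x, x ≤ 1 / 8 ∨ 27 ≤ x → g x = 0)
    (k η : ℝ) : ‖∫ r : ℝ, ((r ^ 2 * g r : ℝ) : ℂ) * pw r k * ex (-(η * r))‖ ≤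
      56 * (900 * A) * (1 + |k|) ^ 2 * kp η := by
  have hA := nonneg_Rad h
  obtain ⟨g₁, g₂, a1, a2, a3, a4⟩ := h
  have c1 : Continuous g := continuous_iff_continuousAt.2 fun x => (a1 x).continuousAt
  have c2 : Continuous g₁ := continuous_iff_continuousAt.2 fun x => (a2 x).continuousAt
  have z0 : g₁ (1 / 16) = 0 :=
    (a1 _).unique ((hasDerivAt_const (1 / 16 : ℝ) (0 : ℝ)).congr_of_eventuallyEq
      ((eventually_le_nhds (by norm_num : (1 / 16 : ℝ) < 1 / 8)).mono fun x hx => hs x (Or.inl hx)))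
  have z3 : g₁ 28 = 0 := (a1 28).unique ((hasDerivAt_const (28 : ℝ) (0 : ℝ)).congr_of_eventuallyEq
    ((eventually_ge_nhds (by norm_num : (27 : ℝ) < 28)).mono fun x hx => hs x (Or.inr hx)))
  have e0 : ∫ r : ℝ, ((r ^ 2 * g r : ℝ) : ℂ) * pw r k * ex (-(η * r)) =
      ∫ r in (1 / 16 : ℝ)..28, ((r : ℂ) ^ 2 * g r * pw r k) * ex (-η * r) := by
    simp only [neg_mul, Complex.ofReal_mul, Complex.ofReal_pow]
    refine (intervalIntegral.integral_eq_integral_of_support_subset fun x hx => ?_).symm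
    by_contra hc
    apply hx
    rw [Set.mem_Ioc, not_and_or, not_lt, not_le] at hc
    simp only [hs x (hc.imp (fun h => by linarith) fun h => by linarith), Complex.ofReal_zero,
      zero_mul, mul_zero]
  have hk := abs_nonneg k
  have n1 : ‖1 + Complex.I * k‖ ≤ 1 + |k| := (norm_add_le _ _).trans (by simp)
  have n2 : ‖2 + Complex.I * k‖ ≤ 2 * (1 + |k|) :=
    (norm_add_le _ _).trans (by simp only [Complex.norm_ofNat, norm_mul, Complex.norm_I,
      Complex.norm_real, Real.norm_eq_abs]; linarith)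
  have hK : 1 + |k| ≤ (1 + |k|) ^ 2 := by nlinarith
  have hK1 : 1 ≤ (1 + |k|) ^ 2 := by linarith
  have hx0 : ∀ x ∈ Set.Icc (1 / 16 : ℝ) 28, x ≠ 0 := fun x hx =>
    (lt_of_lt_of_le (by norm_num) hx.1 : 0 < x).ne'
  have nx : ∀ x ∈ Set.Icc (1 / 16 : ℝ) 28, ‖(x : ℂ)‖ ≤ 28 := fun x hx => by
    rw [Complex.norm_real, Real.norm_of_nonneg (by linarith [hx.1])]
    exact hx.2
  have ng : ∀ {y : ℝ}, |y| ≤ A → ‖(y : ℂ)‖ ≤ A := fun hy => by
    rwa [Complex.norm_real, Real.norm_eq_abs]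
  have hid : ∀ x : ℝ, HasDerivAt (fun r : ℝ => (r : ℂ)) 1 x := fun x => by
    simpa using (hasDerivAt_id x).ofReal_comp
  rw [e0]
  refine (four_Psi (B := 900 * A * (1 + |k|) ^ 2) (by norm_num)
    (φ := fun r : ℝ => (r : ℂ) ^ 2 * g r * pw r k)
    (φ₁ := fun r : ℝ => ((2 + Complex.I * k) * (r * g r) + (r : ℂ) ^ 2 * g₁ r) * pw r k)
    (φ₂ := fun r : ℝ => ((2 + Complex.I * k) * (1 + Complex.I * k) * g r +
      2 * (2 + Complex.I * k) * (r * g₁ r) + (r : ℂ) ^ 2 * g₂ r) * pw r k)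
    (fun x hx => ?_) (fun x hx => ?_) ?_ ?_ ?_ ?_ ?_ (fun x hx => ?_) (fun x hx => ?_) η).trans ?_
  · have x0 : (x : ℂ) ≠ 0 := Complex.ofReal_ne_zero.2 (hx0 x hx)
    refine ((((hid x).pow 2).mul (a1 x).ofReal_comp).mul (hasDerivAt_pw (hx0 x hx) k)).congr_deriv ?_
    simp only [Pi.mul_apply, Pi.pow_apply]
    field_simp
    ring
  · have x0 : (x : ℂ) ≠ 0 := Complex.ofReal_ne_zero.2 (hx0 x hx)
    refine (((((hid x).mul (a1 x).ofReal_comp).const_mul (2 + Complex.I * k)).add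
      (((hid x).pow 2).mul (a2 x).ofReal_comp)).mul (hasDerivAt_pw (hx0 x hx) k)).congr_deriv ?_
    simp only [Pi.mul_apply, Pi.pow_apply, Pi.add_apply]
    field_simp
    ring
  · refine ContinuousOn.mul (Continuous.continuousOn (by fun_prop))
      ((continuousOn_pw k).mono fun x hx => ?_)
    exact lt_of_lt_of_le (by norm_num) hx.1
  · simp only [hs (1 / 16) (by norm_num), Complex.ofReal_zero, mul_zero, zero_mul]
  · simp [hs 28 (by norm_num)]
  · simp only [hs (1 / 16) (by norm_num), z0, Complex.ofReal_zero, mul_zero, zero_mul, add_zero]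
  · simp [hs 28 (by norm_num), z3]
  · rw [norm_mul, norm_pw, mul_one, norm_mul, norm_pow]
    have := mul_le_mul (pow_le_pow_left₀ (norm_nonneg _) (nx x hx) 2) (ng (a4 x).1)
      (norm_nonneg _) (by norm_num)
    nlinarith
  · rw [norm_mul, norm_pw, mul_one]
    refine (norm_add₃_le ..).trans ?_
    simp only [norm_mul, norm_pow, Complex.norm_ofNat]
    have t0 := mul_le_mul (mul_le_mul n2 n1 (norm_nonneg _) (by positivity)) (ng (a4 x).1)
      (norm_nonneg _) (by positivity)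
    have t1 := mul_le_mul n2 (mul_le_mul (nx x hx) (ng (a4 x).2.1) (norm_nonneg _) (by norm_num))
      (by positivity) (by positivity)
    have t2 := mul_le_mul (pow_le_pow_left₀ (norm_nonneg _) (nx x hx) 2) (ng (a4 x).2.2)
      (norm_nonneg _) (by norm_num)
    have t3 := mul_le_mul_of_nonneg_left hK hA
    have t4 := mul_le_mul_of_nonneg_left hK1 hA
    nlinarith
  · refine mul_le_mul_of_nonneg_right ?_ (kp_pos η).le
    have : 0 ≤ A * (1 + |k|) ^ 2 := by positivity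
    nlinarith

theorem psi_stmt : PsiStmt := by
  have hW : ContDiff ℝ 2 Wt := contDiff_Wt (n := 2)
  obtain ⟨A, h0⟩ := exists_Rad hW hasCompactSupport_Wt
  have p0 := nonneg_Rad h0
  have hs : ∀ p ∈ Set.Icc (1 / 12 : ℝ) 6, Bd_Rad (9 * (9 * A)) fun r => Wt (r * p) := fun p hp => by
    have := scale_Rad (v := p / 2) (scale_Rad (v := 2) h0 (by norm_num))
      (abs_le.2 ⟨by linarith [hp.1], by linarith [hp.2]⟩)
    simpa only [mul_assoc, div_mul_cancel₀ p (two_ne_zero' ℝ)] using this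
  refine ⟨56 * (900 * (4 * (9 * (9 * A) * (9 * (9 * A))))) + 1, by positivity,
    fun k p q ξ hp hq => ?_⟩
  have h := main_Psi (mul_Rad (hs p hp) (hs q hq)) (fun x hx => by
    rw [Wt_eq_zero (x := x * p), zero_mul]
    rcases hx with hx | hx
    · left
      rcases le_total x 0 with h | h
      · nlinarith [hp.1]
      · nlinarith [hp.2]
    · right
      nlinarith [hp.1]) k ξ
  unfold Psi
  simp only [← mul_assoc] at h ⊢
  refine h.trans (mul_le_mul_of_nonneg_right (mul_le_mul_of_nonneg_right (by linarith)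
    (by positivity)) (kp_pos ξ).le)

end Pool.Agent.MP_2a1f0e_nt.GM2
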