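import Pool.Agent.MP_2a1f0e_nt.GM2.Defs

set_option autoImplicit false

open Finset

namespace Pool.Agent.MP_2a1f0e_nt.GM2

open GM

lemma sum_cut_QTwo {β : Type} [AddCommMonoid β] {s s' : Finset ℤ} (h : s ⊆ s') (ν : ℤ → ℝ)
    (F : ℝ → ℤ → β) (h0 : ∀ t, F 0 t = 0) :
    ∑ t ∈ s', F (if t ∈ s then ν t else 0) t = ∑ t ∈ s, F (ν t) t := by
  rw [← sum_subset h fun t _ ht => by rw [if_neg ht, h0]]
  exact sum_congr rfl fun t ht => by rw [if_pos ht]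

lemma Q3_cut_QTwo (N M : ℕ) {s s' : Finset ℤ} (h : s ⊆ s') (ν : ℤ → ℝ) :
    Q3 N M s' (fun t => if t ∈ s then ν t else 0) = Q3 N M s ν := by
  unfold Q3
  rw [← sum_subset h fun t _ ht => by simp [if_neg ht]]
  refine sum_congr rfl fun a ha => ?_
  rw [← sum_subset h fun t _ ht => by simp [if_neg ht]]
  refine sum_congr rfl fun b hb => ?_
  rw [← sum_subset h fun t _ ht => by simp [if_neg ht]]
  refine sum_congr rfl fun c hc => ?_
  simp only [if_pos ha, if_pos hb, if_pos hc]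

theorem q2_stmt (hD : DecStmt) (hE : ErrStmt) (hP : PartStmt) (hB : Blk2Stmt) : Q2Stmt := by
  obtain ⟨CD, hCD, hD⟩ := hD
  obtain ⟨CE, hCE, hE⟩ := hE
  obtain ⟨CB, hCB, hB⟩ := hB
  refine ⟨CE * (CD + 3) + 8 * CB, by positivity, ?_⟩
  intro N M T Xd Δ B X x ν hN hM hT hx hMx hTx hNM hXd hΔ hB0 hν hX hsup
  have hX0 : 0 ≤ X := (sum_nonneg fun t _ => sq_nonneg _).trans hX
  have hΔ1 := hΔ.1
  have hΔ0 : 0 ≤ Δ := by linarith
  have hx0 : 0 < x := by linarith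
  have hN0 : (0 : ℝ) < N := by exact_mod_cast hN
  have hR : 0 ≤ R2 N M Δ := by unfold R2; positivity
  have p1 : 0 ≤ Δ ^ 7 * x ^ 71 * (X * √X) := by positivity
  have p2 : 0 ≤ M * Δ * B * X := by positivity
  have p3 : 0 ≤ (M : ℝ) ^ 3 * B * X / N := by positivity
  have p4 : 0 ≤ M * Δ * B * √(R2 N M Δ) * (B + x ^ 6 * √X) * √X := by positivity
  have p5 : 0 ≤ (M : ℝ) ^ 2 * Δ * B ^ 3 * R2 N M Δ := by positivity
  rcases hX0.eq_or_lt with rfl | hXp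
  · have h0 : Q3 N M (Io (2 * T)) ν = 0 := by
      refine sum_eq_zero fun a ha => sum_eq_zero fun b _ => sum_eq_zero fun c _ => ?_
      have h1 : ν a = 0 := by simpa using hsup a ha
      simp [h1]
    rw [h0, norm_zero, W2]
    positivity
  have hr : 0 < √X := Real.sqrt_pos.2 hXp
  have hA : 0 < x ^ 6 * √X := by positivity
  have hXA : X / (x ^ 6 * √X) = √X / x ^ 6 := by
    rw [div_eq_div_iff hA.ne' (by positivity), mul_left_comm, Real.mul_self_sqrt hX0, mul_comm]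
  have hsub : Io (2 * T) ⊆ Io (2 * (2 * T)) := fun t ht => by
    rw [mem_Io] at ht ⊢
    push_cast at ht ⊢
    omega
  set ν' : ℤ → ℝ := fun t => if t ∈ Io (2 * T) then ν t else 0 with hν'
  have e1 : ∑ t ∈ Io (2 * T), ν' t ^ 2 ≤ X :=
    (sum_cut_QTwo subset_rfl ν (fun y _ => y ^ 2) fun _ => by simp).trans_le hX
  have e2 : ∑ t ∈ Io (2 * (2 * T)), ν' t ^ 2 ≤ X :=
    (sum_cut_QTwo hsub ν (fun y _ => y ^ 2) fun _ => by simp).trans_le hX
  have e3 : ∀ v, FT (Io (2 * (2 * T))) ν' v = FT (Io (2 * T)) ν v := fun v =>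
    sum_cut_QTwo hsub ν (fun y t => (y : ℂ) * pw v (t : ℝ)) fun _ => by simp
  obtain ⟨g, g1, g2, g3, g4, g5⟩ :=
    hD (2 * T) ν' _ X (by omega) hA (fun t ht => if_neg ht) e1
  have g6 : ∀ t, |g t| ≤ 2 * √X / x ^ 6 := fun t => by
    have h1 : |ν' t| ≤ √X / x ^ 6 := by
      simp only [hν']
      split_ifs with h
      · exact hsup t h
      · rw [abs_zero]
        positivity
    have h2 := g4 t
    rw [hXA] at h2
    have h3 := abs_sub_abs_le_abs_sub (g t) (ν' t)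
    rw [abs_sub_comm] at h3
    rw [mul_div_assoc]
    linarith
  have k1 := hE N M Δ B _ X _ _ ν' g hN hM (DivB_mono hΔ hNM) hB0 (by positivity)
    (fun v hv => by rw [e3]; exact hν v hv) e2 g3 g2 g5
  have k2 := hP N M (Io (2 * (2 * T))) g (CB * (Δ ^ 4 * x ^ 71 * (X * √X) / N)) (by positivity)
    fun M₁ M₂ M₃ S₁ S₂ S₃ e₁ e₂ e₃ d1 d2 d3 l1 l2 l3 s1 s2 s3 =>
      hB x Δ X e₁ e₂ e₃ N _ M₁ M₂ M₃ Xd S₁ S₂ S₃ g hx hN d1 d2 d3 l1 l2
        ((Nat.cast_le.2 l3).trans hMx) s1 s2 s3 (by push_cast; linarith) hXd hΔ g1 g3 g6 g2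
  rw [Q3_cut_QTwo N M hsub, hXA] at k1
  have hlog := DivB_log hΔ ((Nat.le_mul_of_pos_left M hN).trans hNM)
  have k3 : ‖Q3 N M (Io (2 * (2 * T))) g‖ ≤ 8 * CB * (N : ℝ) ^ 2 * (Δ ^ 7 * x ^ 71 * (X * √X)) := by
    refine k2.trans (le_trans (mul_le_mul_of_nonneg_right (mul_le_mul_of_nonneg_right
      (mul_le_mul_of_nonneg_left (pow_le_pow_left₀ (by positivity) hlog 3) (by norm_num))
      (by positivity)) (by positivity)) (le_of_eq ?_))
    field_simp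
  have b1 : (M : ℝ) ^ 2 * (CD * (√X / x ^ 6)) * X ≤ CD * (Δ ^ 7 * x ^ 71 * (X * √X)) := by
    have h1 : (M : ℝ) ^ 2 / x ^ 6 ≤ Δ ^ 7 * x ^ 71 := by
      rw [div_le_iff₀ (by positivity), mul_assoc, ← pow_add]
      refine (pow_le_pow_left₀ (by positivity) hMx 2).trans ?_
      rw [← pow_mul]
      exact (pow_le_pow_right₀ hx (by norm_num)).trans
        (le_mul_of_one_le_left (by positivity) (one_le_pow₀ hΔ1))
    calc _ = CD * ((M : ℝ) ^ 2 / x ^ 6 * (X * √X)) := by ring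
      _ ≤ _ := by gcongr
  have b2 : M * Δ * (x ^ 6 * √X) * X ≤ Δ ^ 7 * x ^ 71 * (X * √X) := by
    have h1 : (M : ℝ) * x ^ 6 ≤ x ^ 71 := by
      refine (mul_le_mul_of_nonneg_right hMx (by positivity)).trans ?_
      rw [← pow_add]
      exact pow_le_pow_right₀ hx (by norm_num)
    have h2 : Δ ≤ Δ ^ 7 := le_self_pow₀ hΔ1 (by norm_num)
    calc _ = Δ * (M * x ^ 6) * (X * √X) := by ring
      _ ≤ _ := by gcongr
  have b3 : M * Δ * B * √(R2 N M Δ) * (B + 3 * (x ^ 6 * √X)) * √X ≤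
      3 * (M * Δ * B * √(R2 N M Δ) * (B + x ^ 6 * √X) * √X) := by
    calc _ ≤ M * Δ * B * √(R2 N M Δ) * (3 * (B + x ^ 6 * √X)) * √X := by
          gcongr
          linarith
      _ = _ := by ring
  have hW : Δ ^ 7 * x ^ 71 * (X * √X) ≤ W2 N M Δ B X x := by
    rw [W2]
    linarith
  have b4 : (M : ℝ) ^ 2 * (CD * (√X / x ^ 6)) * X + M * Δ * (B + 3 * (x ^ 6 * √X)) * X +
      (M : ℝ) ^ 3 * B * X / N + M * Δ * B * √(R2 N M Δ) * (B + 3 * (x ^ 6 * √X)) * √X +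
      (M : ℝ) ^ 2 * Δ * B ^ 3 * R2 N M Δ ≤ (CD + 3) * W2 N M Δ B X x := by
    have h1 := mul_le_mul_of_nonneg_left hW hCD.le
    have h2 : M * Δ * (B + 3 * (x ^ 6 * √X)) * X =
        M * Δ * B * X + 3 * (M * Δ * (x ^ 6 * √X) * X) := by ring
    rw [add_mul CD, h2]
    have h3 : W2 N M Δ B X x = Δ ^ 7 * x ^ 71 * (X * √X) + M * Δ * B * X +
        (M : ℝ) ^ 3 * B * X / N + M * Δ * B * √(R2 N M Δ) * (B + x ^ 6 * √X) * √X +
        (M : ℝ) ^ 2 * Δ * B ^ 3 * R2 N M Δ := rfl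
    linarith
  have k4 := k1.trans (mul_le_mul_of_nonneg_left b4 (by positivity))
  have k5 := k3.trans (mul_le_mul_of_nonneg_left hW (by positivity))
  have k6 := norm_le_norm_sub_add (Q3 N M (Io (2 * T)) ν) (Q3 N M (Io (2 * (2 * T))) g)
  linarith

end Pool.Agent.MP_2a1f0e_nt.GM2
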