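import Pool.Agent.MP_2a1f0e_nt.GM2.Defs
import Pool.Agent.MP_2a1f0e_nt.GM.Three

set_option autoImplicit false

open Finset

namespace Pool.Agent.MP_2a1f0e_nt.GM2

open GM

open MeasureTheory

lemma series_Red {α : Type*} [MeasurableSpace α] {μ : Measure α} {F : α → ℂ} {G : ℤ → α → ℝ}
    {d : ℤ → ℝ} {Y : ℝ} (hd : Summable d) (d0 : ∀ k, 0 ≤ d k) (hG : ∀ k, Integrable (G k) μ)
    (G0 : ∀ k x, 0 ≤ G k x) (hY : ∀ k, ∫ x, G k x ∂μ ≤ Y)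
    (hF : ∀ᵐ x ∂μ, ∃ f : ℤ → ℂ, HasSum f (F x) ∧ ∀ k, ‖f k‖ ≤ d k * G k x) :
    ‖∫ x, F x ∂μ‖ ≤ (∑' k, d k) * Y := by
  have Y0 : 0 ≤ Y := (integral_nonneg (G0 0)).trans (hY 0)
  rw [← ENNReal.ofReal_le_ofReal_iff (mul_nonneg (tsum_nonneg d0) Y0), ofReal_norm,
    ← tsum_mul_right, ENNReal.ofReal_tsum_of_nonneg (fun k => mul_nonneg (d0 k) Y0)
      (hd.mul_right Y)]
  calc ‖∫ x, F x ∂μ‖ₑ ≤ ∫⁻ x, ‖F x‖ₑ ∂μ := enorm_integral_le_lintegral_enorm F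
    _ ≤ ∫⁻ x, ∑' k, ENNReal.ofReal (d k * G k x) ∂μ := by
      refine lintegral_mono_ae (hF.mono fun x hx => ?_)
      obtain ⟨f, h1, h2⟩ := hx
      rw [← h1.tsum_eq]
      refine enorm_tsum_le_tsum_enorm.trans (ENNReal.tsum_le_tsum fun k => ?_)
      rw [← ofReal_norm]
      exact ENNReal.ofReal_le_ofReal (h2 k)
    _ = ∑' k, ∫⁻ x, ENNReal.ofReal (d k * G k x) ∂μ :=
      lintegral_tsum fun k => ((hG k).const_mul _).aemeasurable.ennreal_ofReal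
    _ ≤ _ := by
      refine ENNReal.tsum_le_tsum fun k => ?_
      rw [← ofReal_integral_eq_lintegral_ofReal ((hG k).const_mul _)
        (Filter.Eventually.of_forall fun x => mul_nonneg (d0 k) (G0 k x)), integral_const_mul]
      exact ENNReal.ofReal_le_ofReal (mul_le_mul_of_nonneg_left (hY k) (d0 k))

lemma box_Red {E : Type*} [NormedAddCommGroup E] [NormedSpace ℝ E] {a b c d : ℝ} (hab : a ≤ b)
    (hcd : c ≤ d) (f : ℝ → ℝ → E)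
    (hf : ContinuousOn (fun p : ℝ × ℝ => f p.1 p.2) (Set.Icc a b ×ˢ Set.Icc c d)) :
    Integrable (fun p : ℝ × ℝ => f p.1 p.2)
      (((volume : Measure ℝ).prod volume).restrict (Set.Ioc a b ×ˢ Set.Ioc c d)) ∧
    ∫ z in a..b, ∫ w in c..d, f z w = ∫ p, f p.1 p.2
      ∂(((volume : Measure ℝ).prod volume).restrict (Set.Ioc a b ×ˢ Set.Ioc c d)) := by
  have h : IntegrableOn (fun p : ℝ × ℝ => f p.1 p.2) (Set.Ioc a b ×ˢ Set.Ioc c d)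
      ((volume : Measure ℝ).prod volume) :=
    (hf.integrableOn_compact (isCompact_Icc.prod isCompact_Icc)).mono_set
      (Set.prod_mono Set.Ioc_subset_Icc_self Set.Ioc_subset_Icc_self)
  refine ⟨h, ?_⟩
  rw [setIntegral_prod _ h, intervalIntegral.integral_of_le hab]
  simp only [intervalIntegral.integral_of_le hcd]

lemma sum_Red {α ι : Type*} [MeasurableSpace α] {μ : Measure α} {s : Finset ι} {f : ι → α → ℂ}
    {I : ι → ℂ} (h : ∀ i ∈ s, Integrable (f i) μ ∧ I i = ∫ x, f i x ∂μ) :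
    Integrable (fun x => ∑ i ∈ s, f i x) μ ∧ ∑ i ∈ s, I i = ∫ x, ∑ i ∈ s, f i x ∂μ :=
  ⟨integrable_finsetSum _ fun i hi => (h i hi).1, by
    rw [integral_finsetSum _ fun i hi => (h i hi).1]
    exact sum_congr rfl fun i hi => (h i hi).2⟩

lemma cont_R4_Red {α : Type*} [TopologicalSpace α] [FirstCountableTopology α] {u : ℝ}
    (hu : u ∈ Set.Icc (1 / 2 : ℝ) 1) {p q ξ : α → ℝ} (hp : Continuous p) (hq : Continuous q)
    (hξ : Continuous ξ) : Continuous fun x => R4 u (p x) (q x) (ξ x) := by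
  have e : ∀ p q ξ : ℝ, R4 u p q ξ = ∫ r in (0 : ℝ)..5,
      ((r ^ 2 * Wt (r * u) * Wt (r * p) * Wt (r * q) : ℝ) : ℂ) * ex (-(ξ * r)) := by
    intro p q ξ
    symm
    apply intervalIntegral.integral_eq_integral_of_support_subset
    intro r hr
    have hW : Wt (r * u) ≠ 0 := fun h0 => hr (by simp [h0])
    obtain ⟨a1, a2⟩ := mem_of_Wt_ne_zero hW
    have h0 : 0 < r := by
      by_contra hc
      nlinarith [hu.1, not_lt.1 hc]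
    exact ⟨h0, by nlinarith [hu.1]⟩
  simp only [e]
  apply intervalIntegral.continuous_parametric_intervalIntegral_of_continuous'
  have h1 := continuous_Wt
  have h2 := continuous_ex
  unfold Function.uncurry
  fun_prop

lemma mem_Red {M M₃ n : ℕ} (h1 : 1 ≤ M) (h3 : 1 ≤ M₃) (hn : n ∈ Ico M (2 * M)) {z : ℝ}
    (hz : z ∈ Set.Icc ((M : ℝ) / M₃ / 6) (6 * (M / M₃))) :
    z * M₃ / n ∈ Set.Icc (1 / 12 : ℝ) 6 := by
  obtain ⟨a1, a2⟩ := mem_Ico.1 hn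
  have b0 : (0 : ℝ) < M := by exact_mod_cast h1
  have b1 : (M : ℝ) ≤ n := by exact_mod_cast a1
  have b2 : (n : ℝ) ≤ 2 * M := by exact_mod_cast a2.le
  have b3 : (0 : ℝ) < M₃ := by exact_mod_cast h3
  obtain ⟨c1, c2⟩ := hz
  rw [div_right_comm, div_le_iff₀ b3] at c1
  rw [← mul_div_assoc, le_div_iff₀ b3] at c2
  constructor
  · rw [le_div_iff₀ (by linarith)]
    linarith
  · rw [div_le_iff₀ (by linarith)]
    linarith

lemma memu_Red {M n : ℕ} (h1 : 1 ≤ M) (hn : n ∈ Ico M (2 * M)) :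
    (M : ℝ) / n ∈ Set.Icc (1 / 2 : ℝ) 1 := by
  obtain ⟨a1, a2⟩ := mem_Ico.1 hn
  have b0 : (0 : ℝ) < M := by exact_mod_cast h1
  have b1 : (M : ℝ) ≤ n := by exact_mod_cast a1
  have b2 : (n : ℝ) ≤ 2 * M := by exact_mod_cast a2.le
  constructor
  · rw [le_div_iff₀ (by linarith)]
    linarith
  · rw [div_le_iff₀ (by linarith)]
    linarith

lemma FT3_Red (s : Finset ℤ) (g : ℤ → ℝ) {v w : ℝ} (hv : v ≠ 0) (hw : w ≠ 0) (K R : ℂ) :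
    ∑ a ∈ s, ∑ b ∈ s, ∑ c ∈ s, ((g a * g b * g c : ℝ) : ℂ) *
      (K * (pw v ((a : ℝ) - b) * pw w ((b : ℝ) - c) * R)) =
      K * (FT s g v * FT s g (w / v) * FT s g w⁻¹) * R := by
  unfold FT
  rw [sum_mul_sum, sum_mul, mul_sum, sum_mul]
  refine sum_congr rfl fun a _ => ?_
  rw [sum_mul, mul_sum, sum_mul]
  refine sum_congr rfl fun b _ => ?_
  rw [mul_sum, mul_sum, sum_mul]
  refine sum_congr rfl fun c _ => ?_
  rw [pw_div hw hv, pw_inv, sub_eq_add_neg, sub_eq_add_neg, pw_add, pw_add]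
  push_cast
  ring

theorem red_stmt (hK : Key2Stmt) (hR : RexpStmt) (hP : PsiStmt) : RedStmt := by
  obtain ⟨c, hc, hR⟩ := hR
  obtain ⟨C, hC, hP⟩ := hP
  have t0 : 0 ≤ ∑' k : ℤ, ‖c k‖ * (1 + |(k : ℝ)|) ^ 2 := tsum_nonneg fun k => by positivity
  refine ⟨C * (∑' k : ℤ, ‖c k‖ * (1 + |(k : ℝ)|) ^ 2 + 1), by positivity, ?_⟩
  intro N M₁ M₂ M₃ S₁ S₂ S₃ e₁ e₂ e₃ Y s g h₁ h₂ h₃ hY
  have m1 : (0 : ℝ) < M₁ := by exact_mod_cast h₁.1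
  have m2 : (0 : ℝ) < M₂ := by exact_mod_cast h₂.1
  have m3 : (0 : ℝ) < M₃ := by exact_mod_cast h₃.1
  have a1 : (0 : ℝ) < M₁ / M₃ := by positivity
  have a2 : (0 : ℝ) < M₂ / M₃ := by positivity
  have b1 : (M₁ : ℝ) / M₃ / 6 ≤ 6 * (M₁ / M₃) := by linarith
  have b2 : (M₂ : ℝ) / M₃ / 6 ≤ 6 * (M₂ / M₃) := by linarith
  have Y0 : 0 ≤ Y := le_trans (intervalIntegral.integral_nonneg b1 fun z _ =>
    intervalIntegral.integral_nonneg b2 fun w _ =>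
      mul_nonneg (kp_pos _).le (Hf_nonneg _ _ _ _ _ _ _ _)) (hY 0 fun n _ => by simp)
  have z0 : ∀ p ∈ Set.Icc ((M₁ : ℝ) / M₃ / 6) (6 * (M₁ / M₃)) ×ˢ
      Set.Icc ((M₂ : ℝ) / M₃ / 6) (6 * (M₂ / M₃)), 0 < p.1 := fun p hp => by
    linarith [hp.1.1]
  have w0 : ∀ p ∈ Set.Icc ((M₁ : ℝ) / M₃ / 6) (6 * (M₁ / M₃)) ×ˢ
      Set.Icc ((M₂ : ℝ) / M₃ / 6) (6 * (M₂ / M₃)), 0 < p.2 := fun p hp => by
    linarith [hp.2.1]
  have n0 : ∀ {M : ℕ} {S : Finset ℕ}, Dy M S → ∀ n ∈ S, (0 : ℝ) < n := fun h n hn => by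
    exact_mod_cast h.one_le n hn
  have eQ : Qb N s g S₁ S₂ S₃ e₁ e₂ e₃ = ∫ p : ℝ × ℝ,
      ∑ n₁ ∈ S₁, ∑ n₂ ∈ S₂, ∑ n₃ ∈ S₃, ∑ a ∈ s, ∑ b ∈ s, ∑ c ∈ s, ((g a * g b * g c : ℝ) : ℂ) *
        ((((M₃ : ℝ) ^ 3 / (n₁ * n₂ * n₃) : ℝ) : ℂ) *
          (pw (p.1 * n₃ / n₁) ((a : ℝ) - b) * pw (p.2 * n₃ / n₂) ((b : ℝ) - c) *
            R4 (M₃ / n₃) (p.1 * M₃ / n₁) (p.2 * M₃ / n₂)
              (M₃ * (e₁ * N * p.1 + e₂ * N * p.2 + e₃ * N))))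
      ∂(((volume : Measure ℝ).prod volume).restrict
        (Set.Ioc ((M₁ : ℝ) / M₃ / 6) (6 * (M₁ / M₃)) ×ˢ
          Set.Ioc ((M₂ : ℝ) / M₃ / 6) (6 * (M₂ / M₃)))) := by
    refine (sum_Red fun n₁ k₁ => sum_Red fun n₂ k₂ => sum_Red fun n₃ k₃ => sum_Red fun a _ =>
      sum_Red fun b _ => sum_Red fun c _ => ?_).2
    obtain ⟨i1, i2⟩ := box_Red b1 b2 (fun z w =>
      pw (z * n₃ / n₁) ((a : ℝ) - b) * pw (w * n₃ / n₂) ((b : ℝ) - c) *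
        R4 (M₃ / n₃) (z * M₃ / n₁) (w * M₃ / n₂) (M₃ * (e₁ * N * z + e₂ * N * w + e₃ * N)))
      ((((continuousOn_pw _).comp (by fun_prop) fun p hp =>
          div_pos (mul_pos (z0 p hp) (n0 h₃ _ k₃)) (n0 h₁ _ k₁)).mul
        ((continuousOn_pw _).comp (by fun_prop) fun p hp =>
          div_pos (mul_pos (w0 p hp) (n0 h₃ _ k₃)) (n0 h₂ _ k₂))).mul
        (cont_R4_Red (memu_Red h₃.1 (h₃.2 k₃)) (by fun_prop) (by fun_prop)
          (by fun_prop)).continuousOn)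
    refine ⟨(i1.const_mul _).const_mul _, ?_⟩
    rw [integral_const_mul, integral_const_mul, ← i2,
      hK M₁ M₂ M₃ n₁ n₂ n₃ _ _ _ _ _ _ (h₁.2 k₁) (h₂.2 k₂) (h₃.2 k₃) (by ring)]
  let γ : ℤ → ℕ → ℂ := fun k n => (((M₃ : ℝ) / n : ℝ) : ℂ) * pw ((M₃ : ℝ) / n) k
  have hγ : ∀ k, ∀ n ∈ S₃, ‖γ k n‖ ≤ 1 := fun k n hn => by
    have := memu_Red h₃.1 (h₃.2 hn)
    rw [norm_mul, norm_pw, mul_one, Complex.norm_real, Real.norm_of_nonneg (by linarith [this.1])]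
    exact this.2
  have hG := fun k => box_Red b1 b2 (fun z w =>
    kp ((N : ℝ) * M₃ * (e₁ * z + e₂ * w + e₃)) * Hf s g S₁ S₂ S₃ (γ k) z w)
    ((continuous_kp.comp (by fun_prop)).continuousOn.mul
      (continuousOn_Hf s g h₁.one_le h₂.one_le h₃.one_le (γ k) continuousOn_fst continuousOn_snd
        z0 w0))
  rw [eQ]
  refine (series_Red (Y := Y)
    (hc.mul_left (C * ((M₃ : ℝ) ^ 2 / (M₁ * M₂)))) (fun k => by positivity) (fun k => (hG k).1)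
    (fun k p => mul_nonneg (kp_pos _).le (Hf_nonneg _ _ _ _ _ _ _ _))
    (fun k => (hG k).2.symm.le.trans (hY _ (hγ k))) ?_).trans ?_
  · refine (ae_restrict_mem (measurableSet_Ioc.prod measurableSet_Ioc)).mono fun p hp => ?_
    obtain ⟨z, w⟩ := p
    have hz : z ∈ Set.Icc _ _ := Set.Ioc_subset_Icc_self hp.1
    have hw : w ∈ Set.Icc _ _ := Set.Ioc_subset_Icc_self hp.2
    have z1 : 0 < z := z0 (z, w) ⟨hz, hw⟩
    have w1 : 0 < w := w0 (z, w) ⟨hz, hw⟩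
    simp only
    rw [show (M₃ : ℝ) * (e₁ * N * z + e₂ * N * w + e₃ * N) =
      (N : ℝ) * M₃ * (e₁ * z + e₂ * w + e₃) by ring]
    generalize (N : ℝ) * M₃ * (e₁ * z + e₂ * w + e₃) = ξ
    refine ⟨fun k => ∑ n₁ ∈ S₁, ∑ n₂ ∈ S₂,
      c k * (((M₃ : ℝ) ^ 2 / (n₁ * n₂) : ℝ) : ℂ) * Psi k (z * M₃ / n₁) (w * M₃ / n₂) ξ *
        (FT s g (w / z * n₁ / n₂) * Inn s g S₃ (γ k) z w n₁ n₂),
      hasSum_sum fun n₁ k₁ => hasSum_sum fun n₂ k₂ => ?_, fun k => ?_⟩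
    · simp only [Inn, mul_sum S₃]
      refine hasSum_sum fun n₃ k₃ => ?_
      have p1 := n0 h₁ _ k₁
      have p2 := n0 h₂ _ k₂
      have p3 := n0 h₃ _ k₃
      rw [FT3_Red s g (by positivity) (by positivity),
        show w * n₃ / n₂ / (z * n₃ / n₁) = w / z * n₁ / n₂ by field_simp, inv_div]
      refine Eq.mp (congrArg₂ (HasSum · ·) (funext fun k => ?_) rfl)
        ((hR _ _ (w * M₃ / n₂) ξ (memu_Red h₃.1 (h₃.2 k₃))
          (mem_Red h₁.1 h₃.1 (h₁.2 k₁) hz)).mul_left _)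
      rw [show (M₃ : ℝ) ^ 3 / (n₁ * n₂ * n₃) = (M₃ : ℝ) ^ 2 / (n₁ * n₂) * (M₃ / n₃) by field_simp,
        Complex.ofReal_mul]
      simp only [γ]
      ring
    · unfold Hf
      rw [← mul_assoc, mul_sum]
      refine norm_sum_le_of_le _ fun n₁ k₁ => ?_
      rw [mul_sum]
      refine norm_sum_le_of_le _ fun n₂ k₂ => ?_
      have p1 : (M₁ : ℝ) ≤ n₁ := by exact_mod_cast (mem_Ico.1 (h₁.2 k₁)).1
      have p2 : (M₂ : ℝ) ≤ n₂ := by exact_mod_cast (mem_Ico.1 (h₂.2 k₂)).1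
      have p3 := hP k _ _ ξ (mem_Red h₁.1 h₃.1 (h₁.2 k₁) hz) (mem_Red h₂.1 h₃.1 (h₂.2 k₂) hw)
      have p4 : (M₃ : ℝ) ^ 2 / (n₁ * n₂) ≤ (M₃ : ℝ) ^ 2 / (M₁ * M₂) := by gcongr
      rw [norm_mul, norm_mul, norm_mul, norm_mul, Complex.norm_real,
        Real.norm_of_nonneg (by positivity)]
      refine mul_le_mul_of_nonneg_right ?_ (by positivity)
      calc _ ≤ ‖c k‖ * ((M₃ : ℝ) ^ 2 / (M₁ * M₂)) * (C * (1 + |(k : ℝ)|) ^ 2 * kp ξ) := by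
            gcongr
        _ = _ := by ring
  · rw [tsum_mul_left]
    refine mul_le_mul_of_nonneg_right ?_ Y0
    have : 0 ≤ C * ((M₃ : ℝ) ^ 2 / (M₁ * M₂)) := by positivity
    linarith

end Pool.Agent.MP_2a1f0e_nt.GM2
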