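import Pool.Agent.MP_2a1f0e_nt.GM2.Defs

set_option autoImplicit false

open Finset

namespace Pool.Agent.MP_2a1f0e_nt.GM2

open GM

lemma mem_Rexp {p r : ℝ} (hp : p ∈ Set.Icc (1 / 12 : ℝ) 6) (h : Wt (r * p) ≠ 0) :
    r ∈ Set.Icc (1 / 8 : ℝ) 27 := by
  obtain ⟨h1, h2⟩ := mem_of_Wt_ne_zero h
  obtain ⟨p1, p2⟩ := hp
  have h0 : 0 < r := by
    by_contra h
    have := mul_nonpos_of_nonpos_of_nonneg (not_lt.1 h) (by linarith : 0 ≤ p)
    linarith
  constructor <;> nlinarith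

lemma int_Rexp {p : ℝ} (hp : p ∈ Set.Icc (1 / 12 : ℝ) 6) (q : ℝ) :
    MeasureTheory.Integrable fun r : ℝ => r ^ 2 * Wt (r * p) * Wt (r * q) := by
  have := continuous_Wt
  refine Continuous.integrable_of_hasCompactSupport (by fun_prop)
    (HasCompactSupport.intro (isCompact_Icc (a := (1 / 8 : ℝ)) (b := 27)) fun r hr => ?_)
  have h : Wt (r * p) = 0 := by
    by_contra h
    exact hr (mem_Rexp hp h)
  rw [h, mul_zero, zero_mul]

theorem rexp_stmt (h : FouStmt) : RexpStmt := by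
  obtain ⟨c, h1, h2⟩ := h
  refine ⟨c, h1, fun u p q ξ hu hp => ?_⟩
  have hc : Summable fun k : ℤ => ‖c k‖ := by
    refine Summable.of_nonneg_of_le (fun _ => norm_nonneg _) (fun k => ?_) h1
    exact le_mul_of_one_le_right (norm_nonneg _)
      (one_le_pow₀ (le_add_of_nonneg_right (abs_nonneg _)))
  have hG := int_Rexp hp q
  have hn : ∀ (k : ℤ) (r : ℝ), ‖c k * pw u k *
      (((r ^ 2 * Wt (r * p) * Wt (r * q) : ℝ) : ℂ) * pw r k * ex (-(ξ * r)))‖ =
      ‖c k‖ * ‖r ^ 2 * Wt (r * p) * Wt (r * q)‖ := fun k r => by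
    rw [norm_mul, norm_mul, norm_mul, norm_mul, norm_pw, norm_pw, norm_ex, Complex.norm_real,
      mul_one, mul_one, mul_one]
  have key := MeasureTheory.hasSum_integral_of_summable_integral_norm
    (μ := MeasureTheory.volume) (F := fun (k : ℤ) (r : ℝ) => c k * pw u k *
      (((r ^ 2 * Wt (r * p) * Wt (r * q) : ℝ) : ℂ) * pw r k * ex (-(ξ * r))))
    (fun k => by
      refine (hG.norm.const_mul ‖c k‖).mono' ?_ (Filter.Eventually.of_forall fun r => (hn k r).le)
      have k1 := continuous_Wt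
      have k2 := continuous_ex
      have k3 : Continuous fun r : ℝ => ((r ^ 2 * Wt (r * p) * Wt (r * q) : ℝ) : ℂ) := by fun_prop
      have k4 : Continuous fun r : ℝ => ex (-(ξ * r)) := by fun_prop
      exact (measurable_const.mul ((k3.measurable.mul (measurable_pw k)).mul
        k4.measurable)).aestronglyMeasurable)
    (by
      simp only [hn, MeasureTheory.integral_const_mul]
      exact hc.mul_right _)
  have e : ∀ r : ℝ, ∑' k : ℤ, c k * pw u k *
      (((r ^ 2 * Wt (r * p) * Wt (r * q) : ℝ) : ℂ) * pw r k * ex (-(ξ * r))) =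
      ((r ^ 2 * Wt (r * u) * Wt (r * p) * Wt (r * q) : ℝ) : ℂ) * ex (-(ξ * r)) := fun r => by
    by_cases h0 : Wt (r * p) = 0
    · simp [h0]
    obtain ⟨r1, r2⟩ := mem_Rexp hp h0
    obtain ⟨u1, u2⟩ := hu
    have k1 := (h2 (r * u) ⟨by nlinarith, by nlinarith⟩).mul_right
      (((r ^ 2 * Wt (r * p) * Wt (r * q) : ℝ) : ℂ) * ex (-(ξ * r)))
    have k2 : (fun k : ℤ => c k * pw u k *
        (((r ^ 2 * Wt (r * p) * Wt (r * q) : ℝ) : ℂ) * pw r k * ex (-(ξ * r)))) =
        fun k : ℤ => c k * pw (r * u) k *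
          (((r ^ 2 * Wt (r * p) * Wt (r * q) : ℝ) : ℂ) * ex (-(ξ * r))) := by
      funext k
      rw [pw_mul (by linarith : 0 < r).ne' (by linarith : 0 < u).ne']
      ring
    rw [k2, k1.tsum_eq]
    push_cast
    ring
  simp only [e, MeasureTheory.integral_const_mul] at key
  exact key

end Pool.Agent.MP_2a1f0e_nt.GM2
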