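import Pool.Agent.MP_2a1f0e_nt.GM2.Defs

set_option autoImplicit false

open Finset

namespace Pool.Agent.MP_2a1f0e_nt.GM2

open GM

lemma root_Seg {U K c t : ℝ} (hK : 1 ≤ K) (hc : c ≤ K) (ht : 0 ≤ t) (h : U ^ 6 ≤ c * t ^ 6) :
    U ≤ K * t := by
  have h1 : K ≤ K ^ 6 := le_self_pow₀ hK (by norm_num)
  have h2 : U ^ 6 ≤ (K * t) ^ 6 := by
    rw [mul_pow]
    exact h.trans (mul_le_mul_of_nonneg_right (hc.trans h1) (by positivity))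
  exact le_of_pow_le_pow_left₀ (by norm_num) (by positivity) h2

theorem seg_stmt (hC : CoreStmt) (hE : ExpStmt) (hB : BBStmt) (hG : GYStmt) (hM : MomStmt) :
    SegStmt := by
  obtain ⟨CC, CC0, hC⟩ := hC
  obtain ⟨CB, CB0, hB⟩ := hB
  obtain ⟨CM, CM0, hM⟩ := hM
  set K : ℝ := 1 + 3 ^ 10 * 4608 * CM with hK
  have K1 : 1 ≤ K := by rw [hK]; nlinarith
  refine ⟨CC * (CB * (2 * K)), by positivity, ?_⟩
  intro x Δ X a b κ σ z₀ z₁ L M₁ M₂ M₃ Xd S₁ S₂ S₃ γ g hx d1 d2 d3 m1 m2 m3 hL hXd hΔ hS hX hθ hA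
    hγ hl
  have x0 : 0 < x := by linarith
  have X0 : 0 ≤ X := (sum_nonneg fun _ _ => sq_nonneg _).trans hX
  have Δ1 : 1 ≤ Δ := hΔ.1
  have Δ0 : 0 ≤ Δ := by linarith
  have e6 : (x ^ 6) ^ 6 = x ^ 36 := by ring
  have e36 : (x ^ 6) ^ 36 = x ^ 216 := by ring
  have p216 : 0 < x ^ 216 := by positivity
  have hY : (((2 * M₃ : ℕ) : ℝ)) ^ 6 ≤ 64 * x ^ 216 := by
    have : ((M₃ : ℝ)) ^ 6 ≤ (x ^ 36) ^ 6 := pow_le_pow_left₀ (by positivity) m3 6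
    calc (((2 * M₃ : ℕ) : ℝ)) ^ 6 = 64 * (M₃ : ℝ) ^ 6 := by push_cast; ring
      _ ≤ 64 * (x ^ 36) ^ 6 := by linarith
      _ = 64 * x ^ 216 := by ring
  have hYn : (2 * M₃) ^ 6 ≤ Xd := by
    have : (((2 * M₃ : ℕ) : ℝ)) ^ 6 ≤ (Xd : ℝ) := by linarith
    exact_mod_cast this
  have hR : (((2 * L : ℕ) : ℝ)) ≤ 8 * x ^ 216 := by push_cast; linarith
  have hm := hM 6 (2 * M₃) (2 * L) Xd Δ S₃ (fun _ => 1) (by norm_num) le_rfl (by simp)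
    (fun n hn => by
      have h1 := mem_Ico.1 (d3.2 hn)
      have h2 := d3.1
      omega) hYn hΔ
  have hZ : ∑ p ∈ Io (2 * L), ‖∑ n ∈ S₃, pw (n : ℝ) p‖ ^ 12 ≤ 4608 * CM * Δ ^ 6 * x ^ 432 := by
    calc ∑ p ∈ Io (2 * L), ‖∑ n ∈ S₃, pw (n : ℝ) p‖ ^ 12
        ≤ ∑ p ∈ Icc (-((2 * L : ℕ) : ℤ)) ((2 * L : ℕ) : ℤ), ‖∑ n ∈ S₃, pw (n : ℝ) p‖ ^ 12 :=
          sum_le_sum_of_subset_of_nonneg Ioo_subset_Icc_self fun _ _ _ => by positivity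
      _ ≤ CM * Δ ^ 6 * ((((2 * L : ℕ) : ℝ) + (((2 * M₃ : ℕ) : ℝ)) ^ 6) *
          (((2 * M₃ : ℕ) : ℝ)) ^ 6) := by simpa only [one_mul] using hm
      _ ≤ CM * Δ ^ 6 * ((8 * x ^ 216 + 64 * x ^ 216) * (64 * x ^ 216)) := by gcongr
      _ = 4608 * CM * Δ ^ 6 * x ^ 432 := by ring
  obtain ⟨g1, g2⟩ := hG L g S₃ X _ _ _ hS hX hθ hA hZ
  have sq : √X ^ 2 = X := Real.sq_sqrt X0
  have hG' : ∀ ρ, ∑ i ∈ S₃ ×ˢ S₃, ‖Fh L g i ρ‖ ^ 2 ≤ K * (X ^ 2 * Δ * x ^ 70) := by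
    intro ρ
    refine root_Seg (c := 4 * 4608 * CM) K1 (by rw [hK]; nlinarith) (by positivity)
      ((g1 ρ).trans (le_of_eq ?_))
    rw [div_pow, mul_pow, sq]
    field_simp
    ring
  have hY' : ∑ i ∈ S₃ ×ˢ S₃, N2 (Io (2 * L)) (Fh L g i) ≤ K * (X ^ 2 * Δ * x ^ 82) := by
    refine root_Seg (c := 3 ^ 10 * 4608 * CM) K1 (by rw [hK]; linarith) (by positivity)
      (g2.trans (le_of_eq ?_))
    have : √X ^ 10 = X ^ 5 := by rw [show 10 = 2 * 5 from rfl, pow_mul, sq]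
    rw [mul_pow, mul_pow, this]
    ring
  have hb := hB (x ^ 6) Δ a b κ σ z₀ z₁ _ _ M₁ M₂ (2 * L) Xd (S₃ ×ˢ S₃) (Fh L g)
    (one_le_pow₀ hx) d1.1 (by rwa [e6]) d2.1 (by rwa [e6]) (by rwa [e36]) (by rwa [e36]) hΔ hl
    hY' hG'
  have he := hE a b κ σ z₀ z₁ L M₁ M₂ S₃ γ g hl hS d3.one_le hγ
  have hc := hC a b κ σ z₀ z₁ X M₁ M₂ S₁ S₂ S₃ γ (Io L) g hl d1 d2 d3.one_le hX
  have a0 : 0 < a := hl.1
  have b0 : 0 < b := hl.2.2.1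
  have hΔ8 : Δ ≤ Δ ^ 8 := le_self_pow₀ Δ1 (by norm_num)
  have h2 : Δ ^ 7 * (x ^ 6) ^ 10 * (K * (X ^ 2 * Δ * x ^ 82)) +
      (x ^ 6) ^ 12 * (K * (X ^ 2 * Δ * x ^ 70)) ≤ 2 * K * (Δ ^ 8 * x ^ 142 * X ^ 2) := by
    calc _ = K * (x ^ 142 * X ^ 2) * (Δ ^ 8 + Δ) := by ring
      _ ≤ K * (x ^ 142 * X ^ 2) * (Δ ^ 8 + Δ ^ 8) :=
          mul_le_mul_of_nonneg_left (by linarith)
            (mul_nonneg (by linarith) (mul_nonneg (pow_nonneg x0.le _) (sq_nonneg _)))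
      _ = _ := by ring
  calc _ ≤ _ := hc
    _ ≤ CC * (M₁ * M₂ * (a * b) * X) * (CB * (2 * K * (Δ ^ 8 * x ^ 142 * X ^ 2))) := by
        gcongr
        exact he.trans (hb.trans (by gcongr))
    _ = _ := by ring

end Pool.Agent.MP_2a1f0e_nt.GM2
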