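import Pool.Agent.MP_2a1f0e_nt.GM2.Defs

set_option autoImplicit false

open Finset

namespace Pool.Agent.MP_2a1f0e_nt.GM2

open GM

open MeasureTheory in
lemma swap_Shear {F : ℝ × ℝ → ℝ} (hF : Integrable F (volume.prod volume)) (σ : ℝ) :
    ∫ z, ∫ w, F (z, w) = ∫ κ, ∫ z, F (z, κ + σ * z) ∧
      Integrable fun κ => ∫ z, F (z, κ + σ * z) := by
  have hm : MeasurePreserving (fun p : ℝ × ℝ => (id p.1, p.2 + σ * p.1)) (volume.prod volume)
      (volume.prod volume) :=
    (MeasurePreserving.id volume).skew_product (g := fun z κ : ℝ => κ + σ * z) (by fun_prop)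
      (.of_forall fun z => map_add_right_eq_self volume (σ * z))
  have hI := hm.integrable_comp_of_integrable hF
  refine ⟨?_, hI.integral_prod_right⟩
  rw [← integral_integral_swap (f := fun z κ => F (z, κ + σ * z)) hI]
  exact integral_congr_ae (.of_forall fun z =>
    (integral_add_right_eq_self (fun w => F (z, w)) (σ * z)).symm)

open MeasureTheory in
lemma box_Shear {a a' b b' : ℝ} (ha : a ≤ a') (hb : b ≤ b') (φ : ℝ → ℝ → ℝ) :
    ∫ z in a..a', ∫ w in b..b', φ z w = ∫ z, ∫ w,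
      (Set.Icc a a' ×ˢ Set.Icc b b').indicator (fun p : ℝ × ℝ => φ p.1 p.2) (z, w) := by
  simp only [intervalIntegral.integral_of_le ha, intervalIntegral.integral_of_le hb,
    ← integral_Icc_eq_integral_Ioc, ← integral_indicator measurableSet_Icc]
  refine integral_congr_ae (.of_forall fun z => ?_)
  by_cases hz : z ∈ Set.Icc a a'
  · simp only [Set.indicator_of_mem hz]
    refine integral_congr_ae (.of_forall fun w => ?_)
    by_cases hw : w ∈ Set.Icc b b'
    · simp only [Set.indicator_of_mem hw, Set.indicator_of_mem (Set.mk_mem_prod hz hw)]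
    · simp only [Set.indicator, Set.mem_prod, hw, and_false, if_false]
  · simp only [Set.indicator, Set.mem_prod, hz, false_and, if_false, integral_zero]

lemma slice_Shear {σ : ℝ} (hσ : Sg σ) (a a' b b' κ : ℝ) : ∃ z₀ z₁ : ℝ, ∀ z,
    z ∈ Set.Icc z₀ z₁ ↔ z ∈ Set.Icc a a' ∧ κ + σ * z ∈ Set.Icc b b' := by
  rcases hσ with rfl | rfl
  · refine ⟨max a (b - κ), min a' (b' - κ), fun z => ?_⟩
    simp only [Set.mem_Icc, max_le_iff, le_min_iff]
    constructor <;> rintro ⟨⟨_, _⟩, _, _⟩ <;> refine ⟨⟨?_, ?_⟩, ?_, ?_⟩ <;> linarith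
  · refine ⟨max a (κ - b'), min a' (κ - b), fun z => ?_⟩
    simp only [Set.mem_Icc, max_le_iff, le_min_iff]
    constructor <;> rintro ⟨⟨_, _⟩, _, _⟩ <;> refine ⟨⟨?_, ?_⟩, ?_, ?_⟩ <;> linarith

open MeasureTheory in
lemma kp_Shear {L : ℝ} (hL : 0 < L) (c : ℝ) :
    Integrable (fun x => kp (L * (x + c))) ∧ ∫ x, kp (L * (x + c)) ≤ 4 / L := by
  have e : kp = fun x => (1 + x ^ 2)⁻¹ := funext fun x => one_div _
  refine ⟨((e ▸ integrable_inv_one_add_sq : Integrable kp).comp_mul_left' hL.ne').comp_add_right c,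
    ?_⟩
  rw [integral_add_right_eq_self (fun x => kp (L * x)) c, Measure.integral_comp_mul_left, e,
    integral_univ_inv_one_add_sq, abs_of_pos (inv_pos.2 hL), smul_eq_mul, div_eq_inv_mul]
  exact mul_le_mul_of_nonneg_left Real.pi_le_four (inv_pos.2 hL).le

lemma small_Shear {L c κ : ℝ} (hL : 0 < L) (hc : Sg c) (h : |κ| < 1 / 2) :
    kp (L * (κ + c)) ≤ 4 / L ^ 2 := by
  obtain ⟨h1, h2⟩ := abs_lt.1 h
  have h3 : 1 / 4 ≤ (κ + c) ^ 2 := by rcases hc with rfl | rfl <;> nlinarith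
  rw [kp, div_le_div_iff₀ (by positivity) (by positivity), mul_pow]
  nlinarith [mul_le_mul_of_nonneg_left h3 (sq_nonneg L)]

open MeasureTheory in
theorem shear_stmt : ShearStmt := by
  intro a b L Y₀ Y₁ e₁ e₂ e₃ H a0 a1 b0 b1 hL s1 s2 s3 hY hc h0 hY0 hl
  have ha : a / 6 ≤ 6 * a := by linarith
  have hb : b / 6 ≤ 6 * b := by linarith
  have hσ : Sg (-(e₁ * e₂)) := by
    rcases s1 with rfl | rfl <;> rcases s2 with rfl | rfl <;> simp [Sg]
  have hc3 : Sg (e₂ * e₃) := by
    rcases s2 with rfl | rfl <;> rcases s3 with rfl | rfl <;> simp [Sg]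
  have hk : ∀ z κ, kp (L * (e₁ * z + e₂ * (κ + -(e₁ * e₂) * z) + e₃)) = kp (L * (κ + e₂ * e₃)) :=
    fun z κ => by
      unfold kp
      rcases s2 with rfl | rfl <;> ring
  set B := Set.Icc (a / 6) (6 * a) ×ˢ Set.Icc (b / 6) (6 * b) with hB
  have hK : IsCompact B := isCompact_Icc.prod isCompact_Icc
  have hc' : ContinuousOn (fun p : ℝ × ℝ => H p.1 p.2) B := hc.mono fun p hp =>
    ⟨lt_of_lt_of_le (by positivity) hp.1.1, lt_of_lt_of_le (by positivity) hp.2.1⟩
  have i1 : Integrable (B.indicator fun p : ℝ × ℝ => H p.1 p.2) (volume.prod volume) :=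
    (hc'.integrableOn_compact hK).integrable_indicator hK.measurableSet
  have i2 : Integrable (B.indicator fun p : ℝ × ℝ =>
      kp (L * (e₁ * p.1 + e₂ * p.2 + e₃)) * H p.1 p.2) (volume.prod volume) :=
    (((continuous_kp.comp (by fun_prop)).continuousOn.mul hc').integrableOn_compact
      hK).integrable_indicator hK.measurableSet
  obtain ⟨u1, u2⟩ := swap_Shear i1 (-(e₁ * e₂))
  obtain ⟨v1, v2⟩ := swap_Shear i2 (-(e₁ * e₂))
  obtain ⟨k1, k2⟩ := kp_Shear hL (e₂ * e₃)
  have area : ∫ z in (a / 6)..(6 * a), ∫ w in (b / 6)..(6 * b), H z w ≤ 36 * (a * b) * Y₀ := by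
    have hY₀ : 0 ≤ Y₀ := (h0 0 0).trans (hY0 0 0)
    refine (le_abs_self _).trans ((intervalIntegral.norm_integral_le_of_norm_le_const
      fun z _ => intervalIntegral.norm_integral_le_of_norm_le_const (C := Y₀) fun w _ => by
        rw [Real.norm_of_nonneg (h0 z w)]; exact hY0 z w).trans ?_)
    rw [abs_of_nonneg (sub_nonneg.2 ha), abs_of_nonneg (sub_nonneg.2 hb)]
    nlinarith [mul_nonneg (mul_pos a0 b0).le hY₀]
  rw [box_Shear ha hb, u1] at area
  rw [box_Shear ha hb, v1]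
  have key : ∀ κ, ∫ z, B.indicator (fun p : ℝ × ℝ =>
      kp (L * (e₁ * p.1 + e₂ * p.2 + e₃)) * H p.1 p.2) (z, κ + -(e₁ * e₂) * z) ≤
      Y₁ * kp (L * (κ + e₂ * e₃)) +
        4 / L ^ 2 * ∫ z, B.indicator (fun p : ℝ × ℝ => H p.1 p.2) (z, κ + -(e₁ * e₂) * z) := by
    intro κ
    simp only [Set.indicator_mul_right, hk, integral_const_mul]
    have p0 : 0 ≤ ∫ z, B.indicator (fun p : ℝ × ℝ => H p.1 p.2) (z, κ + -(e₁ * e₂) * z) :=
      integral_nonneg fun z => Set.indicator_nonneg (fun p _ => h0 p.1 p.2) _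
    have p1 := (kp_pos (L * (κ + e₂ * e₃))).le
    rcases lt_or_ge |κ| (1 / 2) with h | h
    · exact le_add_of_nonneg_of_le (mul_nonneg hY p1)
        (mul_le_mul_of_nonneg_right (small_Shear hL hc3 h) p0)
    · refine le_add_of_le_of_nonneg ?_ (mul_nonneg (by positivity) p0)
      rw [mul_comm]
      refine mul_le_mul_of_nonneg_right ?_ p1
      obtain ⟨z₀, z₁, hz⟩ := slice_Shear hσ (a / 6) (6 * a) (b / 6) (6 * b) κ
      have e : ∀ z, B.indicator (fun p : ℝ × ℝ => H p.1 p.2) (z, κ + -(e₁ * e₂) * z) =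
          (Set.Icc z₀ z₁).indicator (fun z => H z (κ + -(e₁ * e₂) * z)) z := fun z => by
        simp only [Set.indicator, hB, Set.mem_prod, hz]
      simp only [e, integral_indicator measurableSet_Icc]
      rcases le_or_gt z₀ z₁ with h1 | h1
      · rw [integral_Icc_eq_integral_Ioc, ← intervalIntegral.integral_of_le h1]
        exact hl _ _ _ _ ⟨a0, a1, b0, b1, hσ, h, h1, fun z => (hz z).1⟩
      · rwa [Set.Icc_eq_empty_of_lt h1, setIntegral_empty]
  refine (integral_mono v2 ((k1.const_mul Y₁).add (u2.const_mul (4 / L ^ 2))) key).trans ?_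
  simp only [Pi.add_apply]
  rw [integral_add (k1.const_mul Y₁) (u2.const_mul _), integral_const_mul, integral_const_mul]
  refine (add_le_add (mul_le_mul_of_nonneg_left k2 hY)
    (mul_le_mul_of_nonneg_left area (by positivity))).trans (le_of_eq (by ring))

end Pool.Agent.MP_2a1f0e_nt.GM2
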