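import Pool.Agent.MP_2a1f0e_nt.GM2.Defs
import Pool.Agent.MP_2a1f0e_nt.GM.Three

set_option autoImplicit false

open Finset

namespace Pool.Agent.MP_2a1f0e_nt.GM2

open GM

/-- one term of the expanded cubic trace with three weights -/
noncomputable def tm_Three3 (N : ℕ) (ν₁ ν₂ ν₃ : ℤ → ℝ) (i : (ℤ × ℤ × ℤ) × (ℤ × ℤ × ℤ))
    (v w : ℝ) : ℂ :=
  ((ν₁ i.1.1 * ν₂ i.1.2.1 * ν₃ i.1.2.2 : ℝ) : ℂ) *
    (Three.pc v ((i.1.1 : ℝ) - i.1.2.1) * Three.pc w ((i.1.2.1 : ℝ) - i.1.2.2) *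
      Three.R3 v w ((i.2.1 : ℝ) * N * v + (i.2.2.1 : ℝ) * N * w + (i.2.2.2 : ℝ) * N))

lemma continuous_tm_Three3 (N : ℕ) (ν₁ ν₂ ν₃ : ℤ → ℝ) (i : (ℤ × ℤ × ℤ) × (ℤ × ℤ × ℤ)) :
    Continuous (Function.uncurry (tm_Three3 N ν₁ ν₂ ν₃ i)) := by
  unfold tm_Three3 Function.uncurry
  exact continuous_const.mul ((((Three.continuous_pc _).comp continuous_fst).mul
    ((Three.continuous_pc _).comp continuous_snd)).mul (Three.continuous_R3 _ _ _))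

lemma Q33_eq_Three3 (N M : ℕ) (s : Finset ℤ) (ν₁ ν₂ ν₃ : ℤ → ℝ) :
    Q33 N M s ν₁ ν₂ ν₃ = (N : ℂ) ^ 3 * ∫ v in (1 / 3 : ℝ)..3, ∫ w in (1 / 3 : ℝ)..3,
      ∑ i ∈ (s ×ˢ s ×ˢ s) ×ˢ (Ms M ×ˢ Ms M ×ˢ Ms M), tm_Three3 N ν₁ ν₂ ν₃ i v w := by
  rw [← Three.DI_sum _ _ (continuous_tm_Three3 N ν₁ ν₂ ν₃), sum_product, mul_sum]
  unfold Q33
  rw [sum_product]
  refine sum_congr rfl fun a _ => ?_
  rw [sum_product]
  refine sum_congr rfl fun b _ => sum_congr rfl fun c _ => ?_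
  have hp : pw (N : ℝ) ((a : ℝ) - b) * pw (N : ℝ) ((b : ℝ) - c) * pw (N : ℝ) ((c : ℝ) - a) = 1 := by
    rw [← pw_add, ← pw_add, show (a : ℝ) - b + ((b : ℝ) - c) + ((c : ℝ) - a) = 0 by ring, pw_zero]
  have e : ∀ m : ℤ × ℤ × ℤ, (∫ v in (1 / 3 : ℝ)..3, ∫ w in (1 / 3 : ℝ)..3,
      tm_Three3 N ν₁ ν₂ ν₃ ((a, b, c), m) v w) = ((ν₁ a * ν₂ b * ν₃ c : ℝ) : ℂ) *
        (HH ((a : ℝ) - b) ((m.1 : ℝ) * N) * HH ((b : ℝ) - c) ((m.2.1 : ℝ) * N) *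
          HH ((c : ℝ) - a) ((m.2.2 : ℝ) * N)) := by
    intro m
    rw [Three.key (by ring)]
    simp only [tm_Three3, intervalIntegral.integral_const_mul]
  rw [sum_congr rfl fun m _ => e m, ← mul_sum]
  have e2 : ∑ m ∈ Ms M ×ˢ Ms M ×ˢ Ms M,
      HH ((a : ℝ) - b) ((m.1 : ℝ) * N) * HH ((b : ℝ) - c) ((m.2.1 : ℝ) * N) *
          HH ((c : ℝ) - a) ((m.2.2 : ℝ) * N) =
      (∑ m ∈ Ms M, HH ((a : ℝ) - b) ((m : ℝ) * N)) * (∑ m ∈ Ms M, HH ((b : ℝ) - c) ((m : ℝ) * N)) *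
        ∑ m ∈ Ms M, HH ((c : ℝ) - a) ((m : ℝ) * N) := by
    rw [mul_assoc, sum_mul_sum (Ms M) (Ms M), ← sum_product', sum_mul_sum, sum_product]
    refine sum_congr rfl fun m _ => sum_congr rfl fun m' _ => ?_
    ring
  rw [e2]
  unfold Kb
  linear_combination (((ν₁ a * ν₂ b * ν₃ c : ℝ) : ℂ) * (N : ℂ) ^ 3 *
    (∑ m ∈ Ms M, HH ((a : ℝ) - b) ((m : ℝ) * N)) * (∑ m ∈ Ms M, HH ((b : ℝ) - c) ((m : ℝ) * N)) *
        ∑ m ∈ Ms M, HH ((c : ℝ) - a) ((m : ℝ) * N)) * hp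

lemma sum_tm_Three3 (N M : ℕ) (s : Finset ℤ) (ν₁ ν₂ ν₃ : ℤ → ℝ) {v w : ℝ} (hv : 1 / 3 ≤ v)
    (hw : 1 / 3 ≤ w) :
    ∑ i ∈ (s ×ˢ s ×ˢ s) ×ˢ (Ms M ×ˢ Ms M ×ˢ Ms M), tm_Three3 N ν₁ ν₂ ν₃ i v w =
      FT s ν₁ v * FT s ν₂ (w / v) * FT s ν₃ w⁻¹ * ∑ m ∈ Ms M ×ˢ Ms M ×ˢ Ms M,
        Three.R3 v w ((m.1 : ℝ) * N * v + (m.2.1 : ℝ) * N * w + (m.2.2 : ℝ) * N) := by
  have hv0 : v ≠ 0 := by
    have h : 0 < v := by linarith
    exact h.ne'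
  have hw0 : w ≠ 0 := by
    have h : 0 < w := by linarith
    exact h.ne'
  have e : FT s ν₁ v * FT s ν₂ (w / v) * FT s ν₃ w⁻¹ = ∑ a ∈ s ×ˢ s ×ˢ s,
      ((ν₁ a.1 * ν₂ a.2.1 * ν₃ a.2.2 : ℝ) : ℂ) *
        (Three.pc v ((a.1 : ℝ) - a.2.1) * Three.pc w ((a.2.1 : ℝ) - a.2.2)) := by
    unfold FT
    rw [mul_assoc, sum_mul_sum s s, ← sum_product', sum_mul_sum, sum_product]
    refine sum_congr rfl fun a _ => sum_congr rfl fun b _ => ?_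
    rw [Three.pc_eq (by linarith), Three.pc_eq (by linarith), pw_div hw0 hv0, pw_inv,
      sub_eq_add_neg, sub_eq_add_neg, pw_add, pw_add]
    push_cast
    ring
  rw [e, sum_mul_sum, sum_product]
  refine sum_congr rfl fun a _ => sum_congr rfl fun m _ => ?_
  unfold tm_Three3
  ring

lemma cont_phi_Three3 (s : Finset ℤ) (ν : ℤ → ℝ) :
    Continuous fun x : ℝ => ‖FT s ν (max x (1 / 10))‖ := by
  refine ((continuousOn_FT s ν).comp_continuous (by fun_prop) fun x => ?_).norm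
  exact lt_of_lt_of_le (by norm_num) (le_max_right x (1 / 10 : ℝ))

theorem three3_stmt (hR : RadStmt) : Three3Stmt := by
  obtain ⟨C, hC, hR⟩ := hR
  refine ⟨C, hC, fun N M _ s ν₁ ν₂ ν₃ => ?_⟩
  set φ : (ℤ → ℝ) → ℝ → ℝ := fun ν x => ‖FT s ν (max x (1 / 10))‖ with hφ
  have cφ : ∀ ν, Continuous (φ ν) := fun ν => cont_phi_Three3 s ν
  have eφ : ∀ ν, ∀ x : ℝ, 1 / 10 ≤ x → φ ν x = ‖FT s ν x‖ := fun ν x hx => by
    simp only [hφ]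
    rw [max_eq_left hx]
  set G : ℝ → ℝ → ℝ := fun v w =>
    φ ν₁ v * φ ν₂ (w / max v (1 / 3)) * φ ν₃ w * kp3 N M v w with hG
  have cG : Continuous (Function.uncurry G) := by
    have h1 : Continuous fun p : ℝ × ℝ => p.2 / max p.1 (1 / 3 : ℝ) :=
      continuous_snd.div (by fun_prop) fun p =>
        (lt_of_lt_of_le (by norm_num) (le_max_right p.1 (1 / 3 : ℝ))).ne'
    exact ((((cφ ν₁).comp continuous_fst).mul ((cφ ν₂).comp h1)).mul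
      ((cφ ν₃).comp continuous_snd)).mul (continuous_kp3 N M)
  have eG : ∀ v w : ℝ, v ∈ Set.Icc (1 / 3 : ℝ) 3 → w ∈ Set.Icc (1 / 3 : ℝ) 3 →
      G v w = ‖FT s ν₁ v‖ * ‖FT s ν₂ (w / v)‖ * ‖FT s ν₃ w‖ * kp3 N M v w := by
    intro v w hv hw
    have hv0 : 0 < v := by linarith [hv.1]
    have h1 : 1 / 10 ≤ w / v := by
      rw [le_div_iff₀ hv0]
      linarith [hv.2, hw.1]
    simp only [hG]
    rw [max_eq_left hv.1, eφ ν₁ v (by linarith [hv.1]), eφ ν₃ w (by linarith [hw.1]), eφ ν₂ _ h1]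
  have eT : Tr3 N M (fun v => ‖FT s ν₁ v‖) (fun v => ‖FT s ν₂ v‖) (fun v => ‖FT s ν₃ v‖) =
      ∫ v in (1 / 3 : ℝ)..3, ∫ w in (1 / 3 : ℝ)..3, G v w := by
    unfold Tr3
    apply intervalIntegral.integral_congr
    intro v hv
    rw [Set.uIcc_of_le (by norm_num)] at hv
    apply intervalIntegral.integral_congr
    intro w hw
    rw [Set.uIcc_of_le (by norm_num)] at hw
    exact (eG v w hv hw).symm
  have hb : ‖∫ v in (1 / 3 : ℝ)..3, ∫ w in (1 / 3 : ℝ)..3,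
      ∑ i ∈ (s ×ˢ s ×ˢ s) ×ˢ (Ms M ×ˢ Ms M ×ˢ Ms M), tm_Three3 N ν₁ ν₂ ν₃ i v w‖ ≤
      ∫ v in (1 / 3 : ℝ)..3, C * ∫ w in (1 / 3 : ℝ)..3, G v w := by
    refine intervalIntegral.norm_integral_le_of_norm_le (by norm_num)
      (Filter.Eventually.of_forall fun v hv => ?_) ?_
    · rw [← intervalIntegral.integral_const_mul]
      refine intervalIntegral.norm_integral_le_of_norm_le (by norm_num)
        (Filter.Eventually.of_forall fun w hw => ?_) ?_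
      · have hv' : v ∈ Set.Icc (1 / 3 : ℝ) 3 := ⟨hv.1.le, hv.2⟩
        have hw' : w ∈ Set.Icc (1 / 3 : ℝ) 3 := ⟨hw.1.le, hw.2⟩
        rw [sum_tm_Three3 N M s ν₁ ν₂ ν₃ hv'.1 hw'.1, eG v w hv' hw', norm_mul, norm_mul,
          norm_mul, norm_FT_inv]
        have h1 : ‖∑ m ∈ Ms M ×ˢ Ms M ×ˢ Ms M,
            Three.R3 v w ((m.1 : ℝ) * N * v + (m.2.1 : ℝ) * N * w + (m.2.2 : ℝ) * N)‖ ≤
            C * kp3 N M v w := by
          refine (norm_sum_le _ _).trans ?_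
          unfold kp3
          rw [sum_product, mul_sum]
          refine sum_le_sum fun m₁ _ => ?_
          rw [sum_product, mul_sum]
          refine sum_le_sum fun m₂ _ => ?_
          rw [mul_sum]
          refine sum_le_sum fun m₃ _ => ?_
          rw [Three.R3_eq, show (N : ℝ) * ((m₁ : ℝ) * v + (m₂ : ℝ) * w + (m₃ : ℝ)) =
            (m₁ : ℝ) * N * v + (m₂ : ℝ) * N * w + (m₃ : ℝ) * N by ring]
          exact (hR v w _ hv' hw').2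
        calc _ ≤ ‖FT s ν₁ v‖ * ‖FT s ν₂ (w / v)‖ * ‖FT s ν₃ w‖ * (C * kp3 N M v w) := by
              gcongr
          _ = _ := by ring
      · exact (continuous_const.mul
          (cG.comp (f := fun w : ℝ => (v, w)) (by fun_prop))).intervalIntegrable _ _
    · exact (continuous_const.mul
        (intervalIntegral.continuous_parametric_intervalIntegral_of_continuous' cG
          _ _)).intervalIntegrable _ _
  rw [Q33_eq_Three3, norm_mul, norm_pow, Complex.norm_natCast, eT]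
  rw [intervalIntegral.integral_const_mul] at hb
  calc _ ≤ (N : ℝ) ^ 3 * (C * ∫ v in (1 / 3 : ℝ)..3, ∫ w in (1 / 3 : ℝ)..3, G v w) := by
        gcongr
    _ = _ := by ring

end Pool.Agent.MP_2a1f0e_nt.GM2
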