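import Pool.Agent.MP_2a1f0e_nt.GM2.Defs
import Pool.Agent.MP_2a1f0e_nt.GM.Sym
import Pool.Agent.MP_2a1f0e_nt.GM.Three
set_option autoImplicit false
open Finset
namespace Pool.Agent.MP_2a1f0e_nt.GM2
open GM

lemma ext_Tri2 {φ : ℝ → ℝ} (h : Nice φ) : ∃ ψ : ℝ → ℝ, Continuous ψ ∧ (∀ x, 0 ≤ ψ x) ∧
    ∀ x, 1 / 9 ≤ x → φ x = ψ x :=
  ⟨fun x => φ (max x (1 / 9)), h.1.comp_continuous (continuous_id.max continuous_const)
    fun x => lt_max_of_lt_right (show (0 : ℝ) < 1 / 9 by norm_num), fun x => h.2.1 _,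
    fun x hx => congrArg φ (max_eq_left hx).symm⟩

lemma main_Tri2 {C : ℝ} {k R : ℝ → ℝ → ℝ} (hC : 0 < C)
    (hR : Continuous fun p : ℝ × ℝ => R p.1 p.2) (R0 : ∀ v w, 0 ≤ R v w)
    (k0 : ∀ v w, 0 ≤ k v w) (h1 : ∀ v w, k v w ≤ C * R v w)
    (h2 : ∀ v, 1 / 3 ≤ v → ∀ w, k v w ≤ 9 * k v⁻¹ (w / v))
    {g h : ℝ → ℝ} (hg : Nice g) (hh : Nice h) :
    ∫ v in (1 / 3 : ℝ)..3, ∫ w in (1 / 3 : ℝ)..3, g v * h (w / v) * 1 * k v w ≤
      243 * C * (II fun v => II fun w => g v * h w * R v w) ∧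
    ∫ v in (1 / 3 : ℝ)..3, ∫ w in (1 / 3 : ℝ)..3, g v * 1 * h w * k v w ≤
      243 * C * (II fun v => II fun w => g v * h w * R v w) := by
  obtain ⟨ψ, hψ, hψ0, he⟩ := ext_Tri2 hg
  obtain ⟨χ, hχ, hχ0, hf⟩ := ext_Tri2 hh
  obtain ⟨K, hK⟩ : ∃ K : ℝ → ℝ, ∀ y, K y = ψ y * II fun x => χ x * R y x :=
    ⟨_, fun _ => rfl⟩
  have c0 : Continuous fun p : ℝ × ℝ => χ p.2 * R p.1 p.2 :=
    (hχ.comp continuous_snd).fun_mul hR
  have c1 : ∀ y : ℝ, Continuous fun x => χ x * R y x := fun y =>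
    hχ.fun_mul (hR.comp (Continuous.prodMk_right y))
  have n1 : ∀ y x : ℝ, 0 ≤ χ x * R y x := fun y x => mul_nonneg (hχ0 _) (R0 _ _)
  have hKc : Continuous K := funext hK ▸ hψ.fun_mul
    (intervalIntegral.continuous_parametric_intervalIntegral_of_continuous'
      (f := fun y x => χ x * R y x) c0 _ _)
  have hK0 : ∀ y, 0 ≤ K y := fun y => hK y ▸ mul_nonneg (hψ0 y) (II_nonneg (n1 y))
  have hP : (II fun v => II fun w => g v * h w * R v w) = II K := by
    refine II_congr_Sym fun v hv => ?_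
    rw [hK]
    refine (II_congr_Sym fun w hw => ?_).trans (intervalIntegral.integral_const_mul _ _)
    rw [he v hv, hf w hw, mul_assoc]
  have h4 := mul_le_mul_of_nonneg_left
    (le_II_Sym (a := 1 / 3) (b := 3) (by norm_num) (by norm_num) (by norm_num) hK0 hKc) hC.le
  have h5 := mul_nonneg hC.le (II_nonneg hK0)
  rw [hP]
  constructor
  · have c2 : ContinuousOn (fun v => 243 * C * (K v⁻¹ * (v ^ 2)⁻¹)) (Set.Icc (1 / 3 : ℝ) 3) :=
      continuousOn_const.fun_mul (inv_cont_Sym hKc)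
    have n2 : ∀ v w, 0 ≤ g v * h (w / v) * 1 * k v w := fun v w =>
      mul_nonneg (mul_nonneg (mul_nonneg (hg.2.1 _) (hh.2.1 _)) zero_le_one) (k0 _ _)
    refine (mono_Sym (by norm_num) (fun v => intervalIntegral.integral_nonneg (by norm_num)
      fun w _ => n2 v w) c2 fun v hv => ?_).trans ?_
    · have hv0 : 0 < v := lt_of_lt_of_le (by norm_num) hv.1
      refine (int_le_Sym (a := 0) (b := 9 * (g v * C)) (n2 v) (c1 v) (c1 v⁻¹) (n1 v) (n1 v⁻¹) le_rfl
        (mul_nonneg (by norm_num) (mul_nonneg (hg.2.1 v) hC.le)) hv fun w hw => ?_).trans ?_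
      · have b1 : 1 / 9 ≤ w / v := by
          rw [le_div_iff₀ hv0]
          linarith [hw.1, hv.2]
        have b2 := mul_le_mul_of_nonneg_left ((h2 v hv.1 w).trans
          (mul_le_mul_of_nonneg_left (h1 v⁻¹ (w / v)) (by norm_num)))
          (mul_nonneg (hg.2.1 v) (hh.2.1 (w / v)))
        rw [← hf _ b1]
        linarith
      · obtain ⟨hv1, hv2⟩ := hv
        have e2 : g v = ψ v⁻¹ := by
          rw [← hg.2.2, he]
          rw [le_inv_comm₀ (by norm_num) hv0]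
          linarith
        have e3 : 1 ≤ 9 * (v ^ 2)⁻¹ := by
          rw [← div_eq_mul_inv, le_div_iff₀ (by positivity)]
          nlinarith
        have e4 := mul_le_mul_of_nonneg_left e3 (mul_nonneg hC.le (hK0 v⁻¹))
        have e6 : C * K v⁻¹ = C * (g v * II fun x => χ x * R v⁻¹ x) := by rw [hK, e2]
        linarith
    · rw [intervalIntegral.integral_const_mul, inv_int_Sym hKc]
      linarith
  · have c2 : Continuous fun v => C * K v := by fun_prop
    have n2 : ∀ v w, 0 ≤ g v * 1 * h w * k v w := fun v w =>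
      mul_nonneg (mul_nonneg (mul_nonneg (hg.2.1 _) zero_le_one) (hh.2.1 _)) (k0 _ _)
    refine (mono_Sym (by norm_num) (fun v => intervalIntegral.integral_nonneg (by norm_num)
      fun w _ => n2 v w) c2.continuousOn fun v hv => ?_).trans ?_
    · refine (int_le_Sym (a := g v * C) (b := 0) (n2 v) (c1 v) (c1 v) (n1 v) (n1 v)
        (mul_nonneg (hg.2.1 v) hC.le) le_rfl hv fun w hw => ?_).trans ?_
      · have b2 := mul_le_mul_of_nonneg_left (h1 v w) (mul_nonneg (hg.2.1 v) (hh.2.1 w))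
        rw [← hf w (by linarith [hw.1])]
        linarith
      · rw [hK, ← he v (by linarith [hv.1])]
        linarith
    · rw [intervalIntegral.integral_const_mul]
      linarith

lemma swap_Tri2 (N M : ℕ) {g h : ℝ → ℝ} (hg : Nice g) (hh : Nice h) :
    Tr3 N M (fun _ => 1) g h = Tr3 N M h g fun _ => 1 := by
  unfold Tr3
  rw [MeasureTheory.intervalIntegral_intervalIntegral_swap]
  · congr 1
    funext v
    congr 1
    funext w
    have e : kp3 N M w v = kp3 N M v w := by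
      unfold kp3
      rw [sum_comm]
      simp only [add_comm (_ * w)]
    rw [e, ← hg.2.2, inv_div]
    ring
  · have hK : IsCompact (Set.uIcc (1 / 3 : ℝ) 3 ×ˢ Set.uIcc (1 / 3 : ℝ) 3) :=
      isCompact_uIcc.prod isCompact_uIcc
    have h0 : ∀ x ∈ Set.uIcc (1 / 3 : ℝ) 3, 0 < x := fun x hx => by
      rw [Set.uIcc_of_le (by norm_num)] at hx
      exact lt_of_lt_of_le (by norm_num) hx.1
    refine (ContinuousOn.integrableOn_compact hK ?_).mono_set
      (Set.prod_mono Set.uIoc_subset_uIcc Set.uIoc_subset_uIcc)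
    exact ((continuousOn_const.mul (hg.1.comp (continuousOn_snd.div continuousOn_fst
      fun p hp => (h0 _ hp.1).ne') fun p hp => div_pos (h0 _ hp.2) (h0 _ hp.1))).mul
      (hh.1.comp continuousOn_snd fun p hp => h0 _ hp.2)).mul (continuous_kp3 N M).continuousOn

theorem tri2_stmt (hM : PhMajStmt) (hP : PairStmt) : Tri2Stmt := by
  obtain ⟨C, hC, hM⟩ := hM
  obtain ⟨C', hC', hP⟩ := hP
  refine ⟨243 * C * C', by positivity, fun N M Δ hN hD g h hg hh => ?_⟩
  have s : Set.Icc (1 / 9 : ℝ) (82 / 9) ⊆ Set.Ioi 0 := fun x hx =>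
    lt_of_lt_of_le (show (0 : ℝ) < 1 / 9 by norm_num) hx.1
  have key : ∀ g h, Nice g → Nice h → 243 * C * Pair N M g h ≤ 243 * C * C' * PB N M Δ g h :=
    fun g h hg hh => by
      rw [mul_assoc _ C']
      exact mul_le_mul_of_nonneg_left
        (hP N M Δ hN hD g h (hg.1.mono s) (hh.1.mono s) hg.2.1 hh.2.1) (by positivity)
  have h1 : ∀ g h, Nice g → Nice h → Tr3 N M g h (fun _ => 1) ≤ 243 * C * Pair N M g h ∧
      Tr3 N M g (fun _ => 1) h ≤ 243 * C * Pair N M g h := fun g h hg hh =>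
    main_Tri2 (k := kp3 N M) (R := rho2 N M) hC (continuous_rho2 N M) (rho2_nonneg N M)
      (kp3_nonneg N M) (kp3_le_Sym (hM N hN) M) (fun _ hv => kp3_swap_Sym N M hv) hg hh
  refine ⟨(h1 g h hg hh).1.trans (key g h hg hh), (h1 g h hg hh).2.trans (key g h hg hh), ?_⟩
  rw [swap_Tri2 N M hg hh]
  refine ((h1 h g hh hg).1.trans (key h g hh hg)).trans_eq ?_
  unfold PB
  ring

end Pool.Agent.MP_2a1f0e_nt.GM2
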