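import Pool.Agent.MP_2a1f0e_nt.GM2.Defs

set_option autoImplicit false

namespace Pool.Agent.MP_2a1f0e_nt.GM2

open MeasureTheory Set Real Filter Topology

theorem vdc_all : VdcStmt := by
  intro φ φ' φ'' a a' A L ε α β hαβ hL hε h1 h2 h3 ha ha' hA hA' hφ
  have mα : α ∈ Icc α β := left_mem_Icc.2 hαβ
  have mβ : β ∈ Icc α β := right_mem_Icc.2 hαβ
  have hu : uIcc α β = Icc α β := uIcc_of_le hαβ
  have hA0 : 0 ≤ A := (norm_nonneg _).trans (hA α mα)
  have c0 : ContinuousOn φ (Icc α β) := fun x hx => (h1 x hx).continuousAt.continuousWithinAt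
  have c1 : ContinuousOn φ' (Icc α β) := fun x hx => (h2 x hx).continuousAt.continuousWithinAt
  have ca : ContinuousOn a (Icc α β) := fun x hx => (ha x hx).continuousAt.continuousWithinAt
  have hD : ∀ x, 0 < φ' x ^ 2 + L ^ 2 := fun x => by positivity
  let w : ℝ → ℝ := fun x => φ' x / (φ' x ^ 2 + L ^ 2)
  let w' : ℝ → ℝ := fun x => φ'' x * (L ^ 2 - φ' x ^ 2) / (φ' x ^ 2 + L ^ 2) ^ 2
  have hw : ∀ x ∈ Icc α β, HasDerivAt w (w' x) x := by
    intro x hx
    have := (h2 x hx).div (((h2 x hx).pow 2).add_const (L ^ 2)) (hD x).ne'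
    refine this.congr_deriv ?_
    simp only [w', Pi.pow_apply]
    congr 1
    simp; ring
  have cw : ContinuousOn w (Icc α β) := fun x hx => (hw x hx).continuousAt.continuousWithinAt
  have cw' : ContinuousOn w' (Icc α β) := by
    unfold w'
    exact ContinuousOn.div (by fun_prop) (by fun_prop) fun x _ => (pow_pos (hD x) 2).ne'
  have bw : ∀ x, |w x| ≤ 1 / (2 * L) := by
    intro x
    simp only [w]
    rw [abs_div, abs_of_pos (hD x), div_le_div_iff₀ (hD x) (by positivity)]
    nlinarith [sq_nonneg (|φ' x| - L), sq_abs (φ' x)]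
  let E : ℝ → ℂ := fun x => Complex.exp (Complex.I * φ x)
  have hE : ∀ x ∈ Icc α β, HasDerivAt E (E x * (Complex.I * φ' x)) x := fun x hx =>
    ((h1 x hx).ofReal_comp.const_mul Complex.I).cexp
  have nE : ∀ x, ‖E x‖ = 1 := fun x => by
    simp only [E]; rw [mul_comm, Complex.norm_exp_ofReal_mul_I]
  have cE : ContinuousOn E (Icc α β) := fun x hx => (hE x hx).continuousAt.continuousWithinAt
  let Ψ : ℝ → ℂ := fun x => -Complex.I * (E x * (a x * w x))
  let R : ℝ → ℂ := fun x => Complex.I * (E x * (a' x * w x + a x * w' x)) +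
    a x * E x * ((L ^ 2 / (φ' x ^ 2 + L ^ 2) : ℝ) : ℂ)
  have cR : ContinuousOn R (Icc α β) := by
    have : ContinuousOn (fun x => L ^ 2 / (φ' x ^ 2 + L ^ 2)) (Icc α β) :=
      ContinuousOn.div (by fun_prop) (by fun_prop) fun x _ => (hD x).ne'
    have o := Complex.continuous_ofReal
    exact (continuousOn_const.mul (cE.mul ((ha'.mul (o.comp_continuousOn cw)).add
      (ca.mul (o.comp_continuousOn cw'))))).add ((ca.mul cE).mul (o.comp_continuousOn this))
  have hΨ : ∀ x ∈ Icc α β, HasDerivAt Ψ (a x * E x - R x) x := by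
    intro x hx
    have := ((hE x hx).mul ((ha x hx).mul (hw x hx).ofReal_comp)).const_mul (-Complex.I)
    refine this.congr_deriv ?_
    have hD' : ((φ' x ^ 2 + L ^ 2 : ℝ) : ℂ) ≠ 0 := by exact_mod_cast (hD x).ne'
    have e1 : ((L ^ 2 / (φ' x ^ 2 + L ^ 2) : ℝ) : ℂ) = 1 - φ' x * w x := by
      have : L ^ 2 / (φ' x ^ 2 + L ^ 2) = 1 - φ' x * w x := by
        have := hD x
        simp only [w]; field_simp; ring
      rw [this]; push_cast; ring
    simp only [R, e1, Pi.mul_apply]
    linear_combination (-(E x * φ' x * a x * w x)) * Complex.I_mul_I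
  have hint := intervalIntegral.integral_eq_sub_of_hasDerivAt (fun x hx => hΨ x (hu ▸ hx))
    (((ca.mul cE).sub cR).intervalIntegrable_of_Icc hαβ)
  rw [intervalIntegral.integral_sub (f := fun y => a y * E y) ((ca.mul cE).intervalIntegrable_of_Icc hαβ)
    (cR.intervalIntegrable_of_Icc hαβ)] at hint
  have bΨ : ∀ x ∈ Icc α β, ‖Ψ x‖ ≤ A / (2 * L) := by
    intro x hx
    simp only [Ψ, norm_mul, norm_neg, Complex.norm_I, nE, one_mul, Complex.norm_real,
      Real.norm_eq_abs]
    calc ‖a x‖ * |w x| ≤ A * (1 / (2 * L)) := by gcongr; exacts [hA x hx, bw x]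
      _ = _ := by ring
  let B : ℝ → ℝ := fun x => A / (2 * L) * x + 2 * A * (ε * (arctan (φ' x / L) / L))
  let B' : ℝ → ℝ := fun x => A / (2 * L) + 2 * A * (ε * φ'' x / (φ' x ^ 2 + L ^ 2))
  have hB : ∀ x ∈ Icc α β, HasDerivAt B (B' x) x := by
    intro x hx
    have := ((hasDerivAt_id x).const_mul (A / (2 * L))).add
      ((((((h2 x hx).div_const L).arctan).div_const L).const_mul ε).const_mul (2 * A))
    refine this.congr_deriv ?_
    have := hD x
    simp only [B']
    field_simp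
    ring
  have cB' : ContinuousOn B' (Icc α β) := by
    have : ContinuousOn (fun x => ε * φ'' x / (φ' x ^ 2 + L ^ 2)) (Icc α β) :=
      ContinuousOn.div (by fun_prop) (by fun_prop) fun x _ => (hD x).ne'
    exact continuousOn_const.add (continuousOn_const.mul this)
  have hintB := intervalIntegral.integral_eq_sub_of_hasDerivAt (fun x hx => hB x (hu ▸ hx))
    (cB'.intervalIntegrable_of_Icc hαβ)
  have bR : ∀ x ∈ Icc α β, ‖R x‖ ≤ B' x := by
    intro x hx
    have hx' := hφ x hx
    have hDx := hD x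
    have habs : |φ'' x| = ε * φ'' x := by
      have : 0 < ε * φ'' x := lt_of_lt_of_le (by positivity) hx'
      rcases hε with rfl | rfl
      · rw [one_mul] at this ⊢; exact abs_of_pos this
      · rw [neg_one_mul] at this ⊢; exact abs_of_neg (by linarith)
    have bw' : |w' x| ≤ ε * φ'' x / (φ' x ^ 2 + L ^ 2) := by
      simp only [w']
      rw [abs_div, abs_mul, habs, abs_of_pos (pow_pos hDx 2), div_le_div_iff₀ (pow_pos hDx 2) hDx]
      have : |L ^ 2 - φ' x ^ 2| ≤ φ' x ^ 2 + L ^ 2 := by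
        rw [abs_le]; constructor <;> nlinarith [sq_nonneg L, sq_nonneg (φ' x)]
      have h0 : 0 ≤ ε * φ'' x := le_trans (by positivity) hx'
      calc ε * φ'' x * |L ^ 2 - φ' x ^ 2| * (φ' x ^ 2 + L ^ 2)
          ≤ ε * φ'' x * (φ' x ^ 2 + L ^ 2) * (φ' x ^ 2 + L ^ 2) := by gcongr
        _ = _ := by ring
    have b3 : L ^ 2 / (φ' x ^ 2 + L ^ 2) ≤ ε * φ'' x / (φ' x ^ 2 + L ^ 2) := by gcongr
    calc ‖R x‖ ≤ ‖Complex.I * (E x * (a' x * w x + a x * w' x))‖ +
          ‖a x * E x * ((L ^ 2 / (φ' x ^ 2 + L ^ 2) : ℝ) : ℂ)‖ := norm_add_le _ _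
      _ ≤ (‖a' x‖ * |w x| + ‖a x‖ * |w' x|) + ‖a x‖ * (L ^ 2 / (φ' x ^ 2 + L ^ 2)) := by
          gcongr
          · rw [norm_mul, norm_mul, Complex.norm_I, nE, one_mul, one_mul]
            refine (norm_add_le _ _).trans (le_of_eq ?_)
            simp only [norm_mul, Complex.norm_real, Real.norm_eq_abs]
          · rw [norm_mul, norm_mul, nE, mul_one, Complex.norm_real,
              Real.norm_of_nonneg (by positivity)]
      _ ≤ (A * (1 / (2 * L)) + A * (ε * φ'' x / (φ' x ^ 2 + L ^ 2))) +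
            A * (ε * φ'' x / (φ' x ^ 2 + L ^ 2)) := by
          gcongr
          exacts [hA' x hx, bw x, hA x hx, hA x hx]
      _ = B' x := by simp only [B']; ring
  have bI : ‖∫ x in α..β, R x‖ ≤ B β - B α := by
    rw [← hintB]
    exact intervalIntegral.norm_integral_le_of_norm_le hαβ
      (Eventually.of_forall fun x hx => bR x (Ioc_subset_Icc_self hx))
      (cB'.intervalIntegrable_of_Icc hαβ)
  have bB : B β - B α ≤ A * (β - α) / (2 * L) + 2 * A * (π / L) := by
    have e1 : B β - B α = A * (β - α) / (2 * L) +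
        2 * A * (ε * (arctan (φ' β / L) - arctan (φ' α / L)) / L) := by
      simp only [B]; ring
    rw [e1]
    gcongr
    have a1 := arctan_lt_pi_div_two (φ' β / L)
    have a2 := arctan_lt_pi_div_two (φ' α / L)
    have a3 := neg_pi_div_two_lt_arctan (φ' β / L)
    have a4 := neg_pi_div_two_lt_arctan (φ' α / L)
    rcases hε with rfl | rfl <;> linarith
  have : ∫ x in α..β, a x * E x = (Ψ β - Ψ α) + ∫ x in α..β, R x := by rw [← hint]; ring
  change ‖∫ x in α..β, a x * E x‖ ≤ _
  rw [this]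
  calc ‖(Ψ β - Ψ α) + ∫ x in α..β, R x‖ ≤ (‖Ψ β‖ + ‖Ψ α‖) + ‖∫ x in α..β, R x‖ :=
        (norm_add_le _ _).trans (by gcongr; exact norm_sub_le _ _)
    _ ≤ (A / (2 * L) + A / (2 * L)) + (A * (β - α) / (2 * L) + 2 * A * (π / L)) := by
        gcongr
        exacts [bΨ β mβ, bΨ α mα, bI.trans bB]
    _ ≤ _ := by
        have : 0 ≤ A * (β - α) / (2 * L) := by
          have := sub_nonneg.2 hαβ; positivity
        have e : A * (1 + (β - α) + 2 * π) / L = (A / (2 * L) + A / (2 * L)) +
          (A * (β - α) / (2 * L) + 2 * A * (π / L)) + A * (β - α) / (2 * L) := by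
          field_simp; ring
        rw [e]; linarith

end Pool.Agent.MP_2a1f0e_nt.GM2
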