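import Pool.Agent.MP_2a1f0e_nt.GM.Main
import Pool.Agent.MP_2a1f0e_nt.GM2.Dec
import Pool.Agent.MP_2a1f0e_nt.GM2.Red
import Pool.Agent.MP_2a1f0e_nt.GM2.Shear
import Pool.Agent.MP_2a1f0e_nt.GM2.Key2
import Pool.Agent.MP_2a1f0e_nt.GM2.Fou
import Pool.Agent.MP_2a1f0e_nt.GM2.Psi
import Pool.Agent.MP_2a1f0e_nt.GM2.Rexp
import Pool.Agent.MP_2a1f0e_nt.GM2.Three3
import Pool.Agent.MP_2a1f0e_nt.GM2.Tri2
import Pool.Agent.MP_2a1f0e_nt.GM2.Err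
import Pool.Agent.MP_2a1f0e_nt.GM2.Part
import Pool.Agent.MP_2a1f0e_nt.GM2.CV
import Pool.Agent.MP_2a1f0e_nt.GM2.VdcB
import Pool.Agent.MP_2a1f0e_nt.GM2.Gam
import Pool.Agent.MP_2a1f0e_nt.GM2.Core
import Pool.Agent.MP_2a1f0e_nt.GM2.Exp
import Pool.Agent.MP_2a1f0e_nt.GM2.Bil
import Pool.Agent.MP_2a1f0e_nt.GM2.KKb
import Pool.Agent.MP_2a1f0e_nt.GM2.Mom
import Pool.Agent.MP_2a1f0e_nt.GM2.Far
import Pool.Agent.MP_2a1f0e_nt.GM2.BB
import Pool.Agent.MP_2a1f0e_nt.GM2.PFour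
import Pool.Agent.MP_2a1f0e_nt.GM2.GY
import Pool.Agent.MP_2a1f0e_nt.GM2.Seg
import Pool.Agent.MP_2a1f0e_nt.GM2.Blk2
import Pool.Agent.MP_2a1f0e_nt.GM2.QTwo
import Pool.Agent.MP_2a1f0e_nt.GM2.Num2
import Pool.Agent.MP_2a1f0e_nt.GM2.BThree
import Pool.Agent.MP_2a1f0e_nt.GM2.Int2

set_option autoImplicit false

namespace Pool.Agent.MP_2a1f0e_nt.GM2

open GM

theorem kk_all : KKStmt := kk_stmt decay_stmt zero_stmt (pois_stmt decay_stmt)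

theorem bb_all : BBStmt :=
  bb_stmt bil_stmt (gl2_stmt cv_stmt) (gam_stmt vdc_all) kk_all (near_stmt kk_all)
    (far_stmt mom_stmt)

theorem seg_all : SegStmt :=
  seg_stmt (core_stmt cv_stmt) exp_stmt bb_all (gy_stmt p4_stmt) mom_stmt

theorem blk2_all : Blk2Stmt :=
  blk2_stmt (red_stmt key2_stmt (rexp_stmt fou_stmt) psi_stmt) shear_stmt seg_all

theorem err_all : ErrStmt :=
  err_stmt (three3_stmt rad_stmt) (tri2_stmt phMaj_stmt pair_all) rho_all par_stmt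

theorem q2_all : Q2Stmt := q2_stmt dec_stmt err_all part_stmt blk2_all

theorem b3_all : B3Stmt :=
  b3_stmt setup_all hux_stmt cub_stmt q2_all pt_all num2_stmt b1_all

theorem final2_all : Final2Stmt := final2_stmt (int2_stmt b3_all b2_all blk_stmt) tay_stmt

end Pool.Agent.MP_2a1f0e_nt.GM2
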