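import Pool.Agent.MP_2a1f0e_nt.GM2.Defs
import Pool.Agent.MP_2a1f0e_nt.GM.Par
set_option autoImplicit false
open Finset
namespace Pool.Agent.MP_2a1f0e_nt.GM2
open GM

lemma F_eq_PFour (s : Finset ℤ) (g : ℤ → ℝ) (θ : ℝ) : F_Par s g θ = FT s g (Real.exp θ) := by
  have h : FT s g (Real.exp θ) = F_Par s g (Real.log (Real.exp θ)) := rfl
  rw [h, Real.log_exp]

lemma sq_PFour {L : ℕ} {g : ℤ → ℝ} (hg : Sup L g) (θ : ℝ) :
    F_Par (Io (2 * L)) (fun p => ∑ a ∈ Io L, g a * g (a - p)) θ =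
      ((‖F_Par (Io L) g θ‖ ^ 2 : ℝ) : ℂ) := by
  rw [sq_Par, F_Par]
  simp only [Complex.ofReal_sum, sum_mul]
  rw [sum_comm]
  refine sum_congr rfl fun a ha => ?_
  symm
  refine sum_of_injOn (fun u => a - u) (fun u _ v _ h => sub_right_injective h) ?_ ?_ ?_
  · intro u hu
    rw [mem_coe, mem_Io] at hu ⊢
    rw [mem_Io] at ha
    push_cast
    omega
  · intro p _ hp
    have h : a - p ∉ Io L := fun h => hp ⟨a - p, h, by simp⟩
    simp [hg _ h]
  · intro u _
    simp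

theorem p4_stmt : P4Stmt := by
  intro L g A D hg hA
  have h0 : ∀ p, p ∉ Io (2 * L) → ∑ a ∈ Io L, g a * g (a - p) = 0 := by
    intro p hp
    refine sum_eq_zero fun a ha => ?_
    have h : a - p ∉ Io L := by
      rw [mem_Io] at ha hp ⊢
      push_cast at hp
      omega
    rw [hg _ h, mul_zero]
  have h1 : ∑ p ∈ D, (∑ a ∈ Io L, g a * g (a - p)) ^ 2 ≤
      ∑ p ∈ Io (2 * L), (∑ a ∈ Io L, g a * g (a - p)) ^ 2 := by
    refine (sum_le_sum_of_subset_of_nonneg (subset_union_left (s₂ := Io (2 * L)))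
      fun _ _ _ => sq_nonneg _).trans_eq (sum_subset subset_union_right fun p _ hp => ?_).symm
    rw [h0 p hp]
    simp
  refine h1.trans (le_of_mul_le_mul_left ?_ Real.two_pi_pos)
  rw [← pars_Par, mul_left_comm, ← pars_Par, ← intervalIntegral.integral_const_mul]
  refine intervalIntegral.integral_mono_on (by linarith [Real.pi_pos])
    (((cont_Par _ _).norm.pow 2).intervalIntegrable _ _)
    ((continuous_const.mul ((cont_Par _ _).norm.pow 2)).intervalIntegrable _ _) fun θ _ => ?_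
  rw [sq_PFour hg, Complex.norm_real, Real.norm_eq_abs, sq_abs, sq (‖F_Par (Io L) g θ‖ ^ 2)]
  refine mul_le_mul_of_nonneg_right (pow_le_pow_left₀ (norm_nonneg _) ?_ 2) (sq_nonneg _)
  rw [F_eq_PFour]
  exact hA _

end Pool.Agent.MP_2a1f0e_nt.GM2
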